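import Pool.Agent.Lib_helper78.A55.PA
import Pool.Agent.Lib_helper78.A55.PD

/-!
# Probability layer of MP_a55cb8: block E1 (helper85)
-/

open Matrix Finset

namespace A55

noncomputable section

/-- the coefficient of a pair -/
def PE1_c {n b : ℕ} (w : Fin n → Bool × (Fin b → Bool)) (p : Fin n × Fin n) : ℝ :=
  if (w p.1).2 = (w p.2).2 then sgn (w p.1).1 * sgn (w p.2).1 else 0

theorem PE1_sgn_sq (b : Bool) : sgn b * sgn b = 1 := by
  cases b <;> norm_num [sgn]

theorem PE1_c_swap {n b : ℕ} (w : Fin n → Bool × (Fin b → Bool)) (p : Fin n × Fin n) :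
    PE1_c w p.swap = PE1_c w p := by
  unfold PE1_c
  simp only [Prod.fst_swap, Prod.snd_swap]
  by_cases h : (w p.1).2 = (w p.2).2
  · rw [if_pos h, if_pos h.symm, mul_comm]
  · rw [if_neg h, if_neg (fun h' => h h'.symm)]

theorem PE1_c_diag {n b : ℕ} (w : Fin n → Bool × (Fin b → Bool)) (i : Fin n) :
    PE1_c w (i, i) = 1 := by
  unfold PE1_c
  simp [PE1_sgn_sq]

theorem PE1_dot {n b : ℕ} (w : Fin n → Bool × (Fin b → Bool)) (x y : Fin n → ℝ) :
    (sk1 w *ᵥ x) ⬝ᵥ (sk1 w *ᵥ y) - x ⬝ᵥ y =
      ∑ p ∈ (Finset.univ : Finset (Fin n)).offDiag, PE1_c w p * (x p.1 * y p.2) := by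
  have h1 : (sk1 w *ᵥ x) ⬝ᵥ (sk1 w *ᵥ y) =
      ∑ p : Fin n × Fin n, PE1_c w p * (x p.1 * y p.2) := by
    simp only [dotProduct, mulVec]
    simp only [Finset.sum_mul_sum]
    rw [Finset.sum_comm, Fintype.sum_prod_type]
    refine Finset.sum_congr rfl fun i _ => ?_
    rw [Finset.sum_comm]
    refine Finset.sum_congr rfl fun j _ => ?_
    unfold sk1 PE1_c
    by_cases h : (w i).2 = (w j).2
    · rw [if_pos h, Finset.sum_eq_single (w i).2]
      · simp only [if_true, h]; ring
      · intro q _ hq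
        rw [if_neg (fun h' => hq h'.symm)]; ring
      · intro h'; exact absurd (Finset.mem_univ _) h'
    · rw [if_neg h, zero_mul]
      apply Finset.sum_eq_zero
      intro q _
      by_cases h1 : (w i).2 = q
      · have h2 : (w j).2 ≠ q := fun h2 => h (h1.trans h2.symm)
        rw [if_neg h2]; ring
      · rw [if_neg h1]; ring
  have h2 : (Finset.univ : Finset (Fin n × Fin n)) =
      (Finset.univ : Finset (Fin n)).diag ∪ (Finset.univ : Finset (Fin n)).offDiag := by
    rw [Finset.diag_union_offDiag]; rfl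
  rw [h1, h2, Finset.sum_union (Finset.disjoint_diag_offDiag _)]
  have h3 : ∑ p ∈ (Finset.univ : Finset (Fin n)).diag, PE1_c w p * (x p.1 * y p.2) = x ⬝ᵥ y := by
    rw [Finset.sum_diag]
    simp only [PE1_c_diag, one_mul, dotProduct]
  rw [h3]; ring

/-- average over the sign of an index that occurs once -/
theorem PE1_once {n b : ℕ} (i j k l : Fin n) (hj : j ≠ i) (hk : k ≠ i) (hl : l ≠ i) :
    av (fun w : Fin n → Bool × (Fin b → Bool) => PE1_c w (i, j) * PE1_c w (k, l)) = 0 := by
  rw [av_update i]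
  have h : ∀ w : Fin n → Bool × (Fin b → Bool),
      av (fun c : Bool × (Fin b → Bool) => PE1_c (Function.update w i c) (i, j) *
        PE1_c (Function.update w i c) (k, l)) = 0 := by
    intro w
    unfold PE1_c
    simp only [Function.update_self, Function.update_of_ne hj, Function.update_of_ne hk,
      Function.update_of_ne hl]
    rw [av_mul_right, av_prod, av_comm]
    have h0 : ∀ q : Fin b → Bool, av (fun s : Bool =>
        if q = (w j).2 then sgn s * sgn (w j).1 else 0) = 0 := by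
      intro q
      unfold av
      by_cases hq : q = (w j).2
      · simp [hq, sgn]
      · simp [hq]
    simp only [h0]
    unfold av
    simp
  simp only [h]
  unfold av
  simp

theorem PE1_sq {n b : ℕ} (i j : Fin n) (hij : i ≠ j) :
    av (fun w : Fin n → Bool × (Fin b → Bool) => PE1_c w (i, j) * PE1_c w (i, j)) =
      (2 ^ b : ℝ)⁻¹ := by
  rw [av_update i]
  have h : ∀ w : Fin n → Bool × (Fin b → Bool),
      av (fun c : Bool × (Fin b → Bool) => PE1_c (Function.update w i c) (i, j) *
        PE1_c (Function.update w i c) (i, j)) = (2 ^ b : ℝ)⁻¹ := by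
    intro w
    unfold PE1_c
    simp only [Function.update_self, Function.update_of_ne hij.symm]
    rw [av_prod]
    have h0 : ∀ s : Bool, av (fun q : Fin b → Bool =>
        (if q = (w j).2 then sgn s * sgn (w j).1 else 0) *
        (if q = (w j).2 then sgn s * sgn (w j).1 else 0)) = (2 ^ b : ℝ)⁻¹ := by
      intro s
      have h1 : ∀ q : Fin b → Bool, (if q = (w j).2 then sgn s * sgn (w j).1 else 0) *
        (if q = (w j).2 then sgn s * sgn (w j).1 else 0) = if q = (w j).2 then (1 : ℝ) else 0 := by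
        intro q
        by_cases hq : q = (w j).2
        · simp only [hq, if_true]
          have := PE1_sgn_sq s
          have h2 := PE1_sgn_sq (w j).1
          calc sgn s * sgn (w j).1 * (sgn s * sgn (w j).1) =
              (sgn s * sgn s) * (sgn (w j).1 * sgn (w j).1) := by ring
            _ = 1 := by rw [this, h2]; ring
        · simp [hq]
      simp only [h1]
      unfold av
      simp
    simp only [h0]
    rw [av_const]
  simp only [h]
  rw [av_const]

theorem PE1_cc {n b : ℕ} (p q : Fin n × Fin n) (hp : p.1 ≠ p.2) (hq : q.1 ≠ q.2) :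
    av (fun w : Fin n → Bool × (Fin b → Bool) => PE1_c w p * PE1_c w q) =
      if q = p ∨ q = p.swap then (2 ^ b : ℝ)⁻¹ else 0 := by
  obtain ⟨i, j⟩ := p
  obtain ⟨k, l⟩ := q
  simp only [ne_eq] at hp hq
  by_cases h1 : ((k, l) : Fin n × Fin n) = (i, j)
  · rw [if_pos (Or.inl h1), h1]
    exact PE1_sq i j hp
  by_cases h2 : ((k, l) : Fin n × Fin n) = (i, j).swap
  · rw [if_pos (Or.inr h2), h2]
    simp only [PE1_c_swap]
    exact PE1_sq i j hp
  rw [if_neg (by tauto)]
  simp only [Prod.swap_prod_mk, Prod.mk.injEq, not_and] at h1 h2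
  by_cases hi : k = i
  · -- then j occurs once
    have hlj : l ≠ j := h1 hi
    have e : ∀ w : Fin n → Bool × (Fin b → Bool), PE1_c w (i, j) = PE1_c w (j, i) := by
      intro w; exact (PE1_c_swap w (i, j)).symm
    simp only [e]
    exact PE1_once j i k l hp (by rw [hi]; exact hp) hlj
  by_cases hl : l = i
  · have hkj : k ≠ j := fun h => h2 h hl
    have e : ∀ w : Fin n → Bool × (Fin b → Bool), PE1_c w (i, j) = PE1_c w (j, i) := by
      intro w; exact (PE1_c_swap w (i, j)).symm
    simp only [e]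
    exact PE1_once j i k l hp hkj (by rw [hl]; exact hp)
  · exact PE1_once i j k l (Ne.symm hp) hi hl

/-- E1 -/
theorem sk1_second {n b : ℕ} (x y : Fin n → ℝ) :
    av (fun w : Fin n → Bool × (Fin b → Bool) =>
      ((sk1 w *ᵥ x) ⬝ᵥ (sk1 w *ᵥ y) - x ⬝ᵥ y) ^ 2) ≤
      (sq x * sq y + (x ⬝ᵥ y) ^ 2) / 2 ^ b := by
  set D := (Finset.univ : Finset (Fin n)).offDiag with hD
  have h1 : ∀ w : Fin n → Bool × (Fin b → Bool),
      ((sk1 w *ᵥ x) ⬝ᵥ (sk1 w *ᵥ y) - x ⬝ᵥ y) ^ 2 =
      ∑ p ∈ D, ∑ q ∈ D, (PE1_c w p * PE1_c w q) * ((x p.1 * y p.2) * (x q.1 * y q.2)) := by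
    intro w
    rw [PE1_dot, pow_two, Finset.sum_mul_sum]
    refine Finset.sum_congr rfl fun p _ => Finset.sum_congr rfl fun q _ => ?_
    ring
  rw [av_congr h1, av_sum]
  have h2 : ∀ p ∈ D, av (fun w : Fin n → Bool × (Fin b → Bool) =>
      ∑ q ∈ D, (PE1_c w p * PE1_c w q) * ((x p.1 * y p.2) * (x q.1 * y q.2))) =
      (2 ^ b : ℝ)⁻¹ * ((x p.1 * y p.2) * (x p.1 * y p.2) + (x p.1 * y p.2) * (x p.2 * y p.1)) := by
    intro p hp
    rw [av_sum]
    have hp' : p.1 ≠ p.2 := (Finset.mem_offDiag.1 hp).2.2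
    have h3 : ∀ q ∈ D, av (fun w : Fin n → Bool × (Fin b → Bool) =>
        (PE1_c w p * PE1_c w q) * ((x p.1 * y p.2) * (x q.1 * y q.2))) =
        (if q = p then (2 ^ b : ℝ)⁻¹ * ((x p.1 * y p.2) * (x q.1 * y q.2)) else 0) +
        (if q = p.swap then (2 ^ b : ℝ)⁻¹ * ((x p.1 * y p.2) * (x q.1 * y q.2)) else 0) := by
      intro q hq
      have hq' : q.1 ≠ q.2 := (Finset.mem_offDiag.1 hq).2.2
      rw [av_mul_right, PE1_cc p q hp' hq']
      have hps : p ≠ p.swap := by
        intro h
        apply hp'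
        have := congrArg Prod.fst h
        simpa using this
      by_cases e1 : q = p
      · have e2 : q ≠ p.swap := by rw [e1]; exact hps
        rw [if_pos (Or.inl e1), if_pos e1, if_neg e2]; ring
      · by_cases e2 : q = p.swap
        · rw [if_pos (Or.inr e2), if_neg e1, if_pos e2]; ring
        · rw [if_neg (by tauto), if_neg e1, if_neg e2]; ring
    rw [Finset.sum_congr rfl h3, Finset.sum_add_distrib, Finset.sum_ite_eq' D p,
      Finset.sum_ite_eq' D p.swap, if_pos hp, if_pos (by
        rw [hD, Finset.mem_offDiag] at hp ⊢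
        exact ⟨Finset.mem_univ _, Finset.mem_univ _, by
          simp only [Prod.fst_swap, Prod.snd_swap]; exact hp'.symm⟩)]
    simp only [Prod.fst_swap, Prod.snd_swap]
    ring
  rw [Finset.sum_congr rfl h2, ← Finset.mul_sum, div_eq_inv_mul]
  apply mul_le_mul_of_nonneg_left _ (by positivity)
  -- compare with the full sum
  have h4 : ∑ p : Fin n × Fin n,
      ((x p.1 * y p.2) * (x p.1 * y p.2) + (x p.1 * y p.2) * (x p.2 * y p.1)) =
      sq x * sq y + (x ⬝ᵥ y) ^ 2 := by
    rw [Finset.sum_add_distrib]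
    congr 1
    · rw [Fintype.sum_prod_type]
      unfold A55.sq
      rw [Finset.sum_mul_sum]
      refine Finset.sum_congr rfl fun i _ => Finset.sum_congr rfl fun j _ => ?_
      ring
    · rw [Fintype.sum_prod_type]
      simp only [dotProduct]
      rw [pow_two, Finset.sum_mul_sum]
      refine Finset.sum_congr rfl fun i _ => Finset.sum_congr rfl fun j _ => ?_
      ring
  rw [← h4]
  have h5 : (Finset.univ : Finset (Fin n × Fin n)) =
      (Finset.univ : Finset (Fin n)).diag ∪ (Finset.univ : Finset (Fin n)).offDiag := by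
    rw [Finset.diag_union_offDiag]; rfl
  rw [h5, Finset.sum_union (Finset.disjoint_diag_offDiag _), Finset.sum_diag]
  have h6 : 0 ≤ ∑ i : Fin n, ((x i * y i) * (x i * y i) + (x i * y i) * (x i * y i)) := by
    apply Finset.sum_nonneg
    intro i _
    have := mul_self_nonneg (x i * y i)
    linarith
  linarith

/-- E2 -/
theorem sk1_norm {n b : ℕ} (w : Fin n → Bool × (Fin b → Bool)) (x : Fin n → ℝ) :
    sq (sk1 w *ᵥ x) ≤ n * sq x := by
  unfold A55.sq
  have h1 : ∀ p : Fin b → Bool, (sk1 w *ᵥ x) p ^ 2 ≤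
      (n : ℝ) * ∑ i, if (w i).2 = p then x i ^ 2 else 0 := by
    intro p
    have h2 : (sk1 w *ᵥ x) p = ∑ i, sk1 w p i * x i := rfl
    rw [h2]
    have h3 := sq_sum_le_card_mul_sum_sq (s := (Finset.univ : Finset (Fin n)))
      (f := fun i => sk1 w p i * x i)
    rw [Finset.card_univ, Fintype.card_fin] at h3
    refine h3.trans (le_of_eq ?_)
    congr 1
    refine Finset.sum_congr rfl fun i _ => ?_
    unfold sk1
    by_cases h : (w i).2 = p
    · rw [if_pos h, if_pos h]
      have := PE1_sgn_sq (w i).1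
      calc (sgn (w i).1 * x i) ^ 2 = (sgn (w i).1 * sgn (w i).1) * x i ^ 2 := by ring
        _ = x i ^ 2 := by rw [this, one_mul]
    · rw [if_neg h, if_neg h]; ring
  refine (Finset.sum_le_sum fun p _ => h1 p).trans (le_of_eq ?_)
  rw [← Finset.mul_sum, Finset.sum_comm]
  congr 1
  refine Finset.sum_congr rfl fun i _ => ?_
  rw [Finset.sum_ite_eq]
  simp

end

end A55
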