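import Pool.Agent.Lib_helper78.A55.PD
import Pool.Agent.Lib_helper78.A55.P_E1
import Pool.Agent.Lib_helper78.A55.P_E3

/-!
# Probability layer of MP_a55cb8, block E4 (helper2): one step of the CountSketch embedding
-/

open Matrix Finset

namespace A55

noncomputable section



/-- A subspace of `ℝⁿ` has an orthonormal basis. -/
theorem E4_basis {n : ℕ} (U : Submodule ℝ (Fin n → ℝ)) :
    ∃ v : Fin (Module.finrank ℝ U) → Fin n → ℝ, (∀ i, v i ∈ U) ∧
      ∀ i j, v i ⬝ᵥ v j = if i = j then 1 else 0 := by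
  classical
  let L : EuclideanSpace ℝ (Fin n) ≃ₗ[ℝ] (Fin n → ℝ) := WithLp.linearEquiv 2 ℝ (Fin n → ℝ)
  let U' : Submodule ℝ (EuclideanSpace ℝ (Fin n)) := U.map (L.symm : (Fin n → ℝ) →ₗ[ℝ] _)
  have hf : Module.finrank ℝ U' = Module.finrank ℝ U :=
    LinearEquiv.finrank_map_eq L.symm U
  let b := stdOrthonormalBasis ℝ U'
  refine ⟨fun i => L (b (Fin.cast hf.symm i) : EuclideanSpace ℝ (Fin n)), ?_, ?_⟩
  · intro i
    have h := (b (Fin.cast hf.symm i)).2
    obtain ⟨x, hx, hxe⟩ := h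
    have : L (b (Fin.cast hf.symm i) : EuclideanSpace ℝ (Fin n)) = x := by
      rw [← hxe]; simp
    show L (b (Fin.cast hf.symm i) : EuclideanSpace ℝ (Fin n)) ∈ U
    rw [this]; exact hx
  · intro i j
    have h := (orthonormal_iff_ite.1 b.orthonormal) (Fin.cast hf.symm i) (Fin.cast hf.symm j)
    have h2 : inner ℝ (b (Fin.cast hf.symm i)) (b (Fin.cast hf.symm j)) =
        L (b (Fin.cast hf.symm i) : EuclideanSpace ℝ (Fin n)) ⬝ᵥ
          L (b (Fin.cast hf.symm j) : EuclideanSpace ℝ (Fin n)) := by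
      rw [Submodule.coe_inner, PiLp.inner_apply]
      simp only [dotProduct]
      refine Finset.sum_congr rfl fun k _ => ?_
      simp [L, mul_comm]
    rw [← h2, h]
    simp [Fin.ext_iff]

/-- E4: one step. -/
theorem sk1_split {n b : ℕ} (U : Submodule ℝ (Fin n → ℝ)) (δ : ℝ) (hδ : 0 < δ)
    (hb : 8 * (Module.finrank ℝ U + 1) / δ ≤ 2 ^ b) :
    frac (fun w : Fin n → Bool × (Fin b → Bool) =>
      ¬ ∃ V : Submodule ℝ (Fin n → ℝ), V ≤ U ∧
        2 * Module.finrank ℝ V ≤ Module.finrank ℝ U ∧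
        ∀ x ∈ U, ∃ y ∈ V, sq (x - y) ≤ 2 * sq (sk1 w *ᵥ x)) ≤ δ := by
  obtain ⟨d, hd⟩ : ∃ d : ℕ, d = Module.finrank ℝ U := ⟨_, rfl⟩
  have hbas := E4_basis U
  rw [← hd] at hb hbas ⊢
  obtain ⟨v, hv, ho⟩ := hbas
  let F : (Fin n → Bool × (Fin b → Bool)) → ℝ := fun w =>
    ∑ i, ∑ j, ((sk1 w *ᵥ v i) ⬝ᵥ (sk1 w *ᵥ v j) - v i ⬝ᵥ v j) ^ 2
  have hF0 : ∀ w, 0 ≤ F w := fun w =>
    Finset.sum_nonneg fun i _ => Finset.sum_nonneg fun j _ => sq_nonneg _
  have hgood : ∀ w, 8 * F w ≤ d → ∃ V : Submodule ℝ (Fin n → ℝ), V ≤ U ∧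
        2 * Module.finrank ℝ V ≤ d ∧
        ∀ x ∈ U, ∃ y ∈ V, sq (x - y) ≤ 2 * sq (sk1 w *ᵥ x) := by
    intro w hw
    obtain ⟨V, hVU, hVf, hVx⟩ := split_form (sk1 w) U d hd.symm v hv ho
    refine ⟨V, hVU, ?_, hVx⟩
    have h1 : (2 * Module.finrank ℝ V : ℝ) ≤ d := by
      have : (Module.finrank ℝ V : ℝ) ≤ 4 * F w := hVf
      linarith
    exact_mod_cast h1
  have hsqv : ∀ i, sq (v i) = 1 := by
    intro i
    have := ho i i
    rw [if_pos rfl] at this
    rw [← this]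
    unfold sq
    simp only [dotProduct]
    exact Finset.sum_congr rfl fun k _ => by ring
  have hav : av F ≤ d * (d + 1) / 2 ^ b := by
    have h1 : av F = ∑ i, ∑ j, av (fun w : Fin n → Bool × (Fin b → Bool) =>
        ((sk1 w *ᵥ v i) ⬝ᵥ (sk1 w *ᵥ v j) - v i ⬝ᵥ v j) ^ 2) := by
      simp only [F]
      rw [av_sum univ (fun i => fun w : Fin n → Bool × (Fin b → Bool) =>
        ∑ j, ((sk1 w *ᵥ v i) ⬝ᵥ (sk1 w *ᵥ v j) - v i ⬝ᵥ v j) ^ 2)]
      refine Finset.sum_congr rfl fun i _ => ?_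
      exact av_sum univ (fun j => fun w : Fin n → Bool × (Fin b → Bool) =>
        ((sk1 w *ᵥ v i) ⬝ᵥ (sk1 w *ᵥ v j) - v i ⬝ᵥ v j) ^ 2)
    rw [h1]
    calc ∑ i, ∑ j, av (fun w : Fin n → Bool × (Fin b → Bool) =>
          ((sk1 w *ᵥ v i) ⬝ᵥ (sk1 w *ᵥ v j) - v i ⬝ᵥ v j) ^ 2)
        ≤ ∑ i : Fin d, ∑ j : Fin d, (1 + if i = j then (1 : ℝ) else 0) / 2 ^ b := by
          refine Finset.sum_le_sum fun i _ => Finset.sum_le_sum fun j _ => ?_
          refine (sk1_second (v i) (v j)).trans (le_of_eq ?_)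
          rw [hsqv i, hsqv j, ho i j]
          by_cases hij : i = j <;> simp [hij]
      _ = d * (d + 1) / 2 ^ b := by
          simp only [← Finset.sum_div, Finset.sum_add_distrib, Finset.sum_const,
            Finset.card_univ, Fintype.card_fin, nsmul_eq_mul, mul_one, Finset.sum_ite_eq,
            Finset.mem_univ, if_true]
          ring
  rcases Nat.eq_zero_or_pos d with h0 | hpos
  · refine le_trans (frac_mono (Q := fun _ => False) ?_) (by rw [frac_false]; exact hδ.le)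
    intro w hw
    apply hw
    apply hgood w
    have : F w = 0 := by
      simp only [F]
      have : IsEmpty (Fin d) := by rw [h0]; infer_instance
      simp
    rw [this]; simp
  · have hdpos : (0 : ℝ) < d := by exact_mod_cast hpos
    have ht : (0 : ℝ) < (d : ℝ) / 8 := by positivity
    refine le_trans (frac_mono (Q := fun w => (d : ℝ) / 8 ≤ F w) ?_) ?_
    · intro w hw
      by_contra hc
      apply hw
      apply hgood w
      have := not_le.1 hc
      linarith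
    · refine (markov hF0 ht).trans ?_
      have h2b : (0 : ℝ) < 2 ^ b := by positivity
      rw [div_le_iff₀ ht]
      refine hav.trans ?_
      rw [div_le_iff₀ h2b]
      rw [div_le_iff₀ hδ] at hb
      have : (d : ℝ) * (8 * (d + 1)) ≤ d * (2 ^ b * δ) :=
        mul_le_mul_of_nonneg_left hb hdpos.le
      nlinarith [this]

end

end A55
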