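import Pool.Agent.Lib_helper78.A55.PD
import Pool.Agent.Lib_helper50.A55.ProbIface
import Pool.Agent.Lib_helper78.A55.P_E4
import Pool.Agent.Lib_helper78.A55.P_E1

/-!
# MP_a55cb8, probability layer, block E5: the CountSketch embedding (helper99)
-/

open Matrix Finset

namespace A55

noncomputable section



theorem PE5_sq_nonneg {ι : Type*} [Fintype ι] (x : ι → ℝ) : 0 ≤ sq x :=
  Finset.sum_nonneg fun i _ => sq_nonneg (x i)

theorem PE5_sq_add {ι : Type*} [Fintype ι] (x y : ι → ℝ) : sq (x + y) ≤ 2 * (sq x + sq y) := by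
  unfold sq
  rw [← Finset.sum_add_distrib, Finset.mul_sum]
  refine Finset.sum_le_sum fun i _ => ?_
  simp only [Pi.add_apply]
  nlinarith [sq_nonneg (x i - y i)]

theorem PE5_sq_sub {ι : Type*} [Fintype ι] (x y : ι → ℝ) : sq (x - y) ≤ 2 * (sq x + sq y) := by
  unfold sq
  rw [← Finset.sum_add_distrib, Finset.mul_sum]
  refine Finset.sum_le_sum fun i _ => ?_
  simp only [Pi.sub_apply]
  nlinarith [sq_nonneg (x i + y i)]

theorem PE5_sk {n J b : ℕ} (w : Fin J → Fin n → Bool × (Fin b → Bool)) (x : Fin n → ℝ) :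
    sq (sk w *ᵥ x) = ∑ r, sq (sk1 (w r) *ᵥ x) := by
  unfold sq
  rw [Fintype.sum_prod_type]
  rfl

theorem PE5_sk1_le {n J b : ℕ} (w : Fin J → Fin n → Bool × (Fin b → Bool)) (x : Fin n → ℝ)
    (r : Fin J) : sq (sk1 (w r) *ᵥ x) ≤ sq (sk w *ᵥ x) := by
  rw [PE5_sk]
  exact Finset.single_le_sum (f := fun r => sq (sk1 (w r) *ᵥ x))
    (fun r _ => PE5_sq_nonneg _) (Finset.mem_univ r)

/-- The embedding property of a stack, with the maximum over the copies. -/
def PE5_good {n J b : ℕ} (U : Submodule ℝ (Fin n → ℝ)) (C : ℝ)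
    (w : Fin J → Fin n → Bool × (Fin b → Bool)) : Prop :=
  ∀ x ∈ U, ∀ t : ℝ, 0 ≤ t → (∀ r, sq (sk1 (w r) *ᵥ x) ≤ t) → sq x ≤ C * t

theorem PE5_bot {n J b : ℕ} (U : Submodule ℝ (Fin n → ℝ)) (hU : U = ⊥) (C : ℝ) (hC : 0 ≤ C)
    (w : Fin J → Fin n → Bool × (Fin b → Bool)) : PE5_good U C w := by
  intro x hx t ht _
  rw [hU, Submodule.mem_bot] at hx
  subst hx
  have : sq (0 : Fin n → ℝ) = 0 := by simp [sq]
  rw [this]
  positivity

theorem PE5_step {n J b : ℕ} (U V : Submodule ℝ (Fin n → ℝ)) (C : ℝ) (hC : 1 ≤ C)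
    (w0 : Fin n → Bool × (Fin b → Bool)) (w : Fin J → Fin n → Bool × (Fin b → Bool))
    (h0 : ∀ x ∈ U, ∃ y ∈ V, sq (x - y) ≤ 2 * sq (sk1 w0 *ᵥ x))
    (h1 : PE5_good V C w) (x : Fin n → ℝ) (hx : x ∈ U) (t : ℝ) (ht : 0 ≤ t)
    (hw0 : sq (sk1 w0 *ᵥ x) ≤ t) (hw : ∀ r, sq (sk1 (w r) *ᵥ x) ≤ t) :
    sq x ≤ 8 * (n + 1 : ℝ) * C * t := by
  obtain ⟨y, hyV, hy⟩ := h0 x hx
  have hn : (0 : ℝ) ≤ n := Nat.cast_nonneg n
  have hy2 : ∀ r, sq (sk1 (w r) *ᵥ y) ≤ (2 + 4 * n) * t := by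
    intro r
    have h2 : sk1 (w r) *ᵥ y = sk1 (w r) *ᵥ x - sk1 (w r) *ᵥ (x - y) := by
      rw [← Matrix.mulVec_sub]; congr 1; abel
    have h3 := PE5_sq_sub (sk1 (w r) *ᵥ x) (sk1 (w r) *ᵥ (x - y))
    rw [← h2] at h3
    have h4 := sk1_norm (w r) (x - y)
    have h5 := hw r
    have h6 : (n : ℝ) * sq (x - y) ≤ n * (2 * t) := by
      apply mul_le_mul_of_nonneg_left _ hn
      linarith
    nlinarith
  have h7 := h1 y hyV ((2 + 4 * n) * t) (by positivity) hy2
  have h8 := PE5_sq_add (x - y) y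
  rw [sub_add_cancel] at h8
  have h9 : t ≤ C * t := by nlinarith
  nlinarith [mul_nonneg hn ht, mul_nonneg hn (mul_nonneg (by linarith : (0:ℝ) ≤ C) ht)]

theorem PE5_main {n b : ℕ} (J : ℕ) : ∀ (U : Submodule ℝ (Fin n → ℝ)) (δ : ℝ), 0 < δ →
    Module.finrank ℝ U < 2 ^ J → 8 * (Module.finrank ℝ U + 1) / δ ≤ (2 : ℝ) ^ b →
    frac (fun w : Fin J → Fin n → Bool × (Fin b → Bool) =>
      ¬ PE5_good U ((8 * (n + 1 : ℝ)) ^ J) w) ≤ J * δ := by
  induction J with
  | zero =>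
    intro U δ hδ hU hb
    have hU0 : U = ⊥ := by
      rw [pow_zero, Nat.lt_one_iff] at hU
      exact Submodule.finrank_eq_zero.1 hU
    have : (fun w : Fin 0 → Fin n → Bool × (Fin b → Bool) =>
      ¬ PE5_good U ((8 * (n + 1 : ℝ)) ^ 0) w) = fun _ => False := by
      funext w
      simp only [eq_iff_iff, iff_false, not_not]
      exact PE5_bot U hU0 _ (by positivity) w
    rw [this, frac_false]
    simp
  | succ J ih =>
    intro U δ hδ hU hb
    rw [← frac_equiv (Fin.consEquiv (fun _ => Fin n → Bool × (Fin b → Bool)))]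
    have h1 := sk1_split (b := b) U δ hδ hb
    refine (frac_mono ?_).trans ((frac_prod_le
      (P := fun w0 : Fin n → Bool × (Fin b → Bool) =>
        ∃ V : Submodule ℝ (Fin n → ℝ), V ≤ U ∧
        2 * Module.finrank ℝ V ≤ Module.finrank ℝ U ∧
        ∀ x ∈ U, ∃ y ∈ V, sq (x - y) ≤ 2 * sq (sk1 w0 *ᵥ x))
      (Q := fun w0 (w : Fin J → Fin n → Bool × (Fin b → Bool)) =>
        ∀ x ∈ U, ∀ t : ℝ, 0 ≤ t → sq (sk1 w0 *ᵥ x) ≤ t →
          (∀ r, sq (sk1 (w r) *ᵥ x) ≤ t) → sq x ≤ 8 * (n + 1 : ℝ) * (8 * (n + 1 : ℝ)) ^ J * t)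
      (δ := J * δ) (by positivity) ?_).trans ?_)
    · rintro ⟨w0, w⟩ hw ⟨_, hq⟩
      apply hw
      intro x hx t ht hr
      rw [pow_succ']
      refine hq x hx t ht ?_ ?_
      · have := hr 0
        simpa using this
      · intro r
        have := hr r.succ
        simpa using this
    · rintro w0 ⟨V, hVU, hVf, hV⟩
      have hle : (Module.finrank ℝ V : ℝ) ≤ Module.finrank ℝ U := by
        exact_mod_cast (by omega : Module.finrank ℝ V ≤ Module.finrank ℝ U)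
      have h2 := ih V δ hδ (by rw [pow_succ] at hU; omega) (by
        refine le_trans ?_ hb
        gcongr)
      refine (frac_mono ?_).trans h2
      intro w hw hg
      apply hw
      intro x hx t ht hw0 hr
      have hC : (1 : ℝ) ≤ (8 * (n + 1 : ℝ)) ^ J := by
        apply one_le_pow₀
        have : (0 : ℝ) ≤ n := Nat.cast_nonneg n
        linarith
      have := PE5_step U V ((8 * (n + 1 : ℝ)) ^ J) hC w0 w hV hg x hx t ht hw0 hr
      exact this
    · push_cast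
      linarith

/-- E5 -/
theorem embed : Embed := by
  intro n J b d U δ hδ hδ1 hUd hd hb
  have hn : (0 : ℝ) ≤ n := Nat.cast_nonneg n
  have hmono : ∀ w : Fin J → Fin n → Bool × (Fin b → Bool),
      PE5_good U ((8 * (n + 1 : ℝ)) ^ J) w →
      ∀ x ∈ U, sq x ≤ (16 * (n + 1 : ℝ)) ^ (J + 1) * sq (sk w *ᵥ x) := by
    intro w hg x hx
    refine (hg x hx (sq (sk w *ᵥ x)) (PE5_sq_nonneg _) (fun r => PE5_sk1_le w x r)).trans ?_
    apply mul_le_mul_of_nonneg_right _ (PE5_sq_nonneg _)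
    calc (8 * (n + 1 : ℝ)) ^ J ≤ (16 * (n + 1 : ℝ)) ^ J := by
          apply pow_le_pow_left₀ (by positivity); linarith
      _ ≤ (16 * (n + 1 : ℝ)) ^ (J + 1) := by
          apply pow_le_pow_right₀ (by linarith); omega
  rcases Nat.eq_zero_or_pos J with hJ | hJ
  · subst hJ
    have hU0 : U = ⊥ := by
      rw [pow_zero, Nat.lt_one_iff] at hd
      exact Submodule.finrank_eq_zero.1 (by omega)
    have : (fun w : Fin 0 → Fin n → Bool × (Fin b → Bool) =>
      ¬ ∀ x ∈ U, sq x ≤ (16 * (n + 1 : ℝ)) ^ (0 + 1) * sq (sk w *ᵥ x)) = fun _ => False := by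
      funext w
      simp only [eq_iff_iff, iff_false, not_not]
      exact hmono w (PE5_bot U hU0 _ (by positivity) w)
    rw [this, frac_false]
    exact hδ.le
  · have hJ' : (0 : ℝ) < J := by exact_mod_cast hJ
    have h1 : (Module.finrank ℝ U : ℝ) ≤ d := by exact_mod_cast hUd
    have h := PE5_main (n := n) (b := b) J U (δ / J) (by positivity) (by omega) (by
      refine le_trans ?_ hb
      rw [div_div_eq_mul_div]
      gcongr
      have : (0 : ℝ) ≤ Module.finrank ℝ U := Nat.cast_nonneg _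
      linarith)
    rw [mul_div_cancel₀ _ hJ'.ne'] at h
    refine (frac_mono ?_).trans h
    intro w hw hg
    exact hw (hmono w hg)

end

end A55
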