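import Pool.Agent.Lib_helper78.A55.PD
import Pool.Agent.Lib_helper50.A55.ProbIface

/-!
# MP_a55cb8, level layer: the estimates and decisions of one level as functions of the bits
(helper78)
-/

open Matrix Finset

namespace A55

noncomputable section

/-- the vector of signs of a string of bits -/
def sv {d : ℕ} (g : Fin d → Bool) : Fin d → ℝ := fun j => sgn (g j)

/-- Estimates of the ridge scores of the rows of `A` from an approximate inverse `Q` of the gram
matrix: `∑_r ((A Q Aᵀ g_r)_i² + l (A Q g'_r)_i²)`. -/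
def estR {n M : ℕ} (A Q : Matrix (Fin n) (Fin n) ℝ) (l : ℝ)
    (g : (Fin M → Fin n → Bool) × (Fin M → Fin n → Bool)) (i : Fin n) : ℝ :=
  ∑ r, ((A *ᵥ (Q *ᵥ (Aᵀ *ᵥ sv (g.1 r)))) i ^ 2 + l * (A *ᵥ (Q *ᵥ sv (g.2 r))) i ^ 2)

/-- the largest `e ≤ E` with `t ≤ 4^(-e)` (and `0` if there is none) -/
def expo (E : ℕ) (t : ℝ) : ℕ :=
  open Classical in Nat.findGreatest (fun e => t ≤ (1 / 4) ^ e) E

/-- the exponents of the rates, from the estimates of the scores -/
def rateE (E : ℕ) (L : ℝ) {n : ℕ} (est : Fin n → ℝ) (i : Fin n) : ℕ := expo E (L * est i)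

/-- Estimates of the lengths of the columns of `S G`, `S = diagonal w`:
`∑_r (l (Q Aᵀ (w ∘ g_r))_c)²`. -/
def estN {n M : ℕ} (A Q : Matrix (Fin n) (Fin n) ℝ) (l : ℝ) (w : Fin n → ℝ)
    (g : Fin M → Fin n → Bool) (c : Fin n) : ℝ :=
  ∑ r, (l * (Q *ᵥ (Aᵀ *ᵥ fun p => w p * sgn (g r p))) c) ^ 2

/-- the bad coordinates: positive exponent and large noise -/
def badOf {n : ℕ} (thr : ℝ) (f : Fin n → ℕ) (est : Fin n → ℝ) (c : Fin n) : Bool :=
  open Classical in decide (f c ≠ 0 ∧ thr * (1 / 4) ^ f c < est c)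

/-- The random bits of one level: signs `s1, s2` for the scores of the rows, `s3, s4` for the
scores of the columns, `s5` for the noise of the columns, bits of the column sample, signs `s6`
for the noise of the rows, bits of the row sample. -/
abbrev LBits (n M B : ℕ) : Type :=
  (((Fin M → Fin n → Bool) × (Fin M → Fin n → Bool)) ×
    ((Fin M → Fin n → Bool) × (Fin M → Fin n → Bool))) ×
  ((Fin M → Fin n → Bool) × ((Fin n → Fin B → Bool) ×
    ((Fin M → Fin n → Bool) × (Fin n → Fin B → Bool))))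

/-- The data of a level: exponents of the rates of rows and columns, weights of rows and
columns. -/
structure LD (n : ℕ) where
  e : Fin n → ℕ
  f : Fin n → ℕ
  s : Fin n → ℝ
  t : Fin n → ℝ

/-- The step from the row sample `s` of the level with ridge `l` to the next level, with ridge
`l'`; `Q`, `Q1`, `Q2` are approximate inverses of `gram A l`, `gram A l'`, `gram Aᵀ l'`. -/
def LD.next {n M B : ℕ} (E : ℕ) (u : ℝ) (A Q Q1 Q2 : Matrix (Fin n) (Fin n) ℝ) (l l' : ℝ)
    (s : Fin n → ℝ) (g : LBits n M B) : LD n :=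
  let e := rateE E (u ^ 10) (estR A Q1 l' g.1.1)
  let f := rateE E (u ^ 10) (estR Aᵀ Q2 l' g.1.2)
  let badc := badOf (u⁻¹ ^ 3 / 4 * l) f (estN A Q l s g.2.1)
  let t := fun c => wt (f c) (badc c) (g.2.2.1 c)
  let badr := badOf (u⁻¹ ^ 3 / 4 * l') e (estN Aᵀ Q2 l' t g.2.2.2.1)
  ⟨e, f, fun i => wt (e i) (badr i) (g.2.2.2.2 i), t⟩

/-- What is guaranteed for the data `D` of a level with ridge `l'`, when `s` is the row sample of
the level before (ridge `l`), and `l''` is the ridge of the level after. -/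
structure GoodLevel {n : ℕ} (M E : ℕ) (u : ℝ) (A : Matrix (Fin n) (Fin n) ℝ) (l l' l'' : ℝ)
    (s : Fin n → ℝ) (D : LD n) : Prop where
  e_le : ∀ i, D.e i ≤ E
  f_le : ∀ i, D.f i ≤ E
  ratesR : RatesOK A l' (u ^ 10) D.e
  ratesC : RatesOK Aᵀ l' (u ^ 10) D.f
  upperR : ∀ i, (1 / 4 : ℝ) ^ D.e i ≤ 8 * u ^ 10 * M ^ 3 * rho A l' i + 5 * M ^ 3 * (1 / 4) ^ E
  upperC : ∀ c, (1 / 4 : ℝ) ^ D.f c ≤ 8 * u ^ 10 * M ^ 3 * rho Aᵀ l' c + 5 * M ^ 3 * (1 / 4) ^ E
  wtR : ∀ i, D.s i = 0 ∨ D.s i = 2 ^ D.e i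
  wtC : ∀ c, D.t c = 0 ∨ D.t c = 2 ^ D.f c
  validR : Valid (diagonal D.s) A l'
  validC : Valid (diagonal D.t) Aᵀ l'
  noise1 : Noise (diagonal s) A (diagonal D.t) l 2
  noise2 : Noise (diagonal D.s) A (diagonal D.t) l' 2
  kill : KillOK (diagonal D.s) A l' l'' (u ^ 10) (u⁻¹ ^ 5)

/-- The bits of a level read off a stream of bits: `s1, s2, s3, s4, s5` (`M n` bits each, copy
`r`, index `j` at `r n + j`), the column sample (`n B` bits, index `i`, number `t` at `i B + t`),
`s6` (`M n` bits), the row sample (`n B` bits). -/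
def decode (n M B : ℕ) (w : ℕ → Bool) : LBits n M B :=
  (((fun r j => w (0 * (M * n) + (r * n + j)), fun r j => w (1 * (M * n) + (r * n + j))),
    (fun r j => w (2 * (M * n) + (r * n + j)), fun r j => w (3 * (M * n) + (r * n + j)))),
   (fun r j => w (4 * (M * n) + (r * n + j)),
    (fun i t => w (5 * (M * n) + (i * B + t)),
     (fun r j => w (5 * (M * n) + n * B + (r * n + j)),
      fun i t => w (6 * (M * n) + n * B + (i * B + t))))))

end

end A55
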