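import Pool.Agent.Lib_helper78.A55.PA
import Pool.Agent.Lib_helper78.A55.LDefs

/-!
# MP_a55cb8, probability layer: fresh bits are uniform (block L4)
-/

open Matrix Finset

namespace A55

noncomputable section

theorem PL4_fst {Ω Ω' R : Type*} [Fintype Ω] [Fintype Ω'] [Fintype R] [Nonempty R]
    (e : Ω ≃ Ω' × R) (p : Ω' → Prop) : frac (fun w => p (e w).1) = frac p := by
  classical
  rw [frac_equiv e (fun x : Ω' × R => p x.1), frac_eq_av, frac_eq_av, av_prod]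
  refine av_congr fun a => ?_
  exact av_const (Ω := R) (if p a then (1 : ℝ) else 0)

/-- L4b: uniform bits read at distinct places are uniform. -/
theorem frac_inj {I : Type*} [Fintype I] [DecidableEq I] {W : ℕ} (σ : I → Fin W)
    (hσ : Function.Injective σ) (p : (I → Bool) → Prop) :
    frac (fun w : Fin W → Bool => p (fun i => w (σ i))) = frac p := by
  classical
  let e1 : (Fin W → Bool) ≃ ({x // x ∈ Set.range σ} → Bool) × ({x // ¬ x ∈ Set.range σ} → Bool) :=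
    Equiv.piEquivPiSubtypeProd (fun x => x ∈ Set.range σ) (fun _ => Bool)
  let e2 : ({x // x ∈ Set.range σ} → Bool) ≃ (I → Bool) :=
    Equiv.arrowCongr (Equiv.ofInjective σ hσ).symm (Equiv.refl Bool)
  exact PL4_fst (e1.trans (Equiv.prodCongr e2 (Equiv.refl _))) p

theorem PL4_dm {N a b x y : ℕ} (hx : x < N) (hy : y < N) (h : a * N + x = b * N + y) :
    a = b ∧ x = y := by
  have h1 : (a * N + x) / N = a := by
    rw [add_comm, Nat.add_mul_div_right _ _ (by omega), Nat.div_eq_of_lt hx, zero_add]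
  have h2 : (b * N + y) / N = b := by
    rw [add_comm, Nat.add_mul_div_right _ _ (by omega), Nat.div_eq_of_lt hy, zero_add]
  have h3 : a = b := by rw [← h1, h, h2]
  subst h3
  exact ⟨rfl, by omega⟩

theorem PL4_lt {N M r j : ℕ} (hr : r < M) (hj : j < N) : r * N + j < M * N := by
  have h1 : (r + 1) * N ≤ M * N := Nat.mul_le_mul_right N hr
  have h2 : (r + 1) * N = r * N + N := by ring
  omega

/-- the index set of the bits -/
abbrev PL4_I (n M B : ℕ) : Type :=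
  (Fin 5 × (Fin M × Fin n)) ⊕ ((Fin n × Fin B) ⊕ ((Fin M × Fin n) ⊕ (Fin n × Fin B)))

/-- the places of the bits -/
def PL4_pos (n M B : ℕ) : PL4_I n M B → ℕ
  | Sum.inl (a, (r, j)) => a * (M * n) + (r * n + j)
  | Sum.inr (Sum.inl (i, t)) => 5 * (M * n) + (i * B + t)
  | Sum.inr (Sum.inr (Sum.inl (r, j))) => 5 * (M * n) + n * B + (r * n + j)
  | Sum.inr (Sum.inr (Sum.inr (i, t))) => 6 * (M * n) + n * B + (i * B + t)

/-- the bits in the form in which they are used -/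
def PL4_D (n M B : ℕ) (v : PL4_I n M B → Bool) : LBits n M B :=
  (((fun r j => v (Sum.inl (0, (r, j))), fun r j => v (Sum.inl (1, (r, j)))),
    (fun r j => v (Sum.inl (2, (r, j))), fun r j => v (Sum.inl (3, (r, j))))),
   (fun r j => v (Sum.inl (4, (r, j))),
    (fun i t => v (Sum.inr (Sum.inl (i, t))),
     (fun r j => v (Sum.inr (Sum.inr (Sum.inl (r, j)))),
      fun i t => v (Sum.inr (Sum.inr (Sum.inr (i, t))))))))

/-- the inverse -/
def PL4_G (n M B : ℕ) (g : LBits n M B) : PL4_I n M B → Bool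
  | Sum.inl (0, (r, j)) => g.1.1.1 r j
  | Sum.inl (1, (r, j)) => g.1.1.2 r j
  | Sum.inl (2, (r, j)) => g.1.2.1 r j
  | Sum.inl (3, (r, j)) => g.1.2.2 r j
  | Sum.inl (4, (r, j)) => g.2.1 r j
  | Sum.inr (Sum.inl (i, t)) => g.2.2.1 i t
  | Sum.inr (Sum.inr (Sum.inl (r, j))) => g.2.2.2.1 r j
  | Sum.inr (Sum.inr (Sum.inr (i, t))) => g.2.2.2.2 i t

/-- the equivalence -/
def PL4_e (n M B : ℕ) : (PL4_I n M B → Bool) ≃ LBits n M B where
  toFun := PL4_D n M B
  invFun := PL4_G n M B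
  left_inv v := by
    funext x
    rcases x with ⟨a, r, j⟩ | ⟨i, t⟩ | ⟨r, j⟩ | ⟨i, t⟩
    · fin_cases a <;> rfl
    · rfl
    · rfl
    · rfl
  right_inv g := rfl

theorem PL4_e_apply (n M B : ℕ) (v : PL4_I n M B → Bool) : PL4_e n M B v = PL4_D n M B v := rfl

theorem PL4_inj (n M B : ℕ) : Function.Injective (PL4_pos n M B) := by
  rintro (⟨a, r, j⟩ | ⟨i, t⟩ | ⟨r, j⟩ | ⟨i, t⟩) (⟨a', r', j'⟩ | ⟨i', t'⟩ | ⟨r', j'⟩ | ⟨i', t'⟩) h
  all_goals simp only [PL4_pos] at h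
  · obtain ⟨h1, h2⟩ := PL4_dm (PL4_lt r.2 j.2) (PL4_lt r'.2 j'.2) h
    obtain ⟨h3, h4⟩ := PL4_dm j.2 j'.2 h2
    rw [Fin.ext h1, Fin.ext h3, Fin.ext h4]
  · have h1 : (a : ℕ) * (M * n) + ((r : ℕ) * n + j) < 5 * (M * n) :=
      PL4_lt a.2 (PL4_lt r.2 j.2)
    omega
  · have h1 : (a : ℕ) * (M * n) + ((r : ℕ) * n + j) < 5 * (M * n) :=
      PL4_lt a.2 (PL4_lt r.2 j.2)
    omega
  · have h1 : (a : ℕ) * (M * n) + ((r : ℕ) * n + j) < 5 * (M * n) :=
      PL4_lt a.2 (PL4_lt r.2 j.2)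
    omega
  · have h1 : (a' : ℕ) * (M * n) + ((r' : ℕ) * n + j') < 5 * (M * n) :=
      PL4_lt a'.2 (PL4_lt r'.2 j'.2)
    omega
  · obtain ⟨h3, h4⟩ := PL4_dm t.2 t'.2 (Nat.add_left_cancel h)
    rw [Fin.ext h3, Fin.ext h4]
  · have h1 := PL4_lt i.2 t.2
    omega
  · have h1 := PL4_lt i.2 t.2
    omega
  · have h1 : (a' : ℕ) * (M * n) + ((r' : ℕ) * n + j') < 5 * (M * n) :=
      PL4_lt a'.2 (PL4_lt r'.2 j'.2)
    omega
  · have h1 := PL4_lt i'.2 t'.2
    omega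
  · obtain ⟨h3, h4⟩ := PL4_dm j.2 j'.2 (Nat.add_left_cancel h)
    rw [Fin.ext h3, Fin.ext h4]
  · have h1 := PL4_lt r.2 j.2
    omega
  · have h1 : (a' : ℕ) * (M * n) + ((r' : ℕ) * n + j') < 5 * (M * n) :=
      PL4_lt a'.2 (PL4_lt r'.2 j'.2)
    omega
  · have h1 := PL4_lt i'.2 t'.2
    omega
  · have h1 := PL4_lt r'.2 j'.2
    omega
  · obtain ⟨h3, h4⟩ := PL4_dm t.2 t'.2 (Nat.add_left_cancel h)
    rw [Fin.ext h3, Fin.ext h4]

theorem PL4_dec (n M B : ℕ) (s : ℕ → Bool) :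
    decode n M B s = PL4_D n M B (fun x => s (PL4_pos n M B x)) := rfl

/-- L4: fresh bits are uniform. -/
theorem frac_decode (n M B W : ℕ) (hW : 6 * (M * n) + 2 * (n * B) ≤ W)
    (p : LBits n M B → Prop) :
    frac (fun w : Fin W → Bool =>
      p (decode n M B (fun t => if h : t < W then w ⟨t, h⟩ else false))) = frac p := by
  have hlt : ∀ x, PL4_pos n M B x < W := by
    rintro (⟨a, r, j⟩ | ⟨i, t⟩ | ⟨r, j⟩ | ⟨i, t⟩)
    · have h1 := PL4_lt r.2 j.2
      have h2 := PL4_lt a.2 h1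
      show (a : ℕ) * (M * n) + ((r : ℕ) * n + j) < W
      omega
    · have h1 := PL4_lt i.2 t.2
      show 5 * (M * n) + ((i : ℕ) * B + t) < W
      omega
    · have h1 := PL4_lt r.2 j.2
      show 5 * (M * n) + n * B + ((r : ℕ) * n + j) < W
      omega
    · have h1 := PL4_lt i.2 t.2
      show 6 * (M * n) + n * B + ((i : ℕ) * B + t) < W
      omega
  have h1 := frac_inj (fun x => (⟨PL4_pos n M B x, hlt x⟩ : Fin W))
    (fun x y h => PL4_inj n M B (congrArg Fin.val h)) (fun v => p (PL4_e n M B v))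
  rw [frac_equiv (PL4_e n M B) p] at h1
  rw [← h1]
  congr 1
  funext w
  refine congrArg p ?_
  rw [PL4_dec, PL4_e_apply]
  refine congrArg (PL4_D n M B) (funext fun x => ?_)
  exact dif_pos (hlt x)

end

end A55
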