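import Pool.Agent.Lib_helper78.A55.PA
import Pool.Agent.Lib_helper50.A55.ProbIface
import Pool.Agent.Lib_helper78.A55.P_J3

/-!
# MP_a55cb8, block J5 (jL), by helper41
-/

open Matrix Finset


namespace A55


noncomputable section

/-- independence for fractions of `all copies` -/
theorem J5_frac_forall {Ω : Type*} [Fintype Ω] (M : ℕ) (P : Ω → Prop) :
    frac (fun g : Fin M → Ω => ∀ r, P (g r)) = frac P ^ M := by
  classical
  rw [frac_eq_av, frac_eq_av]
  have h := av_pi_prod (ι := Fin M) (B := fun _ => Ω)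
    (fun _ w => if P w then (1 : ℝ) else 0)
  rw [Finset.prod_const, Finset.card_univ, Fintype.card_fin] at h
  rw [← h]
  apply av_congr
  intro g
  by_cases hg : ∀ r, P (g r)
  · rw [if_pos hg]
    exact (Finset.prod_eq_one fun r _ => if_pos (hg r)).symm
  · rw [if_neg hg]
    push Not at hg
    obtain ⟨r, hr⟩ := hg
    exact (Finset.prod_eq_zero (Finset.mem_univ r) (if_neg hr)).symm

/-- fraction for one copy -/
theorem J5_frac_single {Ω : Type*} [Fintype Ω] [Nonempty Ω] (M : ℕ) (P : Ω → Prop) (r : Fin M) :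
    frac (fun g : Fin M → Ω => P (g r)) = frac P := by
  classical
  rw [frac_eq_av, frac_eq_av]
  exact av_pi_single (ι := Fin M) (B := fun _ => Ω) r (fun w => if P w then (1 : ℝ) else 0)

theorem J5_num1 (n M : ℕ) (δ : ℝ) (hδ : 0 < δ)
    (hM : 50 * ((Nat.log2 n : ℕ) + 2 + 1 / δ) ≤ (M : ℝ)) :
    (n : ℝ) * ((11 / 12 : ℝ) ^ M) ≤ δ / 4 := by
  have hδ' : 0 < 1 / δ := by positivity
  set k : ℕ := Nat.log2 n + 1 with hk
  have hn : (n : ℝ) ≤ 2 ^ k := by
    have : n < 2 ^ (Nat.log2 n + 1) := Nat.lt_log2_self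
    exact_mod_cast this.le
  have h1 : (11 / 12 : ℝ) ≤ Real.exp (-(1 / 12)) := by
    have := Real.add_one_le_exp (-(1 / 12 : ℝ))
    linarith
  have h2 : (11 / 12 : ℝ) ^ M ≤ Real.exp (-(k : ℝ) - 4 / δ) := by
    calc (11 / 12 : ℝ) ^ M ≤ Real.exp (-(1 / 12)) ^ M := by gcongr
      _ = Real.exp (M * (-(1 / 12))) := by rw [← Real.exp_nat_mul]
      _ ≤ Real.exp (-(k : ℝ) - 4 / δ) := by
        apply Real.exp_le_exp.2
        have h3 : (k : ℝ) = (Nat.log2 n : ℕ) + 1 := by rw [hk]; push_cast; ring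
        have h4 : 4 / δ = 4 * (1 / δ) := by ring
        rw [h3, h4]
        have h5 : (0 : ℝ) ≤ (Nat.log2 n : ℕ) := Nat.cast_nonneg _
        nlinarith
  have h3 : (2 : ℝ) ^ k ≤ Real.exp k := by
    calc (2 : ℝ) ^ k ≤ Real.exp 1 ^ k := by
          gcongr
          have := Real.add_one_le_exp (1 : ℝ)
          linarith
      _ = Real.exp k := by rw [← Real.exp_nat_mul, mul_one]
  have h4 : Real.exp (-(4 / δ)) ≤ δ / 4 := by
    rw [Real.exp_neg]
    have h5 : 4 / δ ≤ Real.exp (4 / δ) := by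
      have := Real.add_one_le_exp (4 / δ)
      linarith
    calc (Real.exp (4 / δ))⁻¹ ≤ (4 / δ)⁻¹ := by
          apply inv_anti₀ (by positivity) h5
      _ = δ / 4 := by rw [inv_div]
  calc (n : ℝ) * (11 / 12 : ℝ) ^ M ≤ Real.exp k * Real.exp (-(k : ℝ) - 4 / δ) := by
        gcongr
        exact hn.trans h3
    _ = Real.exp (-(4 / δ)) := by rw [← Real.exp_add]; congr 1; ring
    _ ≤ δ / 4 := h4

theorem J5_num2 (n M : ℕ) (δ : ℝ) (hδ : 0 < δ)
    (hM : 50 * ((Nat.log2 n : ℕ) + 2 + 1 / δ) ≤ (M : ℝ)) :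
    (n : ℝ) * (M * (2 * Real.exp (-((M : ℝ) ^ 2 / 2)))) ≤ δ / 4 := by
  have hδ' : 0 < 1 / δ := by positivity
  have h5 : (0 : ℝ) ≤ (Nat.log2 n : ℕ) := Nat.cast_nonneg _
  set k : ℕ := Nat.log2 n + 1 with hk
  have hn : (n : ℝ) ≤ 2 ^ k := by
    have : n < 2 ^ (Nat.log2 n + 1) := Nat.lt_log2_self
    exact_mod_cast this.le
  have h3 : (2 : ℝ) ^ k ≤ Real.exp k := by
    calc (2 : ℝ) ^ k ≤ Real.exp 1 ^ k := by
          gcongr
          have := Real.add_one_le_exp (1 : ℝ)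
          linarith
      _ = Real.exp k := by rw [← Real.exp_nat_mul, mul_one]
  have hM100 : (100 : ℝ) ≤ M := by nlinarith
  have hMe : (M : ℝ) * 2 ≤ Real.exp (M + 1) := by
    rw [Real.exp_add]
    have h6 := Real.add_one_le_exp (M : ℝ)
    have h7 := Real.add_one_le_exp (1 : ℝ)
    nlinarith [Real.exp_pos (M : ℝ), Real.exp_pos (1 : ℝ)]
  have h4 : Real.exp (-(4 / δ)) ≤ δ / 4 := by
    rw [Real.exp_neg]
    have h5 : 4 / δ ≤ Real.exp (4 / δ) := by
      have := Real.add_one_le_exp (4 / δ)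
      linarith
    calc (Real.exp (4 / δ))⁻¹ ≤ (4 / δ)⁻¹ := by
          apply inv_anti₀ (by positivity) h5
      _ = δ / 4 := by rw [inv_div]
  have h8 : (k : ℝ) = (Nat.log2 n : ℕ) + 1 := by rw [hk]; push_cast; ring
  have h9 : 4 / δ = 4 * (1 / δ) := by ring
  calc (n : ℝ) * (M * (2 * Real.exp (-((M : ℝ) ^ 2 / 2))))
      = (n : ℝ) * ((M * 2) * Real.exp (-((M : ℝ) ^ 2 / 2))) := by ring
    _ ≤ Real.exp k * (Real.exp (M + 1) * Real.exp (-((M : ℝ) ^ 2 / 2))) := by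
        gcongr
        exact hn.trans h3
    _ = Real.exp (k + (M + 1) + -((M : ℝ) ^ 2 / 2)) := by
        rw [Real.exp_add ((k : ℝ) + (M + 1)), Real.exp_add (k : ℝ)]; ring
    _ ≤ Real.exp (-(4 / δ)) := by
        apply Real.exp_le_exp.2
        rw [h8, h9]
        nlinarith
    _ ≤ δ / 4 := h4

/-- one row, lower bound -/
theorem J5_lower {d : ℕ} (M : ℕ) (v : Fin d → ℝ) :
    frac (fun g : Fin M → Fin d → Bool =>
      ¬ sq v / 2 ≤ ∑ r, (∑ j, v j * sgn (g r j)) ^ 2) ≤ (11 / 12) ^ M := by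
  calc frac (fun g : Fin M → Fin d → Bool =>
        ¬ sq v / 2 ≤ ∑ r, (∑ j, v j * sgn (g r j)) ^ 2)
      ≤ frac (fun g : Fin M → Fin d → Bool =>
          ∀ r, (∑ j, v j * sgn (g r j)) ^ 2 < sq v / 2) := by
        apply frac_mono
        intro g hg r
        refine lt_of_le_of_lt ?_ (not_le.1 hg)
        exact Finset.single_le_sum (f := fun r => (∑ j, v j * sgn (g r j)) ^ 2)
          (fun _ _ => sq_nonneg _) (Finset.mem_univ r)
    _ = frac (fun g : Fin d → Bool => (∑ j, v j * sgn (g j)) ^ 2 < sq v / 2) ^ M :=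
        J5_frac_forall M fun g : Fin d → Bool => (∑ j, v j * sgn (g j)) ^ 2 < sq v / 2
    _ ≤ (11 / 12) ^ M := by
        gcongr
        · exact frac_nonneg _
        · exact sgn_lower v

/-- one row, upper bound -/
theorem J5_upper {d : ℕ} (M : ℕ) (v : Fin d → ℝ) :
    frac (fun g : Fin M → Fin d → Bool =>
      ¬ ∑ r, (∑ j, v j * sgn (g r j)) ^ 2 ≤ (M : ℝ) ^ 3 * sq v) ≤
      M * (2 * Real.exp (-((M : ℝ) ^ 2 / 2))) := by
  calc frac (fun g : Fin M → Fin d → Bool =>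
        ¬ ∑ r, (∑ j, v j * sgn (g r j)) ^ 2 ≤ (M : ℝ) ^ 3 * sq v)
      ≤ frac (fun g : Fin M → Fin d → Bool => ∃ r ∈ (Finset.univ : Finset (Fin M)),
          (M : ℝ) ^ 2 * sq v < (∑ j, v j * sgn (g r j)) ^ 2) := by
        apply frac_mono
        intro g hg
        by_contra hc
        push Not at hc
        apply hg
        calc ∑ r, (∑ j, v j * sgn (g r j)) ^ 2 ≤ ∑ _r : Fin M, (M : ℝ) ^ 2 * sq v :=
              Finset.sum_le_sum fun r hr => hc r hr
          _ = (M : ℝ) ^ 3 * sq v := by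
              rw [Finset.sum_const, Finset.card_univ, Fintype.card_fin, nsmul_eq_mul]; ring
    _ ≤ ∑ r ∈ (Finset.univ : Finset (Fin M)), frac (fun g : Fin M → Fin d → Bool =>
          (M : ℝ) ^ 2 * sq v < (∑ j, v j * sgn (g r j)) ^ 2) :=
        frac_exists Finset.univ fun r (g : Fin M → Fin d → Bool) =>
          (M : ℝ) ^ 2 * sq v < (∑ j, v j * sgn (g r j)) ^ 2
    _ ≤ ∑ _r : Fin M, 2 * Real.exp (-((M : ℝ) ^ 2 / 2)) := by
        apply Finset.sum_le_sum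
        intro r _
        rw [J5_frac_single M (fun g : Fin d → Bool =>
          (M : ℝ) ^ 2 * sq v < (∑ j, v j * sgn (g j)) ^ 2) r]
        exact sgn_upper v M (Nat.cast_nonneg M)
    _ = M * (2 * Real.exp (-((M : ℝ) ^ 2 / 2))) := by
        rw [Finset.sum_const, Finset.card_univ, Fintype.card_fin, nsmul_eq_mul]

/-- J5 -/
theorem jL : JL := by
  intro n d M V δ hδ hδ1 hM
  calc frac (fun g : Fin M → Fin d → Bool =>
      ¬ ∀ i, sq (V i) / 2 ≤ ∑ r, (∑ j, V i j * sgn (g r j)) ^ 2 ∧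
        ∑ r, (∑ j, V i j * sgn (g r j)) ^ 2 ≤ (M : ℝ) ^ 3 * sq (V i))
      ≤ frac (fun g : Fin M → Fin d → Bool => ∃ i ∈ (Finset.univ : Finset (Fin n)),
          (¬ sq (V i) / 2 ≤ ∑ r, (∑ j, V i j * sgn (g r j)) ^ 2) ∨
          ¬ ∑ r, (∑ j, V i j * sgn (g r j)) ^ 2 ≤ (M : ℝ) ^ 3 * sq (V i)) := by
        apply frac_mono
        intro g hg
        rw [not_forall] at hg
        obtain ⟨i, hi⟩ := hg
        exact ⟨i, Finset.mem_univ i, not_and_or.1 hi⟩
    _ ≤ ∑ i ∈ (Finset.univ : Finset (Fin n)), frac (fun g : Fin M → Fin d → Bool =>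
          (¬ sq (V i) / 2 ≤ ∑ r, (∑ j, V i j * sgn (g r j)) ^ 2) ∨
          ¬ ∑ r, (∑ j, V i j * sgn (g r j)) ^ 2 ≤ (M : ℝ) ^ 3 * sq (V i)) :=
        frac_exists Finset.univ fun i (g : Fin M → Fin d → Bool) =>
          (¬ sq (V i) / 2 ≤ ∑ r, (∑ j, V i j * sgn (g r j)) ^ 2) ∨
          ¬ ∑ r, (∑ j, V i j * sgn (g r j)) ^ 2 ≤ (M : ℝ) ^ 3 * sq (V i)
    _ ≤ ∑ _i : Fin n, ((11 / 12) ^ M + M * (2 * Real.exp (-((M : ℝ) ^ 2 / 2)))) := by
        apply Finset.sum_le_sum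
        intro i _
        exact (frac_or _ _).trans (add_le_add (J5_lower M (V i)) (J5_upper M (V i)))
    _ = (n : ℝ) * ((11 / 12 : ℝ) ^ M) + (n : ℝ) * (M * (2 * Real.exp (-((M : ℝ) ^ 2 / 2)))) := by
        rw [Finset.sum_const, Finset.card_univ, Fintype.card_fin, nsmul_eq_mul, mul_add]
    _ ≤ δ / 4 + δ / 4 := add_le_add (J5_num1 n M δ hδ hM) (J5_num2 n M δ hδ hM)
    _ ≤ δ := by linarith

end

end A55
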