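import Pool.Agent.Lib_helper78.A55.LDefs

/-!
# MP_a55cb8, level layer, block L1 (helper74)
-/

open Matrix Finset

namespace A55

noncomputable section

/-- L1a -/
theorem expo_le (E : ℕ) (t : ℝ) : expo E t ≤ E := by
  unfold expo; exact Nat.findGreatest_le E

/-- L1b -/
theorem expo_spec (E : ℕ) (t : ℝ) (h : expo E t ≠ 0) : t ≤ (1 / 4) ^ expo E t := by
  classical
  have h1 : expo E t = Nat.findGreatest (fun e => t ≤ (1 / 4 : ℝ) ^ e) E := by
    unfold expo
    congr
  rw [h1] at h ⊢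
  exact Nat.findGreatest_of_ne_zero (P := fun e => t ≤ (1 / 4 : ℝ) ^ e) rfl h

/-- L1c -/
theorem expo_upper (E : ℕ) (t : ℝ) : (1 / 4 : ℝ) ^ expo E t ≤ 4 * t ∨ expo E t = E := by
  classical
  have h1 : expo E t = Nat.findGreatest (fun e => t ≤ (1 / 4 : ℝ) ^ e) E := by
    unfold expo
    congr
  rcases (expo_le E t).eq_or_lt with h | h
  · right; exact h
  · left
    have h2 : ¬ t ≤ (1 / 4 : ℝ) ^ (expo E t + 1) := by
      rw [h1] at h ⊢
      exact Nat.findGreatest_is_greatest (P := fun e => t ≤ (1 / 4 : ℝ) ^ e)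
        (Nat.lt_succ_self _) h
    rw [pow_succ] at h2
    linarith

/-- L1d: the specification determines the exponent. -/
theorem expo_unique (E : ℕ) (t : ℝ) (e : ℕ) (h1 : e ≤ E) (h2 : e = 0 ∨ t ≤ (1 / 4) ^ e)
    (h3 : e = E ∨ (1 / 4) ^ (e + 1) < t) : e = expo E t := by
  classical
  have h0 : expo E t = Nat.findGreatest (fun e => t ≤ (1 / 4 : ℝ) ^ e) E := by
    unfold expo
    congr
  rw [h0]
  symm
  rw [Nat.findGreatest_eq_iff]
  refine ⟨h1, fun h => ?_, fun m hm hmE => ?_⟩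
  · rcases h2 with h2 | h2
    · exact absurd h2 h
    · exact h2
  · rcases h3 with h3 | h3
    · omega
    · have h4 : (1 / 4 : ℝ) ^ m ≤ (1 / 4) ^ (e + 1) :=
        pow_le_pow_of_le_one (by norm_num) (by norm_num) hm
      intro h5
      linarith

end

end A55
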