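import Pool.Agent.Lib_helper78.A55.LF

/-!
# MP_a55cb8, level layer: final form of the sizes (helper78)

Parameters: `l` (with `n ≤ 2^l`), `M = l^6` copies, `u = l^10`, `δ = 1/l^5`, `E = l`, `B = 2 l`.
-/

open Matrix Finset

namespace A55

noncomputable section

/-- `min 1 (sg / lam)` -/
def etaL (sg lam : ℝ) : ℝ := min 1 (sg / lam)

/-- number of entries in row `i` -/
def rowP {n : ℕ} (P : Finset (Fin n × Fin n)) (i : Fin n) : ℕ := (P.filter fun p => p.1 = i).card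

/-- number of entries in column `c` -/
def colP {n : ℕ} (P : Finset (Fin n × Fin n)) (c : Fin n) : ℕ := (P.filter fun p => p.2 = c).card

/-- guaranteed bound of the rates of the rows of `A` at the ridge `lam` -/
abbrev pB {n : ℕ} (l : ℕ) (A : Matrix (Fin n) (Fin n) ℝ) (lam : ℝ) (i : Fin n) : ℝ :=
  pb (l ^ 6) l ((l : ℝ) ^ 10) A lam i

open Classical in
/-- the property of a row sample which bounds the number of pairs with the column sample of the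
next level (ridge `lam`) -/
def NextL {n : ℕ} (l a k : ℕ) (sg lam : ℝ) (A : Matrix (Fin n) (Fin n) ℝ)
    (P : Finset (Fin n × Fin n)) (s : Fin n → ℝ) : Prop :=
  ∑ p ∈ P.filter (fun p => s p.1 ≠ 0), pB l Aᵀ lam p.2 ≤
    (l : ℝ) ^ (245 + 2 * a) * ((k : ℝ) ^ 2 + etaL sg lam * P.card)

open Classical in
/-- Sizes of a level with ridge `l'`; `s` is the row sample of the level before, `l''` the ridge
of the level after, `h` the threshold between heavy and light coordinates. -/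
structure SizeG {n : ℕ} (l a k m1 m2 h : ℕ) (sg l' l'' : ℝ) (A : Matrix (Fin n) (Fin n) ℝ)
    (P : Finset (Fin n × Fin n)) (s : Fin n → ℝ) (D : LD n) : Prop where
  nR : ((univ.filter fun i => D.s i ≠ 0).card : ℝ) ≤ (l : ℝ) ^ (130 + a) * (k + etaL sg l' * n)
  nC : ((univ.filter fun c => D.t c ≠ 0).card : ℝ) ≤ (l : ℝ) ^ (130 + a) * (k + etaL sg l' * n)
  pairs : ((P.filter fun p => D.s p.1 ≠ 0 ∧ D.t p.2 ≠ 0).card : ℝ) ≤
    (l : ℝ) ^ (250 + 2 * a) * ((k : ℝ) ^ 2 + etaL sg l' * P.card)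
  pairs0 : ((P.filter fun p => s p.1 ≠ 0 ∧ D.t p.2 ≠ 0).card : ℝ) ≤
    (l : ℝ) ^ (250 + 2 * a) * ((k : ℝ) ^ 2 + etaL sg l' * P.card)
  rows : ∑ i ∈ univ.filter (fun i => D.s i ≠ 0), ((min (l * rowP P i) m1 : ℕ) : ℝ) ≤
    (l : ℝ) ^ (250 + 2 * a) * ((k : ℝ) ^ 2 + etaL sg l' * P.card)
  cols : ∑ c ∈ univ.filter (fun c => D.t c ≠ 0), ((min (l * colP P c) m2 : ℕ) : ℝ) ≤
    (l : ℝ) ^ (250 + 2 * a) * ((k : ℝ) ^ 2 + etaL sg l' * P.card)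
  next : NextL l a k sg l'' A P D.s
  heavyR : (l : ℝ) ^ 120 * (etaL sg l' + (1 / 4) ^ l) ≤ (1 / 4) ^ h →
    ((univ.filter fun i => D.s i ≠ 0 ∧ D.e i < h).card : ℝ) ≤ (l : ℝ) ^ (130 + a) * k
  heavyC : (l : ℝ) ^ 120 * (etaL sg l' + (1 / 4) ^ l) ≤ (1 / 4) ^ h →
    ((univ.filter fun c => D.t c ≠ 0 ∧ D.f c < h).card : ℝ) ≤ (l : ℝ) ^ (130 + a) * k
  light : ((P.filter fun p => D.s p.1 ≠ 0 ∧ D.t p.2 ≠ 0 ∧ (h ≤ D.e p.1 ∨ h ≤ D.f p.2)).card : ℝ)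
    ≤ (l : ℝ) ^ 10 * (1 / 4) ^ h * P.card
  lightR : ∑ i ∈ univ.filter (fun i => D.s i ≠ 0 ∧ h ≤ D.e i),
      ((min (l * rowP P i) m1 : ℕ) : ℝ) ≤ (l : ℝ) ^ 6 * (1 / 4) ^ h * P.card
  lightC : ∑ c ∈ univ.filter (fun c => D.t c ≠ 0 ∧ h ≤ D.f c),
      ((min (l * colP P c) m2 : ℕ) : ℝ) ≤ (l : ℝ) ^ 6 * (1 / 4) ^ h * P.card

section
variable {n : ℕ} {P : Finset (Fin n × Fin n)}

theorem sum_rowP : ∑ i, rowP P i = P.card := by
  unfold rowP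
  rw [← Finset.card_eq_sum_card_fiberwise (f := fun p : Fin n × Fin n => p.1) (t := univ)]
  intro p _
  simp

theorem sum_colP : ∑ i, colP P i = P.card := by
  unfold colP
  rw [← Finset.card_eq_sum_card_fiberwise (f := fun p : Fin n × Fin n => p.2) (t := univ)]
  intro p _
  simp

theorem sum_minR (l m : ℕ) : ∑ i, ((min (l * rowP P i) m : ℕ) : ℝ) ≤ l * P.card := by
  rw [← Nat.cast_sum, ← Nat.cast_mul, Nat.cast_le]
  calc ∑ i, min (l * rowP P i) m ≤ ∑ i, l * rowP P i :=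
        Finset.sum_le_sum fun i _ => min_le_left _ _
    _ = l * P.card := by rw [← Finset.mul_sum, sum_rowP]

theorem sum_minC (l m : ℕ) : ∑ i, ((min (l * colP P i) m : ℕ) : ℝ) ≤ l * P.card := by
  rw [← Nat.cast_sum, ← Nat.cast_mul, Nat.cast_le]
  calc ∑ i, min (l * colP P i) m ≤ ∑ i, l * colP P i :=
        Finset.sum_le_sum fun i _ => min_le_left _ _
    _ = l * P.card := by rw [← Finset.mul_sum, sum_colP]

theorem card_le_sq : P.card ≤ n ^ 2 := by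
  calc P.card ≤ (univ : Finset (Fin n × Fin n)).card := Finset.card_le_univ P
    _ = n ^ 2 := by simp [pow_two]

theorem cR_eq (l : ℕ) : cR (l ^ 6) ((l : ℝ) ^ 10) = 8 * (l : ℝ) ^ 118 := by
  unfold cR
  push_cast
  ring

/-- the bound `thR` times a number of entries -/
theorem thR_mul_le {l : ℕ} {sg lam X : ℝ} (h1 : sg / lam ≤ 1)
    (hX : (1 / 4 : ℝ) ^ l * X ≤ 1) :
    thR (l ^ 6) l ((l : ℝ) ^ 10) sg lam * X ≤ 8 * (l : ℝ) ^ 118 * (etaL sg lam * X) +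
      5 * (l : ℝ) ^ 18 := by
  have he : etaL sg lam = sg / lam := min_eq_right h1
  unfold thR
  rw [cR_eq, he]
  push_cast
  have h2 : 5 * (l : ℝ) ^ 18 * ((1 / 4 : ℝ) ^ l * X) ≤ 5 * (l : ℝ) ^ 18 * 1 :=
    mul_le_mul_of_nonneg_left hX (by positivity)
  calc _ = 8 * (l : ℝ) ^ 118 * (sg / lam * X) + 5 * (l : ℝ) ^ 18 * ((1 / 4 : ℝ) ^ l * X) := by ring
    _ ≤ _ := by linarith

theorem quarter_n {l : ℕ} (hn : n ≤ 2 ^ l) : (1 / 4 : ℝ) ^ l * n ≤ 1 := by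
  have h1 : (n : ℝ) ≤ 2 ^ l := by exact_mod_cast hn
  have h2 : (1 : ℝ) ≤ 2 ^ l := one_le_pow₀ (by norm_num)
  have h3 : (1 / 4 : ℝ) ^ l * (2 ^ l * 2 ^ l) = 1 := by
    rw [← mul_pow, ← mul_pow]; norm_num
  have h4 : (n : ℝ) ≤ 2 ^ l * 2 ^ l := by nlinarith
  calc (1 / 4 : ℝ) ^ l * n ≤ (1 / 4 : ℝ) ^ l * (2 ^ l * 2 ^ l) :=
        mul_le_mul_of_nonneg_left h4 (by positivity)
    _ = 1 := h3

theorem quarter_N {l : ℕ} (hn : n ≤ 2 ^ l) : (1 / 4 : ℝ) ^ l * P.card ≤ 1 := by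
  have h1 : (P.card : ℝ) ≤ 2 ^ l * 2 ^ l := by
    have : P.card ≤ 2 ^ l * 2 ^ l := by
      refine card_le_sq.trans ?_
      rw [pow_two]
      exact Nat.mul_le_mul hn hn
    exact_mod_cast this
  have h3 : (1 / 4 : ℝ) ^ l * (2 ^ l * 2 ^ l) = 1 := by
    rw [← mul_pow, ← mul_pow]; norm_num
  calc (1 / 4 : ℝ) ^ l * P.card ≤ (1 / 4 : ℝ) ^ l * (2 ^ l * 2 ^ l) :=
        mul_le_mul_of_nonneg_left h1 (by positivity)
    _ = 1 := h3

theorem LG_lin1 {U V V' W : ℝ} (h1 : V' ≤ V) (h2 : W ≤ U) (h5 : 0 ≤ V) :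
    8 * U + 8 * V' + 5 * W ≤ 13 * U + 13 * V := by linarith

theorem LG_lin2 {U V V' W Y Z : ℝ} (h1 : V' ≤ V) (h2 : W ≤ U) (h3 : Y ≤ V) (h4 : Z ≤ U)
    (h5 : 0 ≤ V) (h6 : 0 ≤ U) :
    64 * U + 64 * V' + 40 * W + 8 * Y + 5 * Z ≤ 117 * U + 117 * V := by linarith

/-- arithmetic of the dimensions -/
theorem LG_num1 {L T k x : ℝ} (hL : 1000 ≤ L) (hT : 1 ≤ T) (hk : 1 ≤ k) (hx : 0 ≤ x) :
    L ^ 5 * (8 * L ^ 118 * (T * k) + (8 * L ^ 118 * x + 5 * L ^ 18)) ≤ L ^ 130 * T * (k + x) := by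
  have hL0 : 0 < L := by linarith
  have h1 : L ^ 23 ≤ L ^ 123 := pow_le_pow_right₀ (by linarith) (by norm_num)
  have h2 : 13 * L ^ 123 ≤ L ^ 130 := by
    have h3 : L ^ 130 = L ^ 7 * L ^ 123 := by ring
    rw [h3]
    have h4 : L ^ 1 ≤ L ^ 7 := pow_le_pow_right₀ (by linarith) (by norm_num)
    refine mul_le_mul_of_nonneg_right ?_ (by positivity)
    rw [pow_one] at h4
    linarith
  have hTk : 1 ≤ T * k := by nlinarith
  have hTx : x ≤ T * x := by nlinarith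
  have h5 : L ^ 23 * 1 ≤ L ^ 123 * (T * k) := mul_le_mul h1 hTk (by norm_num) (by positivity)
  have h6 : L ^ 123 * x ≤ L ^ 123 * (T * x) := mul_le_mul_of_nonneg_left hTx (by positivity)
  have hT0 : 0 ≤ T := by linarith
  have h7 : 0 ≤ L ^ 123 * (T * x) := mul_nonneg (by positivity) (mul_nonneg hT0 hx)
  have hkx : 0 ≤ T * (k + x) := mul_nonneg hT0 (by linarith)
  calc L ^ 5 * (8 * L ^ 118 * (T * k) + (8 * L ^ 118 * x + 5 * L ^ 18))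
      = 8 * (L ^ 123 * (T * k)) + 8 * (L ^ 123 * x) + 5 * (L ^ 23 * 1) := by ring
    _ ≤ 13 * (L ^ 123 * (T * k)) + 13 * (L ^ 123 * (T * x)) := LG_lin1 h6 h5 h7
    _ = (13 * L ^ 123) * (T * (k + x)) := by ring
    _ ≤ L ^ 130 * (T * (k + x)) := mul_le_mul_of_nonneg_right h2 hkx
    _ = _ := by ring

/-- arithmetic of the numbers of pairs -/
theorem LG_num2 {L T k x y : ℝ} (hL : 1000 ≤ L) (hT : 1 ≤ T) (hk : 1 ≤ k) (hx : 0 ≤ x)
    (hy : 0 ≤ y) (hyx : y ≤ x) :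
    (8 * L ^ 118) ^ 2 * (T * k) ^ 2 + (8 * L ^ 118 * (8 * L ^ 118 * x + 5 * L ^ 18) +
      (8 * L ^ 118 * y + 5 * L ^ 18)) ≤ L ^ 240 * T ^ 2 * (k ^ 2 + x) := by
  have hL0 : 0 < L := by linarith
  have h1 : L ^ 136 ≤ L ^ 236 := pow_le_pow_right₀ (by linarith) (by norm_num)
  have h1b : L ^ 118 ≤ L ^ 236 := pow_le_pow_right₀ (by linarith) (by norm_num)
  have h1c : L ^ 18 ≤ L ^ 236 := pow_le_pow_right₀ (by linarith) (by norm_num)
  have h2 : 117 * L ^ 236 ≤ L ^ 240 := by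
    have h3 : L ^ 240 = L ^ 4 * L ^ 236 := by ring
    rw [h3]
    have h4 : L ^ 1 ≤ L ^ 4 := pow_le_pow_right₀ (by linarith) (by norm_num)
    refine mul_le_mul_of_nonneg_right ?_ (by positivity)
    rw [pow_one] at h4
    linarith
  have hT2 : 1 ≤ T ^ 2 := one_le_pow₀ hT
  have hk2 : 1 ≤ k ^ 2 := one_le_pow₀ hk
  have hTk : 1 ≤ T ^ 2 * k ^ 2 := by nlinarith
  have hTx : x ≤ T ^ 2 * x := by nlinarith
  have a1 : L ^ 236 * x ≤ L ^ 236 * (T ^ 2 * x) := mul_le_mul_of_nonneg_left hTx (by positivity)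
  have a2 : L ^ 136 * 1 ≤ L ^ 236 * (T ^ 2 * k ^ 2) := mul_le_mul h1 hTk (by norm_num)
    (by positivity)
  have a3 : L ^ 118 * y ≤ L ^ 236 * (T ^ 2 * x) := mul_le_mul h1b (hyx.trans hTx) hy
    (by positivity)
  have a4 : L ^ 18 * 1 ≤ L ^ 236 * (T ^ 2 * k ^ 2) := mul_le_mul h1c hTk (by norm_num)
    (by positivity)
  have a5 : 0 ≤ L ^ 236 * (T ^ 2 * x) :=
    mul_nonneg (by positivity) (mul_nonneg (sq_nonneg T) hx)
  have a6 : 0 ≤ L ^ 236 * (T ^ 2 * k ^ 2) :=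
    mul_nonneg (by positivity) (mul_nonneg (sq_nonneg T) (sq_nonneg k))
  have hkx : 0 ≤ T ^ 2 * (k ^ 2 + x) :=
    mul_nonneg (sq_nonneg T) (add_nonneg (sq_nonneg k) hx)
  calc _ = 64 * (L ^ 236 * (T ^ 2 * k ^ 2)) + 64 * (L ^ 236 * x) + 40 * (L ^ 136 * 1) +
        8 * (L ^ 118 * y) + 5 * (L ^ 18 * 1) := by ring
    _ ≤ 117 * (L ^ 236 * (T ^ 2 * k ^ 2)) + 117 * (L ^ 236 * (T ^ 2 * x)) :=
        LG_lin2 a1 a2 a3 a4 a5 a6
    _ = (117 * L ^ 236) * (T ^ 2 * (k ^ 2 + x)) := by ring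
    _ ≤ L ^ 240 * (T ^ 2 * (k ^ 2 + x)) := mul_le_mul_of_nonneg_right h2 hkx
    _ = _ := by ring

end

end

end A55
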