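import Pool.Agent.Lib_helper78.A55.LV

/-!
# MP_a55cb8, level layer: sizes (helper78)

`P` is the support of the input matrix, `a`, `b` are costs of rows and columns, `h` is the
threshold between heavy (`e < h`) and light (`h ≤ e`) coordinates.
-/

open Matrix Finset

namespace A55

noncomputable section

/-- the guaranteed upper bound of the rates of the rows of `A` at the ridge `l` -/
def pb {n : ℕ} (M E : ℕ) (u : ℝ) (A : Matrix (Fin n) (Fin n) ℝ) (l : ℝ) (i : Fin n) : ℝ :=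
  min 1 (8 * u ^ 10 * M ^ 3 * rho A l i + 5 * M ^ 3 * (1 / 4) ^ E)

open Classical in
/-- Size bounds for the data `D` of a level with ridge `l'`; `s` is the row sample of the level
before, `l''` the ridge of the level after; `X` bounds the sum of `pb Aᵀ l'` over the pairs with
first coordinate kept by `s`. -/
structure GoodSize {n : ℕ} (M E : ℕ) (u δ : ℝ) (A : Matrix (Fin n) (Fin n) ℝ) (l' l'' X : ℝ)
    (P : Finset (Fin n × Fin n)) (a b : Fin n → ℝ) (h : ℕ) (s : Fin n → ℝ) (D : LD n) :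
    Prop where
  nR : ((univ.filter fun i => D.s i ≠ 0).card : ℝ) ≤ 1 / δ * ∑ i, pb M E u A l' i
  nC : ((univ.filter fun c => D.t c ≠ 0).card : ℝ) ≤ 1 / δ * ∑ c, pb M E u Aᵀ l' c
  pairs : ((P.filter fun p => D.s p.1 ≠ 0 ∧ D.t p.2 ≠ 0).card : ℝ) ≤
    1 / δ ^ 2 * ∑ p ∈ P, pb M E u A l' p.1 * pb M E u Aᵀ l' p.2
  pairs0 : ((P.filter fun p => s p.1 ≠ 0 ∧ D.t p.2 ≠ 0).card : ℝ) ≤ 1 / δ * X
  carry : ∑ p ∈ P.filter (fun p => D.s p.1 ≠ 0), pb M E u Aᵀ l'' p.2 ≤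
    1 / δ * ∑ p ∈ P, pb M E u A l' p.1 * pb M E u Aᵀ l'' p.2
  aR : ∑ i ∈ univ.filter (fun i => D.s i ≠ 0), a i ≤ 1 / δ * ∑ i, pb M E u A l' i * a i
  bC : ∑ c ∈ univ.filter (fun c => D.t c ≠ 0), b c ≤ 1 / δ * ∑ c, pb M E u Aᵀ l' c * b c
  heavyR : ((univ.filter fun i => D.s i ≠ 0 ∧ D.e i < h).card : ℝ) ≤
    1 / δ * ∑ i ∈ univ.filter (fun i => (1 / 4) ^ h < pb M E u A l' i), pb M E u A l' i
  heavyC : ((univ.filter fun c => D.t c ≠ 0 ∧ D.f c < h).card : ℝ) ≤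
    1 / δ * ∑ c ∈ univ.filter (fun c => (1 / 4) ^ h < pb M E u Aᵀ l' c), pb M E u Aᵀ l' c
  light : ((P.filter fun p => D.s p.1 ≠ 0 ∧ D.t p.2 ≠ 0 ∧ (h ≤ D.e p.1 ∨ h ≤ D.f p.2)).card : ℝ)
    ≤ 1 / δ ^ 2 * ((1 / 4) ^ h * P.card)
  lightR : ∑ i ∈ univ.filter (fun i => D.s i ≠ 0 ∧ h ≤ D.e i), a i ≤
    1 / δ * ((1 / 4) ^ h * ∑ i, a i)
  lightC : ∑ c ∈ univ.filter (fun c => D.t c ≠ 0 ∧ h ≤ D.f c), b c ≤
    1 / δ * ((1 / 4) ^ h * ∑ c, b c)

section
open Classical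

/-- sizes for the column sample -/
def phiT {n : ℕ} (P : Finset (Fin n × Fin n)) (b : Fin n → ℝ) (h : ℕ) (s : Fin n → ℝ)
    (e f : Fin n → ℕ) (r : Fin 8) (c : Fin n) : ℝ :=
  ![1,
    ∑ p ∈ P.filter (fun p => p.2 = c), (if s p.1 ≠ 0 then (1 : ℝ) else 0),
    ∑ p ∈ P.filter (fun p => p.2 = c), (1 / 4 : ℝ) ^ e p.1,
    b c,
    if f c < h then 1 else 0,
    if h ≤ f c then b c else 0,
    ∑ p ∈ P.filter (fun p => p.2 = c),
      (if h ≤ e p.1 ∨ h ≤ f p.2 then (1 / 4 : ℝ) ^ e p.1 else 0),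
    0] r

/-- sizes for the row sample -/
def phiS {n : ℕ} (P : Finset (Fin n × Fin n)) (a : Fin n → ℝ) (h : ℕ) (q : Fin n → ℝ)
    (e f : Fin n → ℕ) (t : Fin n → ℝ) (r : Fin 8) (i : Fin n) : ℝ :=
  ![1,
    ∑ p ∈ P.filter (fun p => p.1 = i), (if t p.2 ≠ 0 then (1 : ℝ) else 0),
    ∑ p ∈ P.filter (fun p => p.1 = i), q p.2,
    a i,
    if e i < h then 1 else 0,
    if h ≤ e i then a i else 0,
    ∑ p ∈ P.filter (fun p => p.1 = i),
      (if t p.2 ≠ 0 ∧ (h ≤ e p.1 ∨ h ≤ f p.2) then (1 : ℝ) else 0),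
    0] r

theorem phiT_nonneg {n : ℕ} (P : Finset (Fin n × Fin n)) (b : Fin n → ℝ) (hb : ∀ c, 0 ≤ b c)
    (h : ℕ) (s : Fin n → ℝ) (e f : Fin n → ℕ) (r : Fin 8) (c : Fin n) :
    0 ≤ phiT P b h s e f r c := by
  unfold phiT
  fin_cases r
  · simp
  · simp only [Fin.mk_one, Matrix.cons_val_one, Matrix.cons_val_zero]
    exact Finset.sum_nonneg fun p _ => by positivity
  · exact Finset.sum_nonneg fun p _ => by positivity
  · exact hb c
  · show (0 : ℝ) ≤ if f c < h then 1 else 0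
    positivity
  · show (0 : ℝ) ≤ if h ≤ f c then b c else 0
    split
    · exact hb c
    · exact le_rfl
  · exact Finset.sum_nonneg fun p _ => by positivity
  · exact le_rfl

theorem phiS_nonneg {n : ℕ} (P : Finset (Fin n × Fin n)) (a : Fin n → ℝ) (ha : ∀ c, 0 ≤ a c)
    (h : ℕ) (q : Fin n → ℝ) (hq : ∀ c, 0 ≤ q c) (e f : Fin n → ℕ) (t : Fin n → ℝ) (r : Fin 8)
    (i : Fin n) : 0 ≤ phiS P a h q e f t r i := by
  unfold phiS
  fin_cases r
  · simp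
  · simp only [Fin.mk_one, Matrix.cons_val_one, Matrix.cons_val_zero]
    exact Finset.sum_nonneg fun p _ => by positivity
  · exact Finset.sum_nonneg fun p _ => hq _
  · exact ha i
  · show (0 : ℝ) ≤ if e i < h then 1 else 0
    positivity
  · show (0 : ℝ) ≤ if h ≤ e i then a i else 0
    split
    · exact ha i
    · exact le_rfl
  · exact Finset.sum_nonneg fun p _ => by positivity
  · exact le_rfl

theorem LS_fib2 {n : ℕ} (P : Finset (Fin n × Fin n)) (G : Fin n → ℝ) (F : Fin n × Fin n → ℝ) :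
    ∑ c, G c * ∑ p ∈ P.filter (fun p => p.2 = c), F p = ∑ p ∈ P, G p.2 * F p := by
  rw [← Finset.sum_fiberwise P (fun p => p.2) (fun p => G p.2 * F p)]
  refine Finset.sum_congr rfl fun c _ => ?_
  rw [Finset.mul_sum]
  refine Finset.sum_congr rfl fun p hp => ?_
  rw [(Finset.mem_filter.1 hp).2]

theorem LS_fib1 {n : ℕ} (P : Finset (Fin n × Fin n)) (G : Fin n → ℝ) (F : Fin n × Fin n → ℝ) :
    ∑ c, G c * ∑ p ∈ P.filter (fun p => p.1 = c), F p = ∑ p ∈ P, G p.1 * F p := by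
  rw [← Finset.sum_fiberwise P (fun p => p.1) (fun p => G p.1 * F p)]
  refine Finset.sum_congr rfl fun c _ => ?_
  rw [Finset.mul_sum]
  refine Finset.sum_congr rfl fun p hp => ?_
  rw [(Finset.mem_filter.1 hp).2]

/-- the sum over the kept coordinates -/
theorem LS_ite {n : ℕ} (t φ : Fin n → ℝ) :
    ∑ i, (if t i = 0 then 0 else φ i) = ∑ i, (if t i ≠ 0 then (1 : ℝ) else 0) * φ i := by
  refine Finset.sum_congr rfl fun i _ => ?_
  by_cases h : t i = 0 <;> simp [h]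

end

end

end A55
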