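import Pool.Agent.Lib_helper78.A55.LDefs
import Pool.Agent.Lib_helper78.A55.P_J5
import Pool.Agent.Lib_helper50.A55.Det

/-!
# MP_a55cb8, level layer, block L3 (helper74)
-/

open Matrix Finset

namespace A55

noncomputable section



theorem PL3_sq_add_le {n : Type*} [Fintype n] (x y : n → ℝ) :
    sq (x + y) ≤ 2 * sq x + 2 * sq y := by
  unfold sq
  rw [Finset.mul_sum, Finset.mul_sum, ← Finset.sum_add_distrib]
  refine Finset.sum_le_sum fun i _ => ?_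
  simp only [Pi.add_apply]
  nlinarith [sq_nonneg (x i - y i)]

theorem PL3_sq_sub_le {n : Type*} [Fintype n] (x y : n → ℝ) :
    sq (x - y) ≤ 2 * sq x + 2 * sq y := by
  unfold sq
  rw [Finset.mul_sum, Finset.mul_sum, ← Finset.sum_add_distrib]
  refine Finset.sum_le_sum fun i _ => ?_
  simp only [Pi.sub_apply]
  nlinarith [sq_nonneg (x i + y i)]

theorem PL3_sq_sub_le5 {n : Type*} [Fintype n] (x y : n → ℝ) :
    sq (x - y) ≤ 5 / 4 * sq x + 5 * sq y := by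
  unfold sq
  rw [Finset.mul_sum, Finset.mul_sum, ← Finset.sum_add_distrib]
  refine Finset.sum_le_sum fun i _ => ?_
  simp only [Pi.sub_apply]
  nlinarith [sq_nonneg (x i + 4 * y i)]

theorem PL3_sq_smul {n : Type*} [Fintype n] (r : ℝ) (x : n → ℝ) :
    sq (r • x) = r ^ 2 * sq x := by
  unfold sq
  rw [Finset.mul_sum]
  refine Finset.sum_congr rfl fun i _ => ?_
  simp only [Pi.smul_apply, smul_eq_mul]
  ring

theorem PL3_sq_single {n : Type*} [Fintype n] [DecidableEq n] (i : n) :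
    sq (Pi.single i (1 : ℝ)) = 1 := by
  unfold sq
  rw [Finset.sum_eq_single i]
  · simp
  · intro j _ hj
    simp [Pi.single_eq_of_ne hj]
  · simp

theorem PL3_M {n M : ℕ} {δ : ℝ} (hδ : 0 < δ) (hM : 50 * (Nat.log2 n + 2 + 1 / δ) ≤ (M : ℝ)) :
    (1 : ℝ) ≤ M := by
  refine le_trans ?_ hM
  have h1 : (0 : ℝ) ≤ Nat.log2 n := Nat.cast_nonneg _
  have h2 : 0 < 1 / δ := by positivity
  nlinarith

/-- the deterministic part -/
theorem PL3_det {n M E : ℕ} (A Q : Matrix (Fin n) (Fin n) ℝ) (w : Fin n → ℝ)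
    (l l' d δ u : ℝ) (f : Fin n → ℕ) (hl : 0 < l) (hQ : IsSol (gram A l) Q d) (hd : 0 ≤ d)
    (hδ : 0 < δ) (hM : 50 * (Nat.log2 n + 2 + 1 / δ) ≤ (M : ℝ)) (hu1 : 100 ≤ u)
    (hu : 16 * (M : ℝ) ^ 3 ≤ u ^ 2) (hdE : 100 * u ^ 10 * d ^ 2 ≤ (1 / 4) ^ E)
    (hf : ∀ c, f c ≤ E) (hS : Valid (diagonal w) A l) (hr : RatesOK Aᵀ l' (u ^ 10) f)
    (hK : KillOK (diagonal w) A l l' (u ^ 10) (u⁻¹ ^ 5))
    (g : Fin M → Fin n → Bool)
    (hg : ∀ c, sq ((l • (diagonal w * A * Q))ᵀ c) / 2 ≤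
        ∑ r, (∑ j, (l • (diagonal w * A * Q))ᵀ c j * sgn (g r j)) ^ 2 ∧
      ∑ r, (∑ j, (l • (diagonal w * A * Q))ᵀ c j * sgn (g r j)) ^ 2 ≤
        (M : ℝ) ^ 3 * sq ((l • (diagonal w * A * Q))ᵀ c)) :
    (∀ c, badOf (u⁻¹ ^ 3 / 4 * l) f (estN A Q l w g) c = false → f c ≠ 0 →
          sq (diagonal w *ᵥ (noiseM A l).col c) ≤ u⁻¹ ^ 3 * l * (1 / 4) ^ f c) ∧
        ∀ x : Fin n → ℝ, ∑ c ∈ univ.filter
            (fun c => badOf (u⁻¹ ^ 3 / 4 * l) f (estN A Q l w g) c = true), (Aᵀ *ᵥ x) c ^ 2 ≤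
          1 / 16 * (sq (Aᵀ *ᵥ x) + l' * sq x) := by
  have hM1 : (1 : ℝ) ≤ M := PL3_M hδ hM
  have hM3 : (1 : ℝ) ≤ (M : ℝ) ^ 3 := one_le_pow₀ hM1
  have hu0 : 0 < u := by linarith
  have hd2 : 0 ≤ d ^ 2 := by positivity
  set S : Matrix (Fin n) (Fin n) ℝ := diagonal w with hSdef
  set W := (gram A l)⁻¹ with hW
  have hest : ∀ c, estN A Q l w g c =
      ∑ r, (∑ j, (l • (S * A * Q))ᵀ c j * sgn (g r j)) ^ 2 := by
    intro c
    unfold estN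
    refine Finset.sum_congr rfl fun r _ => ?_
    congr 1
    have h1 : (fun p => w p * sgn (g r p)) = S *ᵥ (sv (g r)) := by
      ext p
      rw [hSdef, Matrix.mulVec_diagonal]
      rfl
    have h2 : (l • (S * A * Q))ᵀ = l • (Q * (Aᵀ * S)) := by
      rw [Matrix.transpose_smul, Matrix.transpose_mul, Matrix.transpose_mul, hQ.1, hSdef,
        Matrix.diagonal_transpose]
    rw [h1, Matrix.mulVec_mulVec, Matrix.mulVec_mulVec, h2]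
    rw [← Matrix.mul_assoc]
    show l * ((Q * Aᵀ * S) *ᵥ sv (g r)) c = ((l • (Q * Aᵀ * S)) *ᵥ sv (g r)) c
    rw [Matrix.smul_mulVec]
    rfl
  -- the error of the column
  have e1 : ∀ c, sq (l • ((S * A * (Q - W)) *ᵥ Pi.single c 1)) ≤ 2 * d ^ 2 * l := by
    intro c
    have := sol_err3 hl hd hS hQ (Pi.single c 1)
    rw [PL3_sq_single, mul_one] at this
    rw [PL3_sq_smul]
    have h2 := mul_le_mul_of_nonneg_left this hl.le
    nlinarith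
  have c1 : ∀ c, (l • (S * A * Q))ᵀ c = l • ((S * A * Q) *ᵥ Pi.single c 1) := by
    intro c
    ext j
    simp
  have c2 : ∀ c, S *ᵥ (noiseM A l).col c = l • ((S * A * W) *ᵥ Pi.single c 1) := by
    intro c
    have h1 : (noiseM A l).col c = l • ((A * W) *ᵥ Pi.single c 1) := by
      ext j
      rw [Matrix.mulVec_single_one]
      rfl
    rw [h1, Matrix.mulVec_smul, Matrix.mulVec_mulVec, ← Matrix.mul_assoc]
  have s1 : ∀ c, l • ((S * A * W) *ᵥ Pi.single c 1) =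
      l • ((S * A * Q) *ᵥ Pi.single c 1) - l • ((S * A * (Q - W)) *ᵥ Pi.single c 1) := by
    intro c
    rw [Matrix.mul_sub, Matrix.sub_mulVec, smul_sub]
    abel
  have s2 : ∀ c, l • ((S * A * Q) *ᵥ Pi.single c 1) =
      l • ((S * A * W) *ᵥ Pi.single c 1) + l • ((S * A * (Q - W)) *ᵥ Pi.single c 1) := by
    intro c
    rw [s1 c]; abel
  have t1 : ∀ c, sq (S *ᵥ (noiseM A l).col c) ≤
      5 / 4 * sq ((l • (S * A * Q))ᵀ c) + 5 * (2 * d ^ 2 * l) := by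
    intro c
    have h1 := PL3_sq_sub_le5 (l • ((S * A * Q) *ᵥ Pi.single c 1))
      (l • ((S * A * (Q - W)) *ᵥ Pi.single c 1))
    rw [← s1 c, ← c2 c, ← c1 c] at h1
    linarith [e1 c]
  have t2 : ∀ c, sq ((l • (S * A * Q))ᵀ c) ≤
      2 * sq (S *ᵥ (noiseM A l).col c) + 4 * d ^ 2 * l := by
    intro c
    have h1 := PL3_sq_add_le (l • ((S * A * W) *ᵥ Pi.single c 1))
      (l • ((S * A * (Q - W)) *ᵥ Pi.single c 1))
    rw [← s2 c, ← c2 c, ← c1 c] at h1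
    linarith [e1 c]
  have hv0 : 0 < u⁻¹ := inv_pos.2 hu0
  have hv8 : u⁻¹ ≤ 1 / 100 := by
    rw [inv_le_comm₀ hu0 (by norm_num)]; norm_num; exact hu1
  -- d² is small
  have hdc : ∀ c, 100 * d ^ 2 ≤ u⁻¹ ^ 10 * (1 / 4) ^ f c := by
    intro c
    have h1 : (1 / 4 : ℝ) ^ E ≤ (1 / 4) ^ f c :=
      pow_le_pow_of_le_one (by norm_num) (by norm_num) (hf c)
    have h2 : 100 * u ^ 10 * d ^ 2 ≤ (1 / 4) ^ f c := hdE.trans h1
    have h3 : u⁻¹ ^ 10 * (100 * u ^ 10 * d ^ 2) ≤ u⁻¹ ^ 10 * (1 / 4) ^ f c :=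
      mul_le_mul_of_nonneg_left h2 (by positivity)
    have h4 : u⁻¹ ^ 10 * (100 * u ^ 10 * d ^ 2) = 100 * d ^ 2 := by
      have : u⁻¹ ^ 10 * u ^ 10 = 1 := by
        rw [← mul_pow, inv_mul_cancel₀ hu0.ne', one_pow]
      calc u⁻¹ ^ 10 * (100 * u ^ 10 * d ^ 2) = (u⁻¹ ^ 10 * u ^ 10) * (100 * d ^ 2) := by ring
        _ = 100 * d ^ 2 := by rw [this, one_mul]
    linarith
  have p105 : u⁻¹ ^ 10 ≤ 1 / 100 * u⁻¹ ^ 5 := by
    have h1 : u⁻¹ ^ 10 = u⁻¹ ^ 5 * u⁻¹ ^ 5 := by ring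
    have h2 : u⁻¹ ^ 5 ≤ 1 / 100 := by
      calc u⁻¹ ^ 5 = u⁻¹ ^ 4 * u⁻¹ := by ring
        _ ≤ 1 * (1 / 100) := mul_le_mul (pow_le_one₀ hv0.le (by linarith)) hv8 hv0.le
            (by norm_num)
        _ = _ := one_mul _
    rw [h1]
    exact mul_le_mul_of_nonneg_right h2 (by positivity)
  have p53 : u⁻¹ ^ 5 ≤ 1 / 100 * u⁻¹ ^ 3 := by
    have h1 : u⁻¹ ^ 5 = u⁻¹ ^ 2 * u⁻¹ ^ 3 := by ring
    have h2 : u⁻¹ ^ 2 ≤ 1 / 100 := by
      calc u⁻¹ ^ 2 = u⁻¹ * u⁻¹ := by ring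
        _ ≤ 1 * (1 / 100) := mul_le_mul (by linarith) hv8 hv0.le
            (by norm_num)
        _ = _ := one_mul _
    rw [h1]
    exact mul_le_mul_of_nonneg_right h2 (by positivity)
  constructor
  · intro c hb hfc
    unfold badOf at hb
    rw [decide_eq_false_iff_not] at hb
    have hb2 : estN A Q l w g c ≤ u⁻¹ ^ 3 / 4 * l * (1 / 4) ^ f c := by
      by_contra hlt
      exact hb ⟨hfc, not_le.1 hlt⟩
    rw [hest] at hb2
    have h1 := (hg c).1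
    have h2 := t1 c
    have hp : 0 < (1 / 4 : ℝ) ^ f c := by positivity
    have h3 : l * (100 * d ^ 2) ≤ l * (u⁻¹ ^ 10 * (1 / 4) ^ f c) :=
      mul_le_mul_of_nonneg_left (hdc c) hl.le
    have hlp : 0 < l * (1 / 4 : ℝ) ^ f c := by positivity
    have h4 : u⁻¹ ^ 10 * (l * (1 / 4 : ℝ) ^ f c) ≤ 1 / 100 * u⁻¹ ^ 5 * (l * (1 / 4 : ℝ) ^ f c) :=
      mul_le_mul_of_nonneg_right p105 hlp.le
    have h5 : u⁻¹ ^ 5 * (l * (1 / 4 : ℝ) ^ f c) ≤ 1 / 100 * u⁻¹ ^ 3 * (l * (1 / 4 : ℝ) ^ f c) :=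
      mul_le_mul_of_nonneg_right p53 hlp.le
    have h6 : 0 ≤ u⁻¹ ^ 3 * (l * (1 / 4 : ℝ) ^ f c) := by positivity
    nlinarith
  · refine hK _ ?_
    intro c hc
    rw [Finset.mem_filter] at hc
    have hb := hc.2
    unfold badOf at hb
    rw [decide_eq_true_iff] at hb
    obtain ⟨hfc, hb⟩ := hb
    rw [hest] at hb
    have hrc : u ^ 10 / 4 * rho Aᵀ l' c ≤ (1 / 4) ^ f c := (hr c).resolve_left hfc
    refine ⟨?_, ?_⟩
    · refine lt_of_le_of_lt hrc ?_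
      exact pow_lt_one₀ (by norm_num) (by norm_num) hfc
    · have h1 := (hg c).2
      have h2 := t2 c
      have hp : 0 < (1 / 4 : ℝ) ^ f c := by positivity
      have hlp : 0 < l * (1 / 4 : ℝ) ^ f c := by positivity
      have h3 : l * (100 * d ^ 2) ≤ l * (u⁻¹ ^ 10 * (1 / 4) ^ f c) :=
        mul_le_mul_of_nonneg_left (hdc c) hl.le
      have h3b : u⁻¹ ^ 10 * (l * (1 / 4 : ℝ) ^ f c) ≤
          1 / 100 * u⁻¹ ^ 5 * (l * (1 / 4 : ℝ) ^ f c) :=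
        mul_le_mul_of_nonneg_right p105 hlp.le
      -- `u⁻³/4 l 4^(-f) < M³ (2 sq + 4 d² l) ≤ (u²/16) (2 sq + 4 d² l)`
      have hsq : 0 ≤ sq (S *ᵥ (noiseM A l).col c) := Finset.sum_nonneg fun _ _ => sq_nonneg _
      have h4 : (M : ℝ) ^ 3 * sq ((l • (S * A * Q))ᵀ c) ≤
          u ^ 2 / 16 * (2 * sq (S *ᵥ (noiseM A l).col c) + 4 * d ^ 2 * l) := by
        refine le_trans (mul_le_mul_of_nonneg_left h2 (by positivity)) ?_
        refine mul_le_mul_of_nonneg_right (by linarith) (by positivity)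
      have h5 : u⁻¹ ^ 3 / 4 * l * (1 / 4) ^ f c <
          u ^ 2 / 16 * (2 * sq (S *ᵥ (noiseM A l).col c) + 4 * d ^ 2 * l) := by linarith
      have h6 : u⁻¹ ^ 2 * (u⁻¹ ^ 3 / 4 * l * (1 / 4) ^ f c) <
          u⁻¹ ^ 2 * (u ^ 2 / 16 * (2 * sq (S *ᵥ (noiseM A l).col c) + 4 * d ^ 2 * l)) :=
        mul_lt_mul_of_pos_left h5 (by positivity)
      have h7 : u⁻¹ ^ 2 * (u ^ 2 / 16 * (2 * sq (S *ᵥ (noiseM A l).col c) + 4 * d ^ 2 * l)) =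
          1 / 16 * (2 * sq (S *ᵥ (noiseM A l).col c) + 4 * d ^ 2 * l) := by
        have : u⁻¹ ^ 2 * u ^ 2 = 1 := by
          rw [← mul_pow, inv_mul_cancel₀ hu0.ne', one_pow]
        calc _ = (u⁻¹ ^ 2 * u ^ 2) * (1 / 16 * (2 * sq (S *ᵥ (noiseM A l).col c) +
              4 * d ^ 2 * l)) := by ring
          _ = _ := by rw [this, one_mul]
      have h8 : u⁻¹ ^ 2 * (u⁻¹ ^ 3 / 4 * l * (1 / 4) ^ f c) =
          1 / 4 * (u⁻¹ ^ 5 * (l * (1 / 4) ^ f c)) := by ring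
      rw [h7, h8] at h6
      have h9 : u⁻¹ ^ 5 * l * (u ^ 10 / 4 * rho Aᵀ l' c) ≤ u⁻¹ ^ 5 * l * (1 / 4) ^ f c :=
        mul_le_mul_of_nonneg_left hrc (by positivity)
      have h10 : 0 < u⁻¹ ^ 5 * (l * (1 / 4 : ℝ) ^ f c) := by positivity
      nlinarith

/-- L3: the bad columns. -/
theorem bad_frac {n M E : ℕ} (A Q : Matrix (Fin n) (Fin n) ℝ) (w : Fin n → ℝ)
    (l l' d δ u : ℝ) (f : Fin n → ℕ) (hl : 0 < l) (hQ : IsSol (gram A l) Q d) (hd : 0 ≤ d)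
    (hδ : 0 < δ) (hδ1 : δ ≤ 1) (hM : 50 * (Nat.log2 n + 2 + 1 / δ) ≤ M) (hu1 : 100 ≤ u)
    (hu : 16 * (M : ℝ) ^ 3 ≤ u ^ 2) (hdE : 100 * u ^ 10 * d ^ 2 ≤ (1 / 4) ^ E)
    (hf : ∀ c, f c ≤ E) (hS : Valid (diagonal w) A l) (hr : RatesOK Aᵀ l' (u ^ 10) f)
    (hK : KillOK (diagonal w) A l l' (u ^ 10) (u⁻¹ ^ 5)) :
    frac (fun g : Fin M → Fin n → Bool =>
      ¬ ((∀ c, badOf (u⁻¹ ^ 3 / 4 * l) f (estN A Q l w g) c = false → f c ≠ 0 →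
          sq (diagonal w *ᵥ (noiseM A l).col c) ≤ u⁻¹ ^ 3 * l * (1 / 4) ^ f c) ∧
        ∀ x : Fin n → ℝ, ∑ c ∈ univ.filter
            (fun c => badOf (u⁻¹ ^ 3 / 4 * l) f (estN A Q l w g) c = true), (Aᵀ *ᵥ x) c ^ 2 ≤
          1 / 16 * (sq (Aᵀ *ᵥ x) + l' * sq x))) ≤ δ := by
  have j1 := jL n n M (l • (diagonal w * A * Q))ᵀ δ hδ hδ1 hM
  refine le_trans (frac_mono ?_) j1
  intro g hg hc
  exact hg (PL3_det A Q w l l' d δ u f hl hQ hd hδ hM hu1 hu hdE hf hS hr hK g hc)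

end

end A55
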