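import Pool.Agent.Lib_helper78.A55.PA

/-!
# MP_a55cb8: block B1 (bits), helper37
-/

open Matrix Finset

namespace A55

lemma B1_av_bool (f : Bool → ℝ) : av f = (f true + f false) / 2 := by
  unfold av
  rw [Fintype.sum_bool, Fintype.card_bool, Nat.cast_ofNat]

/-- B1 -/
theorem frac_hit {B : ℕ} (e : ℕ) (he : 2 * e ≤ B) :
    frac (fun w : Fin B → Bool => hit e w) = (1 / 4) ^ e := by
  classical
  rw [frac_eq_av]
  refine (av_congr fun w => ?_).trans ((av_pi_prod (B := fun _ : Fin B => Bool)
      (fun t b => if ((t : ℕ) < 2 * e → b = true) then (1 : ℝ) else 0)).trans ?_)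
  · by_cases hw : hit e w
    · rw [if_pos hw, Finset.prod_congr rfl fun t _ => if_pos (hw t), Finset.prod_const_one]
    · rw [if_neg hw]
      unfold hit at hw
      push Not at hw
      obtain ⟨t, ht, ht2⟩ := hw
      refine (Finset.prod_eq_zero (Finset.mem_univ t) ?_).symm
      exact if_neg fun h => ht2 (h ht)
  have h2 : ∀ t : Fin B, av (fun b : Bool => if ((t : ℕ) < 2 * e → b = true) then (1 : ℝ) else 0)
      = if (t : ℕ) < 2 * e then (1 / 2 : ℝ) else 1 := by
    intro t
    rw [B1_av_bool]
    by_cases ht : (t : ℕ) < 2 * e <;> simp [ht]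
  rw [Finset.prod_congr rfl fun t _ => h2 t, Finset.prod_ite, Finset.prod_const,
    Finset.prod_const_one, mul_one]
  have h3 : (univ.filter (fun t : Fin B => (t : ℕ) < 2 * e)).card = 2 * e := by
    rw [Fin.card_filter_val_lt]
    exact min_eq_right he
  rw [h3, pow_mul]
  norm_num

end A55
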