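import Pool.Agent.Lib_helper78.A55.PD
import Pool.Agent.Lib_helper50.A55.ProbIface
import Pool.Agent.Lib_helper78.A55.P_T7
import Pool.Agent.Lib_helper78.A55.P_B1
import Pool.Agent.Lib_helper78.A55.P_R

/-! A55P, block K1: kill_light. -/

open Matrix Finset

namespace A55

open PR

noncomputable section


theorem K1_fh_nonneg {B : ℕ} (e : ℕ) (w : Fin B → Bool) : 0 ≤ fh e w := by
  unfold fh
  split_ifs <;> positivity

theorem K1_fh_le {B : ℕ} (e : ℕ) (w : Fin B → Bool) : fh e w ≤ 4 ^ e := by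
  unfold fh
  split_ifs
  · exact le_rfl
  · positivity

theorem K1_fh_av {B : ℕ} (e : ℕ) (he : 2 * e ≤ B) : av (fh (B := B) e) = 1 := by
  classical
  have h1 : av (fh (B := B) e)
      = (4 : ℝ) ^ e * av (fun w : Fin B → Bool => if hit e w then (1 : ℝ) else 0) := by
    rw [← av_mul_left]
    apply av_congr
    intro w
    unfold fh
    split_ifs <;> simp
  have h2 := frac_eq_av (fun w : Fin B → Bool => hit e w)
  have h3 : av (fun w : Fin B → Bool => if hit e w then (1 : ℝ) else 0) = (1 / 4) ^ e := by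
    rw [← frac_hit e he, h2]
    apply av_congr
    intro w
    by_cases h : hit e w <;> simp [h]
  rw [h1, h3, ← mul_pow]
  norm_num

theorem K1_fh_zero {B : ℕ} (w : Fin B → Bool) : fh 0 w = 1 := by
  unfold fh
  rw [if_pos, pow_zero]
  intro t ht
  omega

theorem K1_exp {n : ℕ} {δ u : ℝ} (hδ : 0 < δ) (hδ1 : δ ≤ 1)
    (hu : 10 ^ 8 * (Nat.log2 n + 2) / δ ≤ u) : (n : ℝ) * Real.exp (-(u / 4)) ≤ δ := by
  have h1 : (n : ℝ) ≤ 2 ^ (Nat.log2 n + 1) := by
    have : n < 2 ^ (Nat.log2 n + 1) := Nat.lt_log2_self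
    exact_mod_cast this.le
  set m : ℝ := (Nat.log2 n : ℝ) with hm
  have hm0 : 0 ≤ m := Nat.cast_nonneg _
  have h2 : (2 : ℝ) ^ (Nat.log2 n + 1) ≤ Real.exp (m + 1) := by
    have h3 : (2 : ℝ) ≤ Real.exp 1 := by
      have := Real.add_one_le_exp (1 : ℝ)
      linarith
    calc (2 : ℝ) ^ (Nat.log2 n + 1) ≤ Real.exp 1 ^ (Nat.log2 n + 1) := by gcongr
      _ = Real.exp (m + 1) := by
        rw [← Real.exp_nat_mul]
        congr 1
        push_cast
        ring
  have h4 : 1 ≤ 1 / δ := by rw [le_div_iff₀ hδ]; linarith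
  have h5 : 10 ^ 8 * (m + 2) * (1 / δ) ≤ u := by
    have : 10 ^ 8 * (m + 2) / δ = 10 ^ 8 * (m + 2) * (1 / δ) := by ring
    rw [← this]
    exact hu
  have h6 : m + 1 + 1 / δ ≤ u / 4 := by
    have h7 : (m + 2) * 1 ≤ (m + 2) * (1 / δ) := by gcongr
    have h8 : 2 * (1 / δ) ≤ (m + 2) * (1 / δ) := by gcongr; linarith
    linarith
  have h9 : Real.exp (-(1 / δ)) ≤ δ := by
    have h10 : 1 / δ ≤ Real.exp (1 / δ) := by
      have := Real.add_one_le_exp (1 / δ)
      linarith
    rw [Real.exp_neg]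
    rw [inv_le_comm₀ (Real.exp_pos _) hδ]
    rw [one_div] at h10 ⊢
    exact h10
  calc (n : ℝ) * Real.exp (-(u / 4)) ≤ Real.exp (m + 1) * Real.exp (-(u / 4)) := by
        gcongr
        exact h1.trans h2
    _ = Real.exp (m + 1 - u / 4) := by rw [← Real.exp_add]; congr 1
    _ ≤ Real.exp (-(1 / δ)) := by
        apply Real.exp_le_exp.mpr
        linarith
    _ ≤ δ := h9

/-- K1: with small exceptions, a column with large sampled noise is hit by a heavy row. -/
theorem kill_light {n B : ℕ} (A : Matrix (Fin n) (Fin n) ℝ) (l l' δ u : ℝ) (e : Fin n → ℕ)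
    (hl' : 0 < l') (hll : l' ≤ l) (hδ : 0 < δ) (hδ1 : δ ≤ 1)
    (hu : 10 ^ 8 * (Nat.log2 n + 2) / δ ≤ u) (hr : RatesOK A l (u ^ 10) e)
    (hB : ∀ i, 2 * e i ≤ B) :
    frac (fun w : Fin n → Fin B → Bool =>
      ¬ ∀ c, u⁻¹ ^ 5 * l * (u ^ 10 / 4 * rho Aᵀ l' c) <
          ∑ i, fh (e i) (w i) * noiseM A l i c ^ 2 →
        ∃ i, e i ≠ 0 ∧ hit (e i) (w i) ∧
          l * (u ^ 10 / 4 * rho Aᵀ l' c) < u ^ 6 * (4 ^ e i * noiseM A l i c ^ 2)) ≤ δ := by
  classical
  have hl : 0 < l := hl'.trans_le hll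
  have hu1 : (10 : ℝ) ^ 8 ≤ u := by
    refine le_trans ?_ hu
    rw [le_div_iff₀ hδ]
    have : (0 : ℝ) ≤ (Nat.log2 n : ℝ) := Nat.cast_nonneg _
    nlinarith
  have hu0 : 0 < u := lt_of_lt_of_le (by norm_num) hu1
  have hu5 : (32 : ℝ) ≤ u ^ 5 := by
    calc (32 : ℝ) = 2 ^ 5 := by norm_num
      _ ≤ u ^ 5 := by gcongr; linarith
  set G := noiseM A l with hG
  set τ : Fin n → ℝ := fun c => u ^ 10 / 4 * rho Aᵀ l' c with hτ
  -- the mass of a column
  have hcol : ∀ c, ∑ i, G i c ^ 2 ≤ l * rho Aᵀ l' c := by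
    intro c
    have h1 := sq_noise_col_le A hl c
    have h2 : sq ((noiseM A l).col c) = ∑ i, G i c ^ 2 := rfl
    rw [h2] at h1
    exact h1.trans (mul_le_mul_of_nonneg_left (rho_anti Aᵀ hl' hll c) hl.le)
  have hτ0 : ∀ c, 0 ≤ τ c := fun c =>
    mul_nonneg (by positivity) (rho_nonneg Aᵀ hl' c)
  have hcol' : ∀ c, ∑ i, G i c ^ 2 ≤ 4 * (u⁻¹ ^ 10 * (l * τ c)) := by
    intro c
    refine (hcol c).trans (le_of_eq ?_)
    simp only [hτ]
    field_simp
  -- the light rows
  let v : Fin n → Fin n → ℝ := fun c i =>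
    if e i ≠ 0 ∧ u ^ 6 * (4 ^ e i * G i c ^ 2) ≤ l * τ c then G i c ^ 2 else 0
  have hv0 : ∀ c i, 0 ≤ v c i := by
    intro c i
    simp only [v]
    split_ifs <;> positivity
  have hvG : ∀ c i, v c i ≤ G i c ^ 2 := by
    intro c i
    simp only [v]
    split_ifs
    · exact le_rfl
    · positivity
  let P : Fin n → (Fin n → Fin B → Bool) → Prop := fun c w =>
    0 < τ c ∧ u⁻¹ ^ 5 * (l * τ c) / 2 ≤ ∑ i, v c i * fh (e i) (w i)
  -- one column
  have hP : ∀ c, frac (P c) ≤ Real.exp (-(u / 4)) := by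
    intro c
    rcases (hτ0 c).eq_or_lt with h0 | h0
    · have h1 : frac (P c) ≤ frac (fun _ : Fin n → Fin B → Bool => False) :=
        frac_mono fun w hw => by
          have := hw.1
          rw [← h0] at this
          exact lt_irrefl _ this
      rw [frac_false] at h1
      exact h1.trans (Real.exp_pos _).le
    · have hlt : 0 < l * τ c := mul_pos hl h0
      have h1 := chern (fun _ : Fin n => (Fin B → Bool)) (fun i => fh (e i))
        (fun i ω => K1_fh_nonneg _ _) (fun i => K1_fh_av _ (hB i)) (v c) (hv0 c)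
        (l * τ c / u ^ 6) (u⁻¹ ^ 5 * (l * τ c) / 2) (by positivity)
        (by
          intro i ω
          simp only [v]
          split_ifs with hc
          · rw [le_div_iff₀ (by positivity)]
            have h2 := K1_fh_le (e i) ω
            calc G i c ^ 2 * fh (e i) ω * u ^ 6 ≤ G i c ^ 2 * 4 ^ e i * u ^ 6 := by gcongr
              _ = u ^ 6 * (4 ^ e i * G i c ^ 2) := by ring
              _ ≤ l * τ c := hc.2
          · rw [zero_mul]
            positivity)
        (by
          have h2 : ∑ i, v c i ≤ 4 * (u⁻¹ ^ 10 * (l * τ c)) :=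
            (Finset.sum_le_sum fun i _ => hvG c i).trans (hcol' c)
          have h3 : 32 * u⁻¹ ^ 10 ≤ u⁻¹ ^ 5 := by
            have h4 : u⁻¹ ^ 10 = u⁻¹ ^ 5 * u⁻¹ ^ 5 := by ring
            rw [h4, ← mul_assoc]
            have h5 : 32 * u⁻¹ ^ 5 ≤ 1 := by
              rw [inv_pow, ← div_eq_mul_inv, div_le_one (by positivity)]
              exact hu5
            calc 32 * u⁻¹ ^ 5 * u⁻¹ ^ 5 ≤ 1 * u⁻¹ ^ 5 := by gcongr
              _ = u⁻¹ ^ 5 := one_mul _
          nlinarith)
      have h2 : u⁻¹ ^ 5 * (l * τ c) / 2 / (2 * (l * τ c / u ^ 6)) = u / 4 := by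
        field_simp
        ring
      rw [h2] at h1
      exact (frac_mono fun w hw => hw.2).trans h1
  -- the union
  calc frac (fun w : Fin n → Fin B → Bool =>
      ¬ ∀ c, u⁻¹ ^ 5 * l * (u ^ 10 / 4 * rho Aᵀ l' c) <
          ∑ i, fh (e i) (w i) * noiseM A l i c ^ 2 →
        ∃ i, e i ≠ 0 ∧ hit (e i) (w i) ∧
          l * (u ^ 10 / 4 * rho Aᵀ l' c) < u ^ 6 * (4 ^ e i * noiseM A l i c ^ 2))
      ≤ frac (fun w => ∃ c ∈ univ, P c w) := by
        apply frac_mono
        intro w hw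
        push Not at hw
        obtain ⟨c, hc1, hc2⟩ := hw
        refine ⟨c, mem_univ _, ?_⟩
        change u⁻¹ ^ 5 * l * τ c < ∑ i, fh (e i) (w i) * G i c ^ 2 at hc1
        change ∀ i, e i ≠ 0 → hit (e i) (w i) → u ^ 6 * (4 ^ e i * G i c ^ 2) ≤ l * τ c at hc2
        -- splitting
        have hsplit : ∀ i, fh (e i) (w i) * G i c ^ 2 ≤ G i c ^ 2 + v c i * fh (e i) (w i) := by
          intro i
          by_cases he : e i = 0
          · have h1 : fh (e i) (w i) = 1 := by rw [he]; exact K1_fh_zero _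
            rw [h1, one_mul]
            have := hv0 c i
            linarith
          · by_cases hh : hit (e i) (w i)
            · have h1 : v c i = G i c ^ 2 := by
                simp only [v]
                rw [if_pos ⟨he, hc2 i he hh⟩]
              rw [h1, mul_comm]
              have : 0 ≤ G i c ^ 2 := sq_nonneg _
              linarith
            · have h1 : fh (e i) (w i) = 0 := by
                unfold fh
                rw [if_neg hh]
              rw [h1]
              have : 0 ≤ G i c ^ 2 := sq_nonneg _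
              linarith
        have hsum : ∑ i, fh (e i) (w i) * G i c ^ 2
            ≤ ∑ i, G i c ^ 2 + ∑ i, v c i * fh (e i) (w i) := by
          rw [← Finset.sum_add_distrib]
          exact Finset.sum_le_sum fun i _ => hsplit i
        have hG0 : ∀ i, 0 ≤ G i c ^ 2 := fun i => sq_nonneg _
        have hτc : 0 < τ c := by
          rcases (hτ0 c).eq_or_lt with h0 | h0
          · exfalso
            have h1 := hcol' c
            rw [← h0, mul_zero, mul_zero, mul_zero] at h1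
            have h2 : ∀ i, G i c ^ 2 = 0 := by
              intro i
              have h3 := Finset.single_le_sum (f := fun i => G i c ^ 2) (fun i _ => hG0 i)
                (Finset.mem_univ i)
              exact le_antisymm (h3.trans h1) (hG0 i)
            rw [← h0, mul_zero] at hc1
            simp only [h2, mul_zero, Finset.sum_const_zero] at hc1
            exact lt_irrefl _ hc1
          · exact h0
        refine ⟨hτc, ?_⟩
        have h1 := hcol' c
        have h3 : 8 * u⁻¹ ^ 10 ≤ u⁻¹ ^ 5 := by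
          have h4 : u⁻¹ ^ 10 = u⁻¹ ^ 5 * u⁻¹ ^ 5 := by ring
          rw [h4, ← mul_assoc]
          have h5 : 8 * u⁻¹ ^ 5 ≤ 1 := by
            rw [inv_pow, ← div_eq_mul_inv, div_le_one (by positivity)]
            linarith
          calc 8 * u⁻¹ ^ 5 * u⁻¹ ^ 5 ≤ 1 * u⁻¹ ^ 5 := by gcongr
            _ = u⁻¹ ^ 5 := one_mul _
        have hlt : 0 < l * τ c := mul_pos hl hτc
        have h6 : 8 * u⁻¹ ^ 10 * (l * τ c) ≤ u⁻¹ ^ 5 * (l * τ c) :=
          mul_le_mul_of_nonneg_right h3 hlt.le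
        have h7 : u⁻¹ ^ 5 * l * τ c = u⁻¹ ^ 5 * (l * τ c) := by ring
        rw [h7] at hc1
        linarith
    _ ≤ ∑ c ∈ univ, frac (P c) := frac_exists _ _
    _ ≤ ∑ c ∈ (univ : Finset (Fin n)), Real.exp (-(u / 4)) := Finset.sum_le_sum fun c _ => hP c
    _ = (n : ℝ) * Real.exp (-(u / 4)) := by
        rw [Finset.sum_const, Finset.card_univ, Fintype.card_fin, nsmul_eq_mul]
    _ ≤ δ := K1_exp hδ hδ1 hu

end

end A55
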