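import Pool.Agent.Lib_helper78.A55.PD

open Matrix Finset

namespace A55

noncomputable section

theorem PT3_sq_nonneg {n : ℕ} (x : Fin n → ℝ) : 0 ≤ sq x :=
  Finset.sum_nonneg fun _ _ => sq_nonneg _

theorem PT3_sq_zero {n : ℕ} : sq (0 : Fin n → ℝ) = 0 := by
  unfold sq; simp

theorem PT3_qf_zero {n : ℕ} (X : Matrix (Fin n) (Fin n) ℝ) : qf X (0 : Fin n → ℝ) = 0 := by
  unfold qf; simp

theorem PT3_sq_eq_zero {n : ℕ} {x : Fin n → ℝ} (h : sq x = 0) : x = 0 := by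
  unfold sq at h
  rw [Finset.sum_eq_zero_iff_of_nonneg fun _ _ => sq_nonneg _] at h
  funext i
  have := h i (Finset.mem_univ i)
  exact pow_eq_zero_iff (two_ne_zero) |>.1 this

theorem PT3_sq_smul {n : ℕ} (c : ℝ) (x : Fin n → ℝ) : sq (c • x) = c ^ 2 * sq x := by
  unfold sq
  rw [Finset.mul_sum]
  refine Finset.sum_congr rfl fun i _ => ?_
  rw [Pi.smul_apply, smul_eq_mul, mul_pow]

theorem PT3_qf_smul {n : ℕ} (X : Matrix (Fin n) (Fin n) ℝ) (c : ℝ) (x : Fin n → ℝ) :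
    qf X (c • x) = c ^ 2 * qf X x := by
  unfold qf
  rw [Matrix.mulVec_smul, smul_dotProduct, dotProduct_smul, smul_eq_mul, smul_eq_mul]
  ring

theorem PT3_sq_dot {n : ℕ} (x : Fin n → ℝ) : sq x = x ⬝ᵥ x := by
  unfold sq dotProduct
  exact Finset.sum_congr rfl fun i _ => pow_two (x i)

theorem PT3_bdd {n : ℕ} (X : Matrix (Fin n) (Fin n) ℝ) :
    BddAbove {r | ∃ x : Fin n → ℝ, sq x ≤ 1 ∧ r = |qf X x|} := by
  refine ⟨∑ i, ∑ j, |X i j|, ?_⟩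
  rintro r ⟨x, hx, rfl⟩
  have h1 : ∀ i, |x i| ≤ 1 := fun i => by
    have h2 : x i ^ 2 ≤ 1 := by
      refine le_trans ?_ hx
      exact Finset.single_le_sum (f := fun i => x i ^ 2) (fun _ _ => sq_nonneg _)
        (Finset.mem_univ i)
    rw [← sq_abs] at h2
    nlinarith [abs_nonneg (x i)]
  have h3 : qf X x = ∑ i, ∑ j, x i * (X i j * x j) := by
    unfold qf dotProduct Matrix.mulVec dotProduct
    exact Finset.sum_congr rfl fun i _ => Finset.mul_sum _ _ _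
  rw [h3]
  refine (Finset.abs_sum_le_sum_abs _ _).trans (Finset.sum_le_sum fun i _ => ?_)
  refine (Finset.abs_sum_le_sum_abs _ _).trans (Finset.sum_le_sum fun j _ => ?_)
  rw [abs_mul, abs_mul]
  calc |x i| * (|X i j| * |x j|) ≤ 1 * (|X i j| * 1) :=
        mul_le_mul (h1 i) (mul_le_mul_of_nonneg_left (h1 j) (abs_nonneg _))
          (by positivity) zero_le_one
    _ = |X i j| := by ring

theorem PT3_le {n : ℕ} (X : Matrix (Fin n) (Fin n) ℝ) {x : Fin n → ℝ} (hx : sq x ≤ 1) :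
    |qf X x| ≤ qn X := le_csSup (PT3_bdd X) ⟨x, hx, rfl⟩

/-- T3a -/
theorem abs_qf_le_qn {n : ℕ} (X : Matrix (Fin n) (Fin n) ℝ) (x : Fin n → ℝ) :
    |qf X x| ≤ qn X * sq x := by
  rcases (PT3_sq_nonneg x).eq_or_lt with h | h
  · rw [PT3_sq_eq_zero h.symm, PT3_qf_zero, PT3_sq_zero, abs_zero, mul_zero]
  · have hs : (Real.sqrt (sq x))⁻¹ ^ 2 = (sq x)⁻¹ := by
      rw [inv_pow, Real.sq_sqrt h.le]
    have h1 : |qf X ((Real.sqrt (sq x))⁻¹ • x)| ≤ qn X := by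
      refine PT3_le X ?_
      rw [PT3_sq_smul, hs, inv_mul_cancel₀ h.ne']
    rw [PT3_qf_smul, hs, abs_mul, abs_of_pos (inv_pos.2 h), inv_mul_eq_div, div_le_iff₀ h] at h1
    exact h1

/-- T3b -/
theorem qn_le {n : ℕ} (X : Matrix (Fin n) (Fin n) ℝ) {c : ℝ} (hc : 0 ≤ c)
    (h : ∀ x, |qf X x| ≤ c * sq x) : qn X ≤ c := by
  refine csSup_le ⟨|qf X 0|, 0, by rw [PT3_sq_zero]; exact zero_le_one, rfl⟩ ?_
  rintro r ⟨x, hx, rfl⟩
  exact (h x).trans (mul_le_of_le_one_right hc hx)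

/-- T3c -/
theorem qn_nonneg {n : ℕ} (X : Matrix (Fin n) (Fin n) ℝ) : 0 ≤ qn X := by
  have h : |qf X 0| ≤ qn X := PT3_le X (by rw [PT3_sq_zero]; exact zero_le_one)
  exact (abs_nonneg _).trans h

theorem PT3_qf_sq {n : ℕ} (Y : Matrix (Fin n) (Fin n) ℝ) (hY : Yᵀ = Y) (x : Fin n → ℝ) :
    qf (Y * Y) x = sq (Y *ᵥ x) := by
  rw [PT3_sq_dot]
  unfold qf
  rw [← Matrix.mulVec_mulVec, Matrix.dotProduct_mulVec, ← Matrix.mulVec_transpose, hY]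

theorem PT3_cs {n : ℕ} (Y : Matrix (Fin n) (Fin n) ℝ) (x : Fin n → ℝ) :
    qf Y x ^ 2 ≤ sq x * sq (Y *ᵥ x) := by
  unfold qf sq dotProduct
  exact Finset.sum_mul_sq_le_sq_mul_sq _ _ _

theorem PT3_ind {n : ℕ} (X : Matrix (Fin n) (Fin n) ℝ) (hX : Xᵀ = X) (s : ℕ) {x : Fin n → ℝ}
    (hx : sq x ≤ 1) : |qf X x| ^ (2 ^ s) ≤ |qf (X ^ (2 ^ s)) x| := by
  induction s with
  | zero => simp
  | succ s ih =>
    have hY : (X ^ (2 ^ s))ᵀ = X ^ (2 ^ s) := by rw [Matrix.transpose_pow, hX]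
    have e : X ^ (2 ^ (s + 1)) = X ^ (2 ^ s) * X ^ (2 ^ s) := by
      rw [pow_succ 2 s, mul_two, pow_add]
    rw [e, PT3_qf_sq _ hY, abs_of_nonneg (PT3_sq_nonneg _), pow_succ 2 s, pow_mul]
    calc (|qf X x| ^ (2 ^ s)) ^ 2 ≤ |qf (X ^ (2 ^ s)) x| ^ 2 :=
          pow_le_pow_left₀ (by positivity) ih 2
      _ = qf (X ^ (2 ^ s)) x ^ 2 := sq_abs _
      _ ≤ sq x * sq (X ^ (2 ^ s) *ᵥ x) := PT3_cs _ _
      _ ≤ sq (X ^ (2 ^ s) *ᵥ x) := mul_le_of_le_one_left (PT3_sq_nonneg _) hx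

theorem PT3_tr {n : ℕ} (Y : Matrix (Fin n) (Fin n) ℝ) (hY : Yᵀ = Y) {x : Fin n → ℝ}
    (hx : sq x ≤ 1) : sq (Y *ᵥ x) ≤ (Y * Y).trace := by
  have h1 : (Y * Y).trace = ∑ i, ∑ j, Y i j ^ 2 := by
    unfold Matrix.trace
    refine Finset.sum_congr rfl fun i _ => ?_
    rw [Matrix.diag_apply, Matrix.mul_apply]
    refine Finset.sum_congr rfl fun j _ => ?_
    have : Y j i = Y i j := by
      conv_lhs => rw [← hY]
      rfl
    rw [this]; ring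
  rw [h1]
  unfold sq
  refine Finset.sum_le_sum fun i _ => ?_
  have h2 : (Y *ᵥ x) i ^ 2 ≤ (∑ j, Y i j ^ 2) * (∑ j, x j ^ 2) := by
    unfold Matrix.mulVec dotProduct
    exact Finset.sum_mul_sq_le_sq_mul_sq _ _ _
  exact h2.trans (mul_le_of_le_one_right (Finset.sum_nonneg fun _ _ => sq_nonneg _) hx)

/-- T3d -/
theorem qn_pow_le_trace {n : ℕ} (X : Matrix (Fin n) (Fin n) ℝ) (hX : Xᵀ = X) (s : ℕ)
    (hs : 1 ≤ s) : qn X ^ (2 ^ s) ≤ (X ^ (2 ^ s)).trace := by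
  obtain ⟨t, rfl⟩ : ∃ t, s = t + 1 := ⟨s - 1, by omega⟩
  have hY : (X ^ (2 ^ t))ᵀ = X ^ (2 ^ t) := by rw [Matrix.transpose_pow, hX]
  have e : X ^ (2 ^ (t + 1)) = X ^ (2 ^ t) * X ^ (2 ^ t) := by
    rw [pow_succ 2 t, mul_two, pow_add]
  have key : ∀ x : Fin n → ℝ, sq x ≤ 1 → |qf X x| ^ (2 ^ (t + 1)) ≤ (X ^ (2 ^ (t + 1))).trace := by
    intro x hx
    refine (PT3_ind X hX (t + 1) hx).trans ?_
    rw [e, PT3_qf_sq _ hY, abs_of_nonneg (PT3_sq_nonneg _)]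
    exact PT3_tr _ hY hx
  have hT : 0 ≤ (X ^ (2 ^ (t + 1))).trace := by
    refine le_trans ?_ (key 0 (by rw [PT3_sq_zero]; exact zero_le_one))
    positivity
  have hne : 2 ^ (t + 1) ≠ 0 := by positivity
  set c : ℝ := (X ^ (2 ^ (t + 1))).trace ^ (((2 ^ (t + 1) : ℕ) : ℝ)⁻¹) with hc
  have hc0 : 0 ≤ c := Real.rpow_nonneg hT _
  have hcp : c ^ (2 ^ (t + 1)) = (X ^ (2 ^ (t + 1))).trace := Real.rpow_inv_natCast_pow hT hne
  have hq : qn X ≤ c := by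
    refine csSup_le ⟨|qf X 0|, 0, by rw [PT3_sq_zero]; exact zero_le_one, rfl⟩ ?_
    rintro r ⟨x, hx, rfl⟩
    refine le_of_pow_le_pow_left₀ hne hc0 ?_
    rw [hcp]
    exact key x hx
  rw [← hcp]
  exact pow_le_pow_left₀ (qn_nonneg X) hq _

end

end A55
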