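import Pool.Agent.Lib_helper78.A55.PD
import Pool.Agent.Lib_helper78.A55.P_T2
import Pool.Agent.Lib_helper78.A55.P_T3

/-!
# Block T4 of the probability layer of MP_a55cb8 (helper35)
-/

open Matrix Finset

namespace A55



noncomputable section

/-- Jensen's inequality for powers of averages. -/
theorem PT4_pow_av_le {Ω : Type*} [Fintype Ω] [Nonempty Ω] (g : Ω → ℝ) (hg : ∀ w, 0 ≤ g w)
    (q : ℕ) : av g ^ q ≤ av (fun w => g w ^ q) := by
  have hc : (0 : ℝ) < Fintype.card Ω := by exact_mod_cast Fintype.card_pos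
  have h := Real.pow_arith_mean_le_arith_mean_pow (Finset.univ : Finset Ω)
    (fun _ => (Fintype.card Ω : ℝ)⁻¹) g (fun _ _ => by positivity)
    (by rw [Finset.sum_const, Finset.card_univ, nsmul_eq_mul]; field_simp) (fun w _ => hg w) q
  have e1 : av g = ∑ w, (Fintype.card Ω : ℝ)⁻¹ * g w := by
    unfold av
    rw [← Finset.mul_sum, div_eq_inv_mul]
  have e2 : av (fun w => g w ^ q) = ∑ w, (Fintype.card Ω : ℝ)⁻¹ * g w ^ q := by
    unfold av
    rw [← Finset.mul_sum, div_eq_inv_mul]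
  rw [e1, e2]
  exact h

/-- T4 -/
theorem rad_qn {n : ℕ} {ι : Type*} [Fintype ι] [DecidableEq ι]
    (H : ι → Matrix (Fin n) (Fin n) ℝ) (hH : ∀ i, (H i)ᵀ = H i) (v : ℝ) (hv0 : 0 ≤ v)
    (hv : ∀ x, ∑ i, sq (H i *ᵥ x) ≤ v * sq x) (s : ℕ) (hs : 1 ≤ s) (hn : n ≤ 2 ^ (2 ^ s)) :
    av (fun ε : ι → Bool => qn (∑ i, sgn (ε i) • H i)) ^ 2 ≤ 4 * 2 ^ s * v := by
  obtain ⟨t, rfl⟩ : ∃ t, s = t + 1 := ⟨s - 1, by omega⟩
  set p : ℕ := 2 ^ t with hp
  have hp0 : p ≠ 0 := by positivity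
  have hq : 2 ^ (t + 1) = 2 * p := by rw [hp, pow_succ, mul_comm]
  set g : (ι → Bool) → ℝ := fun ε => qn (∑ i, sgn (ε i) • H i) with hg
  have hg0 : ∀ ε, 0 ≤ g ε := fun ε => qn_nonneg _
  have h1 : av g ^ (2 * p) ≤ av (fun ε => g ε ^ (2 * p)) := PT4_pow_av_le g hg0 _
  have h2 : av (fun ε => g ε ^ (2 * p)) ≤
      av (fun ε : ι → Bool => ((∑ i, sgn (ε i) • H i) ^ (2 * p)).trace) := by
    apply av_mono
    intro ε
    have hX : (∑ i, sgn (ε i) • H i)ᵀ = ∑ i, sgn (ε i) • H i := by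
      rw [Matrix.transpose_sum]
      exact Finset.sum_congr rfl fun i _ => by rw [Matrix.transpose_smul, hH i]
    have := qn_pow_le_trace _ hX (t + 1) (by omega)
    rw [hq] at this
    exact this
  have h3 := rad_moment H hH v hv0 hv p
  have h4 : (2 * (p : ℝ) * v) ^ p * n ≤ (4 * 2 ^ (t + 1) * v) ^ p := by
    have e1 : (4 * 2 ^ (t + 1) * v) ^ p = (2 * (p : ℝ) * v) ^ p * 2 ^ (2 * p) := by
      have e3 : (2 : ℝ) ^ (t + 1) = 2 * p := by
        have := congrArg (fun k : ℕ => (k : ℝ)) hq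
        push_cast at this
        exact this
      rw [e3, pow_mul, ← mul_pow]
      congr 1
      ring
    rw [e1]
    apply mul_le_mul_of_nonneg_left _ (by positivity)
    have : (n : ℝ) ≤ ((2 ^ (2 ^ (t + 1)) : ℕ) : ℝ) := by exact_mod_cast hn
    rw [hq] at this
    push_cast at this
    exact this
  have h5 : (av g ^ 2) ^ p ≤ (4 * 2 ^ (t + 1) * v) ^ p := by
    rw [← pow_mul]
    exact ((h1.trans h2).trans h3).trans h4
  exact le_of_pow_le_pow_left₀ hp0 (by positivity) h5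

end

end A55
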