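import Pool.Agent.Lib_helper78.A55.PD
import Pool.Agent.Lib_helper50.A55.ProbIface
import Pool.Agent.Lib_helper78.A55.P_T3
import Pool.Agent.Lib_helper78.A55.P_T5

/-!
# Block T6 of the probability layer of MP_a55cb8 (helper35)
-/

open Matrix Finset

namespace A55



noncomputable section

theorem PT6_qf_sum {n : ℕ} {ι : Type*} [Fintype ι] (c : ι → ℝ)
    (Z : ι → Matrix (Fin n) (Fin n) ℝ) (x : Fin n → ℝ) :
    qf (∑ i, c i • Z i) x = ∑ i, c i * qf (Z i) x := by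
  unfold qf
  rw [Matrix.sum_mulVec, dotProduct_sum]
  exact Finset.sum_congr rfl fun i _ => by rw [Matrix.smul_mulVec, dotProduct_smul, smul_eq_mul]

theorem PT6_qf_conj {n : ℕ} (P Z : Matrix (Fin n) (Fin n) ℝ) (x : Fin n → ℝ) :
    qf (Pᵀ * Z * P) x = qf Z (P *ᵥ x) := by
  unfold qf
  rw [← Matrix.mulVec_mulVec, ← Matrix.mulVec_mulVec, Matrix.dotProduct_mulVec,
    Matrix.vecMul_transpose]

theorem PT6_sq_eq {n : ℕ} (x : Fin n → ℝ) : sq x = x ⬝ᵥ x := by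
  unfold sq dotProduct
  exact Finset.sum_congr rfl fun i _ => by ring

theorem PT6_qf_one {n : ℕ} (x : Fin n → ℝ) : qf (1 : Matrix (Fin n) (Fin n) ℝ) x = sq x := by
  unfold qf
  rw [Matrix.one_mulVec, PT6_sq_eq]

theorem PT6_factor {n : ℕ} (M : Matrix (Fin n) (Fin n) ℝ) (hM : M.PosDef) :
    ∃ R P : Matrix (Fin n) (Fin n) ℝ, M = Rᵀ * R ∧ P * R = 1 ∧ R * P = 1 := by
  open scoped MatrixOrder in
  obtain ⟨R, hR⟩ := CStarAlgebra.nonneg_iff_eq_star_mul_self.mp hM.posSemidef.nonneg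
  have hR' : M = Rᵀ * R := by
    rw [hR, star_eq_conjTranspose, Matrix.conjTranspose_eq_transpose_of_trivial]
  have hu : IsUnit M.det := (Matrix.isUnit_iff_isUnit_det M).mp hM.isUnit
  have hRu : IsUnit R.det := by
    rw [hR', Matrix.det_mul, Matrix.det_transpose] at hu
    exact isUnit_of_mul_isUnit_right hu
  exact ⟨R, R⁻¹, hR', Matrix.nonsing_inv_mul R hRu, Matrix.mul_nonsing_inv R hRu⟩

theorem PT6_exp (n : ℕ) : ∃ s : ℕ, 1 ≤ s ∧ n ≤ 2 ^ (2 ^ s) ∧ 2 ^ s ≤ 2 * (Nat.log2 n + 2) := by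
  refine ⟨Nat.log 2 (Nat.log2 n + 2) + 1, by omega, ?_, ?_⟩
  · have h1 : Nat.log2 n + 2 < 2 ^ (Nat.log 2 (Nat.log2 n + 2) + 1) :=
      Nat.lt_pow_succ_log_self (by norm_num) _
    have h2 : n < 2 ^ (Nat.log2 n + 1) := by
      rw [Nat.log2_eq_log_two]
      exact Nat.lt_pow_succ_log_self (by norm_num) _
    have h3 : 2 ^ (Nat.log2 n + 1) ≤ 2 ^ (2 ^ (Nat.log 2 (Nat.log2 n + 2) + 1)) :=
      Nat.pow_le_pow_right (by norm_num) (by omega)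
    omega
  · rw [pow_succ, mul_comm]
    exact Nat.mul_le_mul_left 2 (Nat.pow_log_le_self 2 (by omega))

theorem PT6_num {K μ τ δ y : ℝ} (hμ : 0 ≤ μ) (hK : 0 ≤ K) (hτ : 0 < τ) (hδ : 0 < δ)
    (hδ1 : δ ≤ 1) (h : 100 * K * (μ + τ) ≤ δ ^ 2 * τ ^ 2) (hy : y ^ 2 ≤ K * (y + μ)) :
    y ≤ δ * τ := by
  by_contra hc
  push Not at hc
  have hd : 0 < δ * τ := mul_pos hδ hτ
  have hy0 : 0 < y := hd.trans hc
  have h1 : 100 * K * τ ≤ δ ^ 2 * τ ^ 2 := le_trans (by nlinarith [mul_nonneg hK hμ]) h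
  have h2 : 100 * K ≤ δ ^ 2 * τ := by
    have : 100 * K * τ ≤ δ ^ 2 * τ * τ := by nlinarith
    exact le_of_mul_le_mul_right this hτ
  have h3 : δ ^ 2 * τ ≤ y := by
    have : δ ^ 2 * τ ≤ δ * τ := by nlinarith
    linarith
  have h4 : 100 * K * y ≤ y ^ 2 := by nlinarith
  have h5 : 100 * K * μ ≤ δ ^ 2 * τ ^ 2 := le_trans (by nlinarith [mul_nonneg hK hτ.le]) h
  have h6 : δ ^ 2 * τ ^ 2 ≤ y ^ 2 := by nlinarith
  nlinarith

/-- T6 -/
theorem mc_rel {n : ℕ} {ι : Type*} [Fintype ι] [DecidableEq ι] (Ω : ι → Type*)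
    [∀ i, Fintype (Ω i)] [∀ i, Nonempty (Ω i)] (f : ∀ i, Ω i → ℝ)
    (Z : ι → Matrix (Fin n) (Fin n) ℝ) (M : Matrix (Fin n) (Fin n) ℝ) (hM : M.PosDef)
    (β μ τ δ : ℝ) (hZ : ∀ i, (Z i).PosSemidef)
    (hf : ∀ i ω, 0 ≤ f i ω) (hf1 : ∀ i, av (f i) = 1)
    (hβ : ∀ i, (∀ ω, f i ω = 1) ∨ ∀ ω x, f i ω * qf (Z i) x ≤ β * qf M x)
    (hμ : ∀ x, ∑ i, qf (Z i) x ≤ μ * qf M x) (hτ : 0 < τ) (hδ : 0 < δ) (hδ1 : δ ≤ 1)
    (hβ0 : 0 ≤ β) (hμ0 : 0 ≤ μ)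
    (hs : 10 ^ 4 * β * (μ + τ) * (Nat.log2 n + 2) ≤ δ ^ 2 * τ ^ 2) :
    frac (fun ω : (i : ι) → Ω i =>
      ¬ ∀ x, |∑ i, (f i (ω i) - 1) * qf (Z i) x| ≤ τ * qf M x) ≤ δ := by
  obtain ⟨R, P, hMR, hPR, hRP⟩ := PT6_factor M hM
  obtain ⟨s, hs1, hsn, hs2⟩ := PT6_exp n
  have hMq : ∀ x, qf M x = sq (R *ᵥ x) := by
    intro x
    have h := PT6_qf_conj R 1 x
    rw [Matrix.mul_one, ← hMR, PT6_qf_one] at h
    exact h
  have hMP : ∀ x, qf M (P *ᵥ x) = sq x := by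
    intro x
    rw [hMq, Matrix.mulVec_mulVec, hRP, Matrix.one_mulVec]
  have hZ' : ∀ i, (Pᵀ * Z i * P).PosSemidef := by
    intro i
    have h := (hZ i).conjTranspose_mul_mul_same P
    rwa [Matrix.conjTranspose_eq_transpose_of_trivial] at h
  have hβ' : ∀ i, (∀ ω, f i ω = 1) ∨ ∀ ω x, f i ω * qf (Pᵀ * Z i * P) x ≤ β * sq x := by
    intro i
    rcases hβ i with h | h
    · exact Or.inl h
    · refine Or.inr fun ω x => ?_
      rw [PT6_qf_conj, ← hMP x]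
      exact h ω _
  have hμ' : ∀ x, ∑ i, qf (Pᵀ * Z i * P) x ≤ μ * sq x := by
    intro x
    rw [← hMP x]
    simp only [PT6_qf_conj]
    exact hμ _
  have hmain := mc_main Ω f (fun i => Pᵀ * Z i * P) β μ hZ' hf hf1 hβ' hμ' hβ0 hμ0 s hs1 hsn
  set g : ((i : ι) → Ω i) → ℝ := fun ω => qn (∑ i, (f i (ω i) - 1) • (Pᵀ * Z i * P)) with hg
  have hg0 : ∀ ω, 0 ≤ g ω := fun ω => qn_nonneg _
  have hlog : (2 : ℝ) ^ s ≤ 2 * (Nat.log2 n + 2) := by exact_mod_cast hs2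
  have hy : av g ≤ δ * τ := by
    refine PT6_num (K := 16 * 2 ^ s * β) hμ0 (by positivity) hτ hδ hδ1 (le_trans ?_ hs) hmain
    have h1 : 100 * (16 * 2 ^ s * β) * (μ + τ) = (1600 * β * (μ + τ)) * 2 ^ s := by ring
    have h2 : 10 ^ 4 * β * (μ + τ) * (Nat.log2 n + 2 : ℝ) =
        (5000 * β * (μ + τ)) * (2 * (Nat.log2 n + 2)) := by ring
    rw [h1, h2]
    apply mul_le_mul _ hlog (by positivity) (by positivity)
    have : 0 ≤ β * (μ + τ) := by positivity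
    nlinarith
  calc frac (fun ω : (i : ι) → Ω i =>
      ¬ ∀ x, |∑ i, (f i (ω i) - 1) * qf (Z i) x| ≤ τ * qf M x)
      ≤ frac (fun ω => τ ≤ g ω) := by
        apply frac_mono
        intro ω hω
        by_contra hc
        push Not at hc
        apply hω
        intro x
        have h1 := abs_qf_le_qn (∑ i, (f i (ω i) - 1) • (Pᵀ * Z i * P)) (R *ᵥ x)
        rw [PT6_qf_sum] at h1
        simp only [PT6_qf_conj] at h1
        rw [Matrix.mulVec_mulVec, hPR, Matrix.one_mulVec, ← hMq] at h1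
        refine h1.trans ?_
        have h0 : 0 ≤ qf M x := by rw [hMq]; unfold sq; positivity
        exact mul_le_mul_of_nonneg_right hc.le h0
    _ ≤ av g / τ := markov hg0 hτ
    _ ≤ δ := by
        rw [div_le_iff₀ hτ]
        exact hy

/-- MC in the form of the interface. -/
theorem mC : MC := by
  intro n ι _ _ Ω _ _ f Z β μ τ δ hZ hf hf1 hβ hμ hτ hδ hδ1 hβ0 hμ0 hs
  have hf1' : ∀ i, av (f i) = 1 := by
    intro i
    unfold av
    rw [hf1 i]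
    have : (Fintype.card (Ω i) : ℝ) ≠ 0 := by exact_mod_cast Fintype.card_ne_zero
    exact div_self this
  have h := mc_rel Ω f Z (1 : Matrix (Fin n) (Fin n) ℝ) Matrix.PosDef.one β μ τ δ hZ hf hf1'
    (by simpa only [PT6_qf_one] using hβ) (by simpa only [PT6_qf_one] using hμ) hτ hδ hδ1
    hβ0 hμ0 hs
  simpa only [PT6_qf_one] using h

end

end A55
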