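import Pool.Agent.Lib_helper78.A55.PA
import Pool.Agent.Lib_helper78.A55.PD
import Pool.Agent.Lib_helper50.A55.ProbIface
import Pool.Agent.Lib_helper78.A55.P_T6
import Pool.Agent.Lib_helper78.A55.P_B1
import Pool.Agent.Lib_helper78.A55.P_R

/-!
# MP_a55cb8, probability layer, block K2 (helper94)
-/

open Matrix Finset

namespace A55

open PR

-- BEGIN STUBS (blocks T6, B1, R)

-- END STUBS

noncomputable section

theorem PK2_av_fh {B : ℕ} (e : ℕ) (he : 2 * e ≤ B) : av (fun w : Fin B → Bool => fh e w) = 1 := by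
  classical
  have h := frac_hit e he
  rw [frac_eq_av] at h
  have h2 : av (fun w : Fin B → Bool => fh e w)
      = av (fun w : Fin B → Bool => 4 ^ e * (if hit e w then (1 : ℝ) else 0)) := by
    apply av_congr
    intro w
    unfold fh
    by_cases hw : hit e w <;> simp [hw]
  have h3 : av (fun w : Fin B → Bool => if hit e w then (1 : ℝ) else 0) = (1 / 4) ^ e := by
    rw [← h]
    apply av_congr
    intro w
    by_cases hw : hit e w <;> simp [hw]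
  rw [h2, av_mul_left, h3, ← mul_pow]
  norm_num

theorem PK2_fh_nonneg {B : ℕ} (e : ℕ) (w : Fin B → Bool) : 0 ≤ fh e w := by
  unfold fh
  split <;> positivity

theorem PK2_fh_le {B : ℕ} (e : ℕ) (w : Fin B → Bool) : fh e w ≤ 4 ^ e := by
  unfold fh
  split
  · exact le_rfl
  · positivity

theorem PK2_fh_zero {B : ℕ} (w : Fin B → Bool) : fh 0 w = 1 := by
  unfold fh
  rw [if_pos]
  · simp
  · intro t ht
    omega

/-- the columns which are heavy for the row `i` -/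
def PK2_C {n : ℕ} (A : Matrix (Fin n) (Fin n) ℝ) (l l' u : ℝ) (e : Fin n → ℕ) (i c : Fin n) :
    Prop :=
  l * (u ^ 10 / 4 * rho Aᵀ l' c) < u ^ 6 * (4 ^ e i * noiseM A l i c ^ 2)

open Classical in
/-- the diagonal of the truncation -/
def PK2_d {n : ℕ} (A : Matrix (Fin n) (Fin n) ℝ) (l l' u : ℝ) (e : Fin n → ℕ) (i c : Fin n) : ℝ :=
  if e i ≠ 0 ∧ PK2_C A l l' u e i c then (1 / 2) ^ e i else 0

def PK2_Z {n : ℕ} (A : Matrix (Fin n) (Fin n) ℝ) (l l' u : ℝ) (e : Fin n → ℕ) (i : Fin n) :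
    Matrix (Fin n) (Fin n) ℝ :=
  (diagonal (PK2_d A l l' u e i) * Aᵀ)ᵀ * (diagonal (PK2_d A l l' u e i) * Aᵀ)

theorem PK2_qf {n : ℕ} (A : Matrix (Fin n) (Fin n) ℝ) (l l' u : ℝ) (e : Fin n → ℕ) (i : Fin n)
    (x : Fin n → ℝ) : qf (PK2_Z A l l' u e i) x
      = ∑ c, PK2_d A l l' u e i c ^ 2 * (Aᵀ *ᵥ x) c ^ 2 := by
  rw [qf, PK2_Z, ← mulVec_mulVec, dotProduct_mulVec, vecMul_transpose, ← mulVec_mulVec]
  unfold dotProduct
  refine Finset.sum_congr rfl fun c _ => ?_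
  rw [mulVec_diagonal]
  ring

theorem PK2_psd {n : ℕ} (A : Matrix (Fin n) (Fin n) ℝ) (l l' u : ℝ) (e : Fin n → ℕ) (i : Fin n) :
    (PK2_Z A l l' u e i).PosSemidef := by
  have := Matrix.posSemidef_conjTranspose_mul_self (diagonal (PK2_d A l l' u e i) * Aᵀ)
  rwa [conjTranspose_eq_transpose_of_trivial] at this

theorem PK2_d_sq {n : ℕ} (A : Matrix (Fin n) (Fin n) ℝ) (l l' u : ℝ) (e : Fin n → ℕ)
    (i c : Fin n) (h : e i ≠ 0 ∧ PK2_C A l l' u e i c) :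
    PK2_d A l l' u e i c ^ 2 = (1 / 4) ^ e i := by
  rw [PK2_d, if_pos h, ← pow_mul, mul_comm, pow_mul]
  norm_num

theorem PK2_d_zero {n : ℕ} (A : Matrix (Fin n) (Fin n) ℝ) (l l' u : ℝ) (e : Fin n → ℕ)
    (i c : Fin n) (h : ¬(e i ≠ 0 ∧ PK2_C A l l' u e i c)) :
    PK2_d A l l' u e i c = 0 := by
  rw [PK2_d, if_neg h]

/-- the bound for one row -/
theorem PK2_beta {n : ℕ} (A : Matrix (Fin n) (Fin n) ℝ) (l l' u : ℝ) (e : Fin n → ℕ)
    (hl' : 0 < l') (hll : l' ≤ l) (hu : 0 < u) (hr : RatesOK A l (u ^ 10) e) (i : Fin n)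
    (hi : e i ≠ 0) (x : Fin n → ℝ) :
    4 ^ e i * qf (PK2_Z A l l' u e i) x ≤ 16 * u⁻¹ ^ 14 * qf (gram Aᵀ l') x := by
  classical
  have hl : 0 < l := hl'.trans_le hll
  have hM : 0 ≤ sq (Aᵀ *ᵥ x) + l' * sq x := by
    have h1 : 0 ≤ sq (Aᵀ *ᵥ x) := Finset.sum_nonneg fun _ _ => sq_nonneg _
    have h2 : 0 ≤ sq x := Finset.sum_nonneg fun _ _ => sq_nonneg _
    positivity
  rw [PK2_qf, qf_gram, Finset.mul_sum]
  -- each term
  have hterm : ∀ c, 4 ^ e i * (PK2_d A l l' u e i c ^ 2 * (Aᵀ *ᵥ x) c ^ 2)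
      ≤ (4 * u⁻¹ ^ 4 * 4 ^ e i * l⁻¹ * noiseM A l i c ^ 2) * (sq (Aᵀ *ᵥ x) + l' * sq x) := by
    intro c
    by_cases h : e i ≠ 0 ∧ PK2_C A l l' u e i c
    · rw [PK2_d_sq A l l' u e i c h]
      have h1 : (4 : ℝ) ^ e i * ((1 / 4) ^ e i * (Aᵀ *ᵥ x) c ^ 2) = (Aᵀ *ᵥ x) c ^ 2 := by
        rw [← mul_assoc, ← mul_pow]
        norm_num
      rw [h1]
      refine (row_sq_le Aᵀ hl' c x).trans (mul_le_mul_of_nonneg_right ?_ hM)
      have h2 := h.2
      unfold PK2_C at h2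
      have h3 : rho Aᵀ l' c = (4 * u⁻¹ ^ 10 * l⁻¹) * (l * (u ^ 10 / 4 * rho Aᵀ l' c)) := by
        field_simp
      rw [h3]
      calc (4 * u⁻¹ ^ 10 * l⁻¹) * (l * (u ^ 10 / 4 * rho Aᵀ l' c))
          ≤ (4 * u⁻¹ ^ 10 * l⁻¹) * (u ^ 6 * (4 ^ e i * noiseM A l i c ^ 2)) :=
            mul_le_mul_of_nonneg_left h2.le (by positivity)
        _ = _ := by
            field_simp
    · rw [PK2_d_zero A l l' u e i c h]
      have : 0 ≤ (4 * u⁻¹ ^ 4 * 4 ^ e i * l⁻¹ * noiseM A l i c ^ 2) * (sq (Aᵀ *ᵥ x) + l' * sq x) := by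
        positivity
      simpa using this
  refine (Finset.sum_le_sum fun c _ => hterm c).trans ?_
  rw [← Finset.sum_mul, ← Finset.mul_sum]
  refine mul_le_mul_of_nonneg_right ?_ hM
  have h4 : ∑ c, noiseM A l i c ^ 2 ≤ l * rho A l i := sq_noise_row_le A hl i
  have h5 : u ^ 10 / 4 * rho A l i ≤ (1 / 4) ^ e i := (hr i).resolve_left hi
  calc 4 * u⁻¹ ^ 4 * 4 ^ e i * l⁻¹ * ∑ c, noiseM A l i c ^ 2
      ≤ 4 * u⁻¹ ^ 4 * 4 ^ e i * l⁻¹ * (l * rho A l i) :=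
        mul_le_mul_of_nonneg_left h4 (by positivity)
    _ = (16 * u⁻¹ ^ 14 * 4 ^ e i) * (u ^ 10 / 4 * rho A l i) := by
        field_simp
        ring
    _ ≤ (16 * u⁻¹ ^ 14 * 4 ^ e i) * (1 / 4) ^ e i :=
        mul_le_mul_of_nonneg_left h5 (by positivity)
    _ = 16 * u⁻¹ ^ 14 := by
        rw [mul_assoc, ← mul_pow]
        norm_num

/-- the sum over the rows -/
theorem PK2_mu {n : ℕ} (A : Matrix (Fin n) (Fin n) ℝ) (l l' u : ℝ) (e : Fin n → ℕ)
    (hl' : 0 < l') (hll : l' ≤ l) (hu : 0 < u) (x : Fin n → ℝ) :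
    ∑ i, qf (PK2_Z A l l' u e i) x ≤ 4 * u⁻¹ ^ 4 * qf (gram Aᵀ l') x := by
  classical
  have hl : 0 < l := hl'.trans_le hll
  have h2 : 0 ≤ sq x := Finset.sum_nonneg fun _ _ => sq_nonneg _
  simp only [PK2_qf]
  rw [Finset.sum_comm, qf_gram]
  have hterm : ∀ c, ∑ i, PK2_d A l l' u e i c ^ 2 * (Aᵀ *ᵥ x) c ^ 2
      ≤ 4 * u⁻¹ ^ 4 * (Aᵀ *ᵥ x) c ^ 2 := by
    intro c
    rw [← Finset.sum_mul]
    have h0 := rho_nonneg Aᵀ hl' c
    rcases h0.eq_or_lt with h | h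
    · have h1 := row_sq_le Aᵀ hl' c x
      rw [← h, zero_mul] at h1
      have h3 : (Aᵀ *ᵥ x) c ^ 2 = 0 := le_antisymm h1 (sq_nonneg _)
      rw [h3]
      simp
    · refine mul_le_mul_of_nonneg_right ?_ (sq_nonneg _)
      have h3 : ∀ i, PK2_d A l l' u e i c ^ 2
          ≤ (u ^ 6 / (l * (u ^ 10 / 4 * rho Aᵀ l' c))) * noiseM A l i c ^ 2 := by
        intro i
        by_cases hc : e i ≠ 0 ∧ PK2_C A l l' u e i c
        · rw [PK2_d_sq A l l' u e i c hc]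
          have h4 := hc.2
          unfold PK2_C at h4
          rw [div_mul_eq_mul_div, le_div_iff₀ (by positivity)]
          have h5 : (0 : ℝ) < (1 / 4) ^ e i := by positivity
          have h6 := mul_le_mul_of_nonneg_left h4.le h5.le
          have h7 : (1 / 4 : ℝ) ^ e i * (u ^ 6 * (4 ^ e i * noiseM A l i c ^ 2))
              = u ^ 6 * noiseM A l i c ^ 2 := by
            have : (1 / 4 : ℝ) ^ e i * 4 ^ e i = 1 := by
              rw [← mul_pow]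
              norm_num
            linear_combination (u ^ 6 * noiseM A l i c ^ 2) * this
          rw [h7] at h6
          exact h6
        · rw [PK2_d_zero A l l' u e i c hc]
          have : 0 ≤ (u ^ 6 / (l * (u ^ 10 / 4 * rho Aᵀ l' c))) * noiseM A l i c ^ 2 := by
            positivity
          simpa using this
      refine (Finset.sum_le_sum fun i _ => h3 i).trans ?_
      rw [← Finset.mul_sum]
      have h8 : ∑ i, noiseM A l i c ^ 2 ≤ l * rho Aᵀ l c := sq_noise_col_le A hl c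
      have h9 : rho Aᵀ l c ≤ rho Aᵀ l' c := rho_anti Aᵀ hl' hll c
      calc u ^ 6 / (l * (u ^ 10 / 4 * rho Aᵀ l' c)) * ∑ i, noiseM A l i c ^ 2
          ≤ u ^ 6 / (l * (u ^ 10 / 4 * rho Aᵀ l' c)) * (l * rho Aᵀ l' c) :=
            mul_le_mul_of_nonneg_left (h8.trans (mul_le_mul_of_nonneg_left h9 hl.le))
              (by positivity)
        _ = 4 * u⁻¹ ^ 4 := by
            field_simp
  refine (Finset.sum_le_sum fun c _ => hterm c).trans ?_
  rw [← Finset.mul_sum]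
  refine mul_le_mul_of_nonneg_left ?_ (by positivity)
  have : ∑ c, (Aᵀ *ᵥ x) c ^ 2 = sq (Aᵀ *ᵥ x) := rfl
  rw [this]
  have := mul_nonneg hl'.le h2
  linarith

/-- K2: the columns that are heavy for a row which is hit carry little mass. -/
theorem kill_heavy {n B : ℕ} (A : Matrix (Fin n) (Fin n) ℝ) (l l' δ u : ℝ) (e : Fin n → ℕ)
    (hl' : 0 < l') (hll : l' ≤ l) (hδ : 0 < δ) (hδ1 : δ ≤ 1)
    (hu : 10 ^ 8 * (Nat.log2 n + 2) / δ ≤ u) (hr : RatesOK A l (u ^ 10) e)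
    (hB : ∀ i, 2 * e i ≤ B) :
    frac (fun w : Fin n → Fin B → Bool =>
      ¬ ∀ x : Fin n → ℝ, ∑ c ∈ univ.filter (fun c => ∃ i, e i ≠ 0 ∧ hit (e i) (w i) ∧
          l * (u ^ 10 / 4 * rho Aᵀ l' c) < u ^ 6 * (4 ^ e i * noiseM A l i c ^ 2)),
        (Aᵀ *ᵥ x) c ^ 2 ≤ 1 / 16 * (sq (Aᵀ *ᵥ x) + l' * sq x)) ≤ δ := by
  classical
  have hl : 0 < l := hl'.trans_le hll
  have hlg : (0 : ℝ) ≤ Nat.log2 n := Nat.cast_nonneg _
  -- `u` is large
  have hu1 : 10 ^ 8 * (Nat.log2 n + 2) ≤ u * δ := by rwa [div_le_iff₀ hδ] at hu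
  have hud : (2 * 10 ^ 8 : ℝ) ≤ u * δ := by nlinarith
  have hu0 : 0 < u := by
    by_contra hc
    rw [not_lt] at hc
    have : u * δ ≤ 0 := mul_nonpos_of_nonpos_of_nonneg hc hδ.le
    linarith
  have hu2 : 2 * 10 ^ 8 ≤ u := by nlinarith
  have hui : u⁻¹ ≤ 1 := inv_le_one_of_one_le₀ (by linarith)
  have hui0 : 0 < u⁻¹ := inv_pos.mpr hu0
  have hmain := mc_rel (fun _ : Fin n => Fin B → Bool) (fun i w => fh (e i) w)
    (PK2_Z A l l' u e) (gram Aᵀ l') (gram_posDef Aᵀ hl') (16 * u⁻¹ ^ 14) (4 * u⁻¹ ^ 4) (1 / 32) δ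
    (fun i => PK2_psd A l l' u e i) (fun i w => PK2_fh_nonneg (e i) w)
    (fun i => PK2_av_fh (e i) (hB i)) ?_ (PK2_mu A l l' u e hl' hll hu0) (by norm_num) hδ hδ1
    (by positivity) (by positivity) ?_
  · refine (frac_mono ?_).trans hmain
    intro w hw hgood
    refine hw fun x => ?_
    have h1 := hgood x
    have h2 := (abs_le.mp h1).2
    have h3 : ∑ i, (fh (e i) (w i) - 1) * qf (PK2_Z A l l' u e i) x
        = ∑ i, fh (e i) (w i) * qf (PK2_Z A l l' u e i) x - ∑ i, qf (PK2_Z A l l' u e i) x := by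
      rw [← Finset.sum_sub_distrib]
      exact Finset.sum_congr rfl fun i _ => by ring
    rw [h3] at h2
    have h4 := PK2_mu A l l' u e hl' hll hu0 x
    have h5 : ∑ c ∈ univ.filter (fun c => ∃ i, e i ≠ 0 ∧ hit (e i) (w i) ∧
          l * (u ^ 10 / 4 * rho Aᵀ l' c) < u ^ 6 * (4 ^ e i * noiseM A l i c ^ 2)),
        (Aᵀ *ᵥ x) c ^ 2 ≤ ∑ i, fh (e i) (w i) * qf (PK2_Z A l l' u e i) x := by
      simp only [PK2_qf, Finset.mul_sum]
      rw [Finset.sum_comm]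
      refine (Finset.sum_le_sum fun c hc => ?_).trans
        (Finset.sum_le_sum_of_subset_of_nonneg (Finset.filter_subset _ _) fun c _ _ => ?_)
      · obtain ⟨-, i, hi, hh, hcc⟩ := Finset.mem_filter.mp hc
        have h6 : (Aᵀ *ᵥ x) c ^ 2 = fh (e i) (w i) * (PK2_d A l l' u e i c ^ 2
            * (Aᵀ *ᵥ x) c ^ 2) := by
          rw [PK2_d_sq A l l' u e i c ⟨hi, hcc⟩, fh, if_pos hh, ← mul_assoc, ← mul_pow]
          norm_num
        refine h6.le.trans ?_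
        exact Finset.single_le_sum (f := fun i => fh (e i) (w i) * (PK2_d A l l' u e i c ^ 2
            * (Aᵀ *ᵥ x) c ^ 2)) (fun j _ => by
              have := PK2_fh_nonneg (e j) (w j)
              positivity) (Finset.mem_univ i)
      · refine Finset.sum_nonneg fun j _ => ?_
        have := PK2_fh_nonneg (e j) (w j)
        positivity
    have h6 : 0 ≤ qf (gram Aᵀ l') x := by
      rw [qf_gram]
      have h1 : 0 ≤ sq (Aᵀ *ᵥ x) := Finset.sum_nonneg fun _ _ => sq_nonneg _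
      have h2 : 0 ≤ sq x := Finset.sum_nonneg fun _ _ => sq_nonneg _
      positivity
    have h7 : 4 * u⁻¹ ^ 4 ≤ 1 / 32 := by
      have h8 : u⁻¹ ≤ 1 / 128 := by
        rw [inv_le_comm₀ hu0 (by norm_num)]
        norm_num
        linarith
      have h9 : u⁻¹ ^ 4 ≤ u⁻¹ := by
        calc u⁻¹ ^ 4 ≤ u⁻¹ ^ 1 := pow_le_pow_of_le_one hui0.le hui (by norm_num)
          _ = u⁻¹ := pow_one _
      linarith
    have h10 := mul_le_mul_of_nonneg_right h7 h6
    rw [← qf_gram]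
    linarith
  · intro i
    by_cases hi : e i = 0
    · left
      intro w
      show fh (e i) w = 1
      rw [hi]
      exact PK2_fh_zero w
    · right
      intro w x
      have h1 : 0 ≤ qf (PK2_Z A l l' u e i) x := by
        rw [PK2_qf]
        exact Finset.sum_nonneg fun c _ => by positivity
      exact (mul_le_mul_of_nonneg_right (PK2_fh_le (e i) w) h1).trans
        (PK2_beta A l l' u e hl' hll hu0 hr i hi x)
  · -- the numbers
    have h1 : (Nat.log2 n + 2 : ℝ) ≤ u * δ / 10 ^ 8 := by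
      rw [le_div_iff₀ (by norm_num)]
      linarith
    have h2 : 4 * u⁻¹ ^ 4 + 1 / 32 ≤ 5 := by
      have : u⁻¹ ^ 4 ≤ 1 := pow_le_one₀ hui0.le hui
      linarith
    have h3 : u⁻¹ ≤ δ := by
      rw [inv_le_iff_one_le_mul₀ hu0]
      nlinarith
    calc 10 ^ 4 * (16 * u⁻¹ ^ 14) * (4 * u⁻¹ ^ 4 + 1 / 32) * (Nat.log2 n + 2)
        ≤ 10 ^ 4 * (16 * u⁻¹ ^ 14) * 5 * (u * δ / 10 ^ 8) := by
          gcongr
      _ = (8 / 10 ^ 3) * δ * u⁻¹ ^ 12 * u⁻¹ := by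
          field_simp
          norm_num
      _ ≤ (8 / 10 ^ 3) * δ * u⁻¹ ^ 12 * δ := by
          gcongr
      _ ≤ (8 / 10 ^ 3) * δ * (1 / 10 ^ 6) * δ := by
          gcongr
          have h8 : u⁻¹ ≤ 1 / 10 ^ 6 := by
            rw [inv_le_comm₀ hu0 (by norm_num)]
            norm_num
            linarith
          calc u⁻¹ ^ 12 ≤ u⁻¹ ^ 1 := pow_le_pow_of_le_one hui0.le hui (by norm_num)
            _ = u⁻¹ := pow_one _
            _ ≤ _ := h8
      _ ≤ δ ^ 2 * (1 / 32) ^ 2 := by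
          nlinarith [sq_nonneg δ]

end

end A55
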