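import Pool.Agent.Lib_helper78.A55.PA
import Pool.Agent.Lib_helper78.A55.PD
import Pool.Agent.Lib_helper50.A55.ProbIface
import Pool.Agent.Lib_helper78.A55.P_K1
import Pool.Agent.Lib_helper78.A55.P_K2

/-! # MP_a55cb8, probability layer, block K3 -/

open Matrix Finset

namespace A55

-- BEGIN STUBS (blocks K1, K2)

-- END STUBS

noncomputable section

theorem PK3_wt {B : ℕ} (e : ℕ) (b : Bool) (w : Fin B → Bool) : wt e b w ^ 2 ≤ fh e w := by
  unfold wt fh
  by_cases h : hit e w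
  · rw [if_pos h]
    by_cases hb : b = false
    · rw [if_pos ⟨hb, h⟩, ← pow_mul, mul_comm, pow_mul]
      norm_num
    · rw [if_neg fun hc => hb hc.1, zero_pow two_ne_zero]
      positivity
  · rw [if_neg h, if_neg fun hc => h hc.2]
    norm_num

/-- K3: from K1 and K2. -/
theorem kill_frac {n B : ℕ} (A : Matrix (Fin n) (Fin n) ℝ) (l l' δ u : ℝ) (e : Fin n → ℕ)
    (bad : Fin n → Bool) (hl' : 0 < l') (hll : l' ≤ l) (hδ : 0 < δ) (hδ1 : δ ≤ 1)
    (hu : 10 ^ 8 * (Nat.log2 n + 2) / δ ≤ u) (hr : RatesOK A l (u ^ 10) e)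
    (hB : ∀ i, 2 * e i ≤ B) :
    frac (fun w : Fin n → Fin B → Bool =>
      ¬ KillOK (diagonal fun i => wt (e i) (bad i) (w i)) A l l' (u ^ 10) (u⁻¹ ^ 5)) ≤
      2 * δ := by
  have h1 := kill_light A l l' δ u e hl' hll hδ hδ1 hu hr hB
  have h2 := kill_heavy A l l' δ u e hl' hll hδ hδ1 hu hr hB
  refine (frac_mono ?_).trans ((frac_or _ _).trans ((add_le_add h1 h2).trans (by linarith)))
  intro w hw
  by_contra hc
  push Not at hc
  obtain ⟨hc1, hc2⟩ := hc
  apply hw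
  intro Bs hBs x
  refine le_trans ?_ (hc2 x)
  refine Finset.sum_le_sum_of_subset_of_nonneg ?_ fun c _ _ => sq_nonneg _
  intro c hcB
  rw [Finset.mem_filter]
  refine ⟨Finset.mem_univ _, ?_⟩
  have h3 := (hBs c hcB).2
  have h4 : sq ((diagonal fun i => wt (e i) (bad i) (w i)) *ᵥ (noiseM A l).col c) ≤
      ∑ i, fh (e i) (w i) * noiseM A l i c ^ 2 := by
    unfold sq
    refine Finset.sum_le_sum fun i _ => ?_
    rw [mulVec_diagonal, mul_pow]
    exact mul_le_mul_of_nonneg_right (PK3_wt _ _ _) (sq_nonneg _)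
  exact hc1 c (lt_of_lt_of_le h3 h4)

end

end A55
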