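import Pool.Agent.Lib_helper78.A55.PA
import Pool.Agent.Lib_helper50.A55.ProbIface
import Pool.Agent.Lib_helper78.A55.P_T6
import Pool.Agent.Lib_helper78.A55.P_B1

/-!
# Probability layer of MP_a55cb8: block N1 (helper85)
-/

open Matrix Finset

namespace A55

noncomputable section



/-- transposition of a norm bound -/
theorem PN1_transpose {a b : Type*} [Fintype a] [Fintype b] (N : Matrix a b ℝ) {c : ℝ}
    (hc : 0 ≤ c) (h : ∀ y, sq (N *ᵥ y) ≤ c * sq y) (x : a → ℝ) : sq (Nᵀ *ᵥ x) ≤ c * sq x := by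
  set y := Nᵀ *ᵥ x with hy
  have h0 : 0 ≤ sq y := Finset.sum_nonneg fun i _ => sq_nonneg _
  have h1 : sq y = x ⬝ᵥ (N *ᵥ y) := by
    have e1 : sq y = y ⬝ᵥ y := by simp only [A55.sq, dotProduct, pow_two]
    rw [e1]
    nth_rewrite 1 [hy]
    rw [mulVec_transpose, ← dotProduct_mulVec]
  have h2 : (x ⬝ᵥ (N *ᵥ y)) ^ 2 ≤ sq x * sq (N *ᵥ y) := by
    simp only [dotProduct]
    exact Finset.sum_mul_sq_le_sq_mul_sq _ _ _
  have h3 : 0 ≤ sq x := Finset.sum_nonneg fun i _ => sq_nonneg _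
  rcases h0.eq_or_lt with h4 | h4
  · rw [← h4]; exact mul_nonneg hc h3
  · rw [← h1] at h2
    have h5 := h y
    have h6 : sq x * sq (N *ᵥ y) ≤ sq x * (c * sq y) := mul_le_mul_of_nonneg_left h5 h3
    have h7 : sq y * sq y ≤ (c * sq x) * sq y := by nlinarith
    exact le_of_mul_le_mul_right h7 h4

/-- a square factor of `X Xᵀ` -/
theorem PN1_root {n : ℕ} {c : Type*} [Fintype c] (X : Matrix (Fin n) c ℝ) :
    ∃ R : Matrix (Fin n) (Fin n) ℝ, R * Rᵀ = X * Xᵀ := by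
  open scoped MatrixOrder in
  have h : (X * Xᵀ).PosSemidef := by
    have := posSemidef_self_mul_conjTranspose X
    rwa [conjTranspose_eq_transpose_of_trivial] at this
  obtain ⟨a, ha⟩ := CStarAlgebra.nonneg_iff_eq_star_mul_self.mp h.nonneg
  refine ⟨aᵀ, ?_⟩
  rw [ha, transpose_transpose, star_eq_conjTranspose, conjTranspose_eq_transpose_of_trivial]

theorem PN1_sq_eq {n d : Type*} [Fintype n] [Fintype d] (Y : Matrix n d ℝ) (x : n → ℝ) :
    sq (Yᵀ *ᵥ x) = x ⬝ᵥ ((Y * Yᵀ) *ᵥ x) := by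
  have e1 : sq (Yᵀ *ᵥ x) = (Yᵀ *ᵥ x) ⬝ᵥ (Yᵀ *ᵥ x) := by
    simp only [A55.sq, dotProduct, pow_two]
  rw [e1]
  nth_rewrite 1 [mulVec_transpose]
  rw [← dotProduct_mulVec, mulVec_mulVec]

theorem PN1_sq_of_mul {n m : Type*} {c : Type*} [Fintype n] [Fintype m] [Fintype c]
    {R : Matrix n m ℝ} {X : Matrix n c ℝ} (h : R * Rᵀ = X * Xᵀ) (x : n → ℝ) :
    sq (Rᵀ *ᵥ x) = sq (Xᵀ *ᵥ x) := by
  rw [PN1_sq_eq, PN1_sq_eq, h]

/-- N1 -/
theorem noise_frac {n c B : ℕ} (A : Matrix (Fin n) (Fin n) ℝ) (T : Matrix (Fin n) (Fin c) ℝ)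
    (lN δ u : ℝ) (e : Fin n → ℕ) (bad : Fin n → Bool) (hl : 0 < lN) (hδ : 0 < δ) (hδ1 : δ ≤ 1)
    (hu : 10 ^ 8 * (Nat.log2 n + 2) / δ ≤ u) (hB : ∀ i, 2 * e i ≤ B)
    (hk : ∀ i, bad i = false → e i ≠ 0 →
      sq (Tᵀ *ᵥ (noiseM A lN i)) ≤ u⁻¹ ^ 3 * lN * (1 / 4) ^ e i)
    (hN : ∀ x, sq (Tᵀ *ᵥ ((noiseM A lN)ᵀ *ᵥ x)) ≤ lN * sq x) :
    frac (fun w : Fin n → Fin B → Bool =>
      ¬ Noise (diagonal fun i => wt (e i) (bad i) (w i)) A T lN 2) ≤ δ := by
  classical
  set X : Matrix (Fin n) (Fin c) ℝ := noiseM A lN * T with hX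
  have hXT : ∀ x, Tᵀ *ᵥ ((noiseM A lN)ᵀ *ᵥ x) = Xᵀ *ᵥ x := by
    intro x
    rw [hX, transpose_mul, mulVec_mulVec]
  obtain ⟨R, hR⟩ := PN1_root X
  have hlog : (0 : ℝ) ≤ (Nat.log2 n : ℝ) := Nat.cast_nonneg _
  have hu0 : 0 < u := lt_of_lt_of_le (by positivity) hu
  -- the matrices
  set Z : Fin n → Matrix (Fin n) (Fin n) ℝ := fun i =>
    if bad i = true then 0 else vecMulVec (R i) (R i) with hZdef
  set f : Fin n → (Fin B → Bool) → ℝ := fun i w => if hit (e i) w then 4 ^ e i else 0 with hf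
  have hqZ : ∀ i x, qf (Z i) x = if bad i = true then 0 else (R i ⬝ᵥ x) ^ 2 := by
    intro i x
    simp only [hZdef, qf]
    split
    · simp
    · rw [vecMulVec_mulVec, dotProduct_smul, dotProduct_comm x (R i)]
      simp [pow_two]
  have hqZ0 : ∀ i x, qf (Z i) x ≤ (R i ⬝ᵥ x) ^ 2 := by
    intro i x
    rw [hqZ]
    split
    · positivity
    · exact le_rfl
  have hqZn : ∀ i x, 0 ≤ qf (Z i) x := by
    intro i x
    rw [hqZ]
    split
    · exact le_rfl
    · positivity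
  have hZpsd : ∀ i, (Z i).PosSemidef := by
    intro i
    simp only [hZdef]
    split
    · exact PosSemidef.zero
    · have := posSemidef_vecMulVec_self_star (R i)
      simpa using this
  have hf0 : ∀ i w, 0 ≤ f i w := by
    intro i w
    simp only [hf]
    split <;> positivity
  have hf1 : ∀ i, av (f i) = 1 := by
    intro i
    have h1 : av (f i) = 4 ^ e i * frac (fun w : Fin B → Bool => hit (e i) w) := by
      rw [frac_eq_av, ← av_mul_left]
      apply av_congr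
      intro w
      simp only [hf]
      split <;> simp
    rw [h1, frac_hit (e i) (hB i), ← mul_pow]
    norm_num
  -- the norm of `R`
  have hRT : ∀ x, sq (Rᵀ *ᵥ x) ≤ lN * sq x := by
    intro x
    rw [PN1_sq_of_mul hR, ← hXT]
    exact hN x
  have hRn : ∀ x, sq (R *ᵥ x) ≤ lN * sq x := by
    intro x
    have := PN1_transpose Rᵀ hl.le hRT x
    rwa [transpose_transpose] at this
  have hsum : ∀ x, ∑ i, (R i ⬝ᵥ x) ^ 2 = sq (R *ᵥ x) := by
    intro x; rfl
  have hqM : ∀ x : Fin n → ℝ, qf (1 : Matrix (Fin n) (Fin n) ℝ) x = sq x := by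
    intro x
    simp only [qf, one_mulVec, A55.sq, dotProduct, pow_two]
  -- rows
  have hrow : ∀ i, sq (R i) = sq (Tᵀ *ᵥ (noiseM A lN i)) := by
    intro i
    have h1 : sq (R i) = (R * Rᵀ) i i := by
      simp only [A55.sq, mul_apply, transpose_apply, pow_two]
    have h2 : sq (Tᵀ *ᵥ (noiseM A lN i)) = (X * Xᵀ) i i := by
      have h3 : Tᵀ *ᵥ (noiseM A lN i) = fun j => X i j := by
        funext j
        simp only [hX, mulVec, dotProduct, transpose_apply, mul_apply]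
        refine Finset.sum_congr rfl fun k _ => ?_
        ring
      rw [h3]
      simp only [A55.sq, mul_apply, transpose_apply, pow_two]
    rw [h1, h2, hR]
  have hβ : ∀ i, (∀ ω, f i ω = 1) ∨ ∀ ω x, f i ω * qf (Z i) x ≤
      (u⁻¹ ^ 3 * lN) * qf (1 : Matrix (Fin n) (Fin n) ℝ) x := by
    intro i
    by_cases he : e i = 0
    · left
      intro w
      simp only [hf, he]
      rw [if_pos (by unfold hit; intro t ht; omega)]
      norm_num
    · right
      intro w x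
      rw [hqM]
      have hsx : 0 ≤ sq x := Finset.sum_nonneg fun i _ => sq_nonneg _
      by_cases hb : bad i = true
      · rw [hqZ, if_pos hb, mul_zero]
        positivity
      · rw [hqZ, if_neg hb]
        have h1 := hk i (by simpa using hb) he
        rw [← hrow] at h1
        have h2 : (R i ⬝ᵥ x) ^ 2 ≤ sq (R i) * sq x := by
          simp only [dotProduct]
          exact Finset.sum_mul_sq_le_sq_mul_sq _ _ _
        have h3 : f i w ≤ 4 ^ e i := by
          simp only [hf]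
          split
          · exact le_rfl
          · positivity
        calc f i w * (R i ⬝ᵥ x) ^ 2 ≤ 4 ^ e i * (R i ⬝ᵥ x) ^ 2 :=
              mul_le_mul_of_nonneg_right h3 (sq_nonneg _)
          _ ≤ 4 ^ e i * (sq (R i) * sq x) := mul_le_mul_of_nonneg_left h2 (by positivity)
          _ ≤ 4 ^ e i * ((u⁻¹ ^ 3 * lN * (1 / 4) ^ e i) * sq x) := by gcongr
          _ = (4 ^ e i * (1 / 4) ^ e i) * (u⁻¹ ^ 3 * lN * sq x) := by ring
          _ = u⁻¹ ^ 3 * lN * sq x := by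
              rw [← mul_pow]; norm_num
  have hμ : ∀ x, ∑ i, qf (Z i) x ≤ lN * qf (1 : Matrix (Fin n) (Fin n) ℝ) x := by
    intro x
    rw [hqM]
    calc ∑ i, qf (Z i) x ≤ ∑ i, (R i ⬝ᵥ x) ^ 2 := Finset.sum_le_sum fun i _ => hqZ0 i x
      _ = sq (R *ᵥ x) := hsum x
      _ ≤ lN * sq x := hRn x
  have hconst : 10 ^ 4 * (u⁻¹ ^ 3 * lN) * (lN + lN) * (Nat.log2 n + 2) ≤ δ ^ 2 * lN ^ 2 := by
    set L : ℝ := (Nat.log2 n : ℝ) + 2 with hL
    have hL2 : 2 ≤ L := by linarith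
    have h1 : 10 ^ 8 * L ≤ δ * u := by
      rw [div_le_iff₀ hδ] at hu
      linarith
    have h2 : 1 ≤ δ * u := by nlinarith
    have h3 : 10 ^ 8 * L ≤ u := by nlinarith
    have h4 : 2 * 10 ^ 4 * L ≤ (δ * u) ^ 2 * u := by
      have h5 : 1 ≤ (δ * u) ^ 2 := one_le_pow₀ h2
      nlinarith
    have h6 : 10 ^ 4 * (u⁻¹ ^ 3 * lN) * (lN + lN) * L = (2 * 10 ^ 4 * L) * (u⁻¹ ^ 3 * lN ^ 2) := by
      ring
    rw [h6]
    calc (2 * 10 ^ 4 * L) * (u⁻¹ ^ 3 * lN ^ 2) ≤ ((δ * u) ^ 2 * u) * (u⁻¹ ^ 3 * lN ^ 2) := by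
          gcongr
      _ = δ ^ 2 * lN ^ 2 := by field_simp
  have hmain := mc_rel (fun _ : Fin n => Fin B → Bool) f Z 1 PosDef.one (u⁻¹ ^ 3 * lN) lN lN δ
    hZpsd hf0 hf1 hβ hμ hl hδ hδ1 (by positivity) hl.le hconst
  refine (frac_mono fun w hw => ?_).trans hmain
  intro hgood
  apply hw
  -- deterministic part
  set S : Matrix (Fin n) (Fin n) ℝ := diagonal fun i => wt (e i) (bad i) (w i) with hS
  have hSR : ∀ y, sq ((S * R) *ᵥ y) ≤ 2 * lN * sq y := by
    intro y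
    have h1 : ∀ i, ((S * R) *ᵥ y) i ^ 2 = f i (w i) * qf (Z i) y := by
      intro i
      have h2 : ((S * R) *ᵥ y) i = wt (e i) (bad i) (w i) * (R i ⬝ᵥ y) := by
        rw [← mulVec_mulVec, hS, mulVec_diagonal]
        rfl
      rw [h2, hqZ, mul_pow]
      by_cases hb : bad i = true
      · rw [if_pos hb]
        unfold wt
        rw [if_neg (by simp [hb])]
        ring
      · rw [if_neg hb]
        congr 1
        unfold wt
        simp only [hf]
        by_cases hh : hit (e i) (w i)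
        · rw [if_pos ⟨by simpa using hb, hh⟩, if_pos hh, ← pow_mul, mul_comm (e i) 2, pow_mul]
          norm_num
        · rw [if_neg (fun h => hh h.2), if_neg hh]
          norm_num
    have h3 := hgood y
    rw [hqM] at h3
    have h4 : sq ((S * R) *ᵥ y) = ∑ i, (f i (w i) - 1) * qf (Z i) y + ∑ i, qf (Z i) y := by
      have h5 : sq ((S * R) *ᵥ y) = ∑ i, f i (w i) * qf (Z i) y :=
        Finset.sum_congr rfl fun i _ => h1 i
      rw [h5, ← Finset.sum_add_distrib]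
      refine Finset.sum_congr rfl fun i _ => ?_
      ring
    rw [h4]
    have h6 := hμ y
    rw [hqM] at h6
    have h7 := (abs_le.1 h3).2
    linarith
  intro x
  rw [hXT, ← PN1_sq_of_mul hR, mulVec_mulVec, ← transpose_mul]
  exact PN1_transpose (S * R) (by positivity) hSR x

end

end A55
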