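import Pool.Agent.Lib_helper78.A55.P_V1
import Pool.Agent.Lib_helper78.A55.P_N1
import Pool.Agent.Lib_helper78.A55.P_K3
import Pool.Agent.Lib_helper78.A55.P_S1

open Matrix Finset

namespace A55

noncomputable section

theorem PZ_union4 {Ω : Type*} [Fintype Ω] (a b c d : Ω → Prop) :
    frac (fun w => ¬ (a w ∧ b w ∧ c w ∧ d w)) ≤
      frac (fun w => ¬ a w) + frac (fun w => ¬ b w) + frac (fun w => ¬ c w) +
        frac (fun w => ¬ d w) := by
  calc frac (fun w => ¬ (a w ∧ b w ∧ c w ∧ d w))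
      ≤ frac (fun w => ((¬ a w ∨ ¬ b w) ∨ ¬ c w) ∨ ¬ d w) := by
        apply frac_mono
        intro w hw
        tauto
    _ ≤ frac (fun w => (¬ a w ∨ ¬ b w) ∨ ¬ c w) + frac (fun w => ¬ d w) := frac_or _ _
    _ ≤ frac (fun w => ¬ a w ∨ ¬ b w) + frac (fun w => ¬ c w) + frac (fun w => ¬ d w) := by
        gcongr; exact frac_or _ _
    _ ≤ _ := by gcongr; exact frac_or _ _

/-- The sampling step. -/
theorem sampleStep : SampleStep := by
  intro n c B A T l lN l' δ u e bad φ hl' hll hlN hδ hδ1 hu hr hB hbad hk hN hφ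
  have hl : 0 < l := lt_of_lt_of_le hl' hll
  have hlN0 : 0 < lN := lt_of_lt_of_le hl hlN
  have h1 := valid_frac A l δ u e bad hl hδ hδ1 hu hr hB hbad
  have h2 := noise_frac A T lN δ u e bad hlN0 hδ hδ1 hu hB hk hN
  have h3 := kill_frac A l l' δ u e bad hl' hll hδ hδ1 hu hr hB
  have h4 : frac (fun w : Fin n → Fin B → Bool =>
      ¬ ∀ r, ∑ i, (if wt (e i) (bad i) (w i) = 0 then 0 else φ r i) ≤
        (1 / δ) * ∑ i, (1 / 4) ^ e i * φ r i) ≤ 8 * δ := by
    calc frac (fun w : Fin n → Fin B → Bool =>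
          ¬ ∀ r, ∑ i, (if wt (e i) (bad i) (w i) = 0 then 0 else φ r i) ≤
            (1 / δ) * ∑ i, (1 / 4) ^ e i * φ r i)
        ≤ frac (fun w : Fin n → Fin B → Bool => ∃ r ∈ (univ : Finset (Fin 8)),
          ¬ ∑ i, (if wt (e i) (bad i) (w i) = 0 then 0 else φ r i) ≤
            (1 / δ) * ∑ i, (1 / 4) ^ e i * φ r i) := by
          apply frac_mono
          intro w hw
          rw [not_forall] at hw
          obtain ⟨r, hr⟩ := hw
          exact ⟨r, mem_univ r, hr⟩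
      _ ≤ ∑ r ∈ (univ : Finset (Fin 8)), frac (fun w : Fin n → Fin B → Bool =>
          ¬ ∑ i, (if wt (e i) (bad i) (w i) = 0 then 0 else φ r i) ≤
            (1 / δ) * ∑ i, (1 / 4) ^ e i * φ r i) := frac_exists _ _
      _ ≤ ∑ _r ∈ (univ : Finset (Fin 8)), δ :=
          Finset.sum_le_sum fun r _ => size_frac δ hδ e bad hB (φ r) (hφ r)
      _ = 8 * δ := by simp
  refine (PZ_union4 _ _ _ _).trans ?_
  linarith

end

end A55
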