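import Pool.Agent.Lib_helper78.A55.P_L2
import Pool.Agent.Lib_helper78.A55.P_L3
import Pool.Agent.Lib_helper78.A55.P_L4
import Pool.Agent.Lib_helper78.A55.P_Z
import Pool.Agent.Lib_helper50.A55.Det

/-!
# MP_a55cb8, level layer: the level theorem (helper78)
-/

open Matrix Finset

namespace A55

noncomputable section

theorem LV_wt {B : ℕ} (e : ℕ) (bad : Bool) (w : Fin B → Bool) :
    wt e bad w = 0 ∨ wt e bad w = 2 ^ e := by
  unfold wt
  split
  · right; rfl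
  · left; rfl

/-- Markov chain rule for fractions, in a form for nested products. -/
theorem LV_chain {Ω Ω' : Type*} [Fintype Ω] [Fintype Ω'] [Nonempty Ω] {P : Ω → Prop}
    {Q : Ω → Ω' → Prop} {R : Ω × Ω' → Prop} {δ δ' : ℝ} (hδ' : 0 ≤ δ')
    (hP : frac (fun a => ¬ P a) ≤ δ) (h : ∀ a, P a → frac (fun b => ¬ Q a b) ≤ δ')
    (hR : ∀ a b, P a → Q a b → R (a, b)) : frac (fun w : Ω × Ω' => ¬ R w) ≤ δ + δ' := by
  calc frac (fun w : Ω × Ω' => ¬ R w) ≤ frac (fun w : Ω × Ω' => ¬ (P w.1 ∧ Q w.1 w.2)) := by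
        apply frac_mono
        intro w hw hc
        exact hw (hR w.1 w.2 hc.1 hc.2)
    _ ≤ frac (fun a => ¬ P a) + δ' := frac_prod_le hδ' h
    _ ≤ δ + δ' := by gcongr

/-- **The level theorem.** -/
theorem level_frac {n M E B : ℕ} (A Q Q1 Q2 : Matrix (Fin n) (Fin n) ℝ) (s : Fin n → ℝ)
    (l l' l'' δ u d : ℝ) (hl'' : 0 < l'') (hl1 : l'' ≤ l') (hl2 : l' ≤ l) (hδ : 0 < δ)
    (hδ1 : δ ≤ 1) (hM : 50 * (Nat.log2 n + 2 + 1 / δ) ≤ M) (hu : 16 * (M : ℝ) ^ 3 ≤ u ^ 2)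
    (hu2 : 10 ^ 8 * (Nat.log2 n + 2) / δ ≤ u) (hd : 0 ≤ d)
    (hdE : 100 * u ^ 10 * d ^ 2 ≤ (1 / 4) ^ E) (hB : 2 * E ≤ B)
    (hQ : IsSol (gram A l) Q d) (hQ1 : IsSol (gram A l') Q1 d) (hQ2 : IsSol (gram Aᵀ l') Q2 d)
    (hS : Valid (diagonal s) A l) (hK : KillOK (diagonal s) A l l' (u ^ 10) (u⁻¹ ^ 5))
    (φT : (Fin n → ℕ) → (Fin n → ℕ) → Fin 8 → Fin n → ℝ)
    (φS : (Fin n → ℕ) → (Fin n → ℕ) → (Fin n → ℝ) → Fin 8 → Fin n → ℝ)
    (hφT : ∀ e f r i, 0 ≤ φT e f r i) (hφS : ∀ e f t r i, 0 ≤ φS e f t r i) :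
    frac (fun g : LBits n M B =>
      ¬ (GoodLevel M E u A l l' l'' s (LD.next E u A Q Q1 Q2 l l' s g) ∧
        (∀ r, ∑ i, (if (LD.next E u A Q Q1 Q2 l l' s g).t i = 0 then 0 else
            φT (LD.next E u A Q Q1 Q2 l l' s g).e (LD.next E u A Q Q1 Q2 l l' s g).f r i) ≤
          (1 / δ) * ∑ i, (1 / 4) ^ (LD.next E u A Q Q1 Q2 l l' s g).f i *
            φT (LD.next E u A Q Q1 Q2 l l' s g).e (LD.next E u A Q Q1 Q2 l l' s g).f r i) ∧
        (∀ r, ∑ i, (if (LD.next E u A Q Q1 Q2 l l' s g).s i = 0 then 0 else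
            φS (LD.next E u A Q Q1 Q2 l l' s g).e (LD.next E u A Q Q1 Q2 l l' s g).f
              (LD.next E u A Q Q1 Q2 l l' s g).t r i) ≤
          (1 / δ) * ∑ i, (1 / 4) ^ (LD.next E u A Q Q1 Q2 l l' s g).e i *
            φS (LD.next E u A Q Q1 Q2 l l' s g).e (LD.next E u A Q Q1 Q2 l l' s g).f
              (LD.next E u A Q Q1 Q2 l l' s g).t r i))) ≤ 50 * δ := by
  have hl' : 0 < l' := lt_of_lt_of_le hl'' hl1
  have hl : 0 < l := lt_of_lt_of_le hl' hl2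
  have hM1 : (1 : ℝ) ≤ M := by
    refine le_trans ?_ hM
    have : (0 : ℝ) ≤ Nat.log2 n := Nat.cast_nonneg _
    have : 0 < 1 / δ := by positivity
    nlinarith
  have hu100 : 100 ≤ u := by
    have h1 : (0 : ℝ) ≤ Nat.log2 n := Nat.cast_nonneg _
    have h2 : (10 : ℝ) ^ 8 * (Nat.log2 n + 2) ≤ 10 ^ 8 * (Nat.log2 n + 2) / δ := by
      rw [le_div_iff₀ hδ]
      have : 0 ≤ (10 : ℝ) ^ 8 * (Nat.log2 n + 2) := by positivity
      nlinarith
    nlinarith
  have hu1 : 1 ≤ u := by linarith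
  -- the scores
  have hA1 : frac (fun g : ((Fin M → Fin n → Bool) × (Fin M → Fin n → Bool)) ×
      ((Fin M → Fin n → Bool) × (Fin M → Fin n → Bool)) =>
      ¬ ((RatesOK A l' (u ^ 10) (rateE E (u ^ 10) (estR A Q1 l' g.1)) ∧
        ∀ i, (1 / 4 : ℝ) ^ rateE E (u ^ 10) (estR A Q1 l' g.1) i ≤
          8 * u ^ 10 * M ^ 3 * rho A l' i + 5 * M ^ 3 * (1 / 4) ^ E) ∧
        (RatesOK Aᵀ l' (u ^ 10) (rateE E (u ^ 10) (estR Aᵀ Q2 l' g.2)) ∧
        ∀ i, (1 / 4 : ℝ) ^ rateE E (u ^ 10) (estR Aᵀ Q2 l' g.2) i ≤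
          8 * u ^ 10 * M ^ 3 * rho Aᵀ l' i + 5 * M ^ 3 * (1 / 4) ^ E))) ≤ 2 * δ + 2 * δ :=
    LV_chain (by positivity) (rates_frac A Q1 l' d δ u hl' hQ1 hd hu1 hδ hδ1 hdE hM)
      (fun _ _ => rates_frac Aᵀ Q2 l' d δ u hl' hQ2 hd hu1 hδ hδ1 hdE hM)
      (fun a b h1 h2 => ⟨h1, h2⟩)
  have key : ∀ a : ((Fin M → Fin n → Bool) × (Fin M → Fin n → Bool)) ×
      ((Fin M → Fin n → Bool) × (Fin M → Fin n → Bool)),
      ((RatesOK A l' (u ^ 10) (rateE E (u ^ 10) (estR A Q1 l' a.1)) ∧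
        ∀ i, (1 / 4 : ℝ) ^ rateE E (u ^ 10) (estR A Q1 l' a.1) i ≤
          8 * u ^ 10 * M ^ 3 * rho A l' i + 5 * M ^ 3 * (1 / 4) ^ E) ∧
        (RatesOK Aᵀ l' (u ^ 10) (rateE E (u ^ 10) (estR Aᵀ Q2 l' a.2)) ∧
        ∀ i, (1 / 4 : ℝ) ^ rateE E (u ^ 10) (estR Aᵀ Q2 l' a.2) i ≤
          8 * u ^ 10 * M ^ 3 * rho Aᵀ l' i + 5 * M ^ 3 * (1 / 4) ^ E)) →
      frac (fun b : (Fin M → Fin n → Bool) × ((Fin n → Fin B → Bool) ×
          ((Fin M → Fin n → Bool) × (Fin n → Fin B → Bool))) =>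
        ¬ (GoodLevel M E u A l l' l'' s (LD.next E u A Q Q1 Q2 l l' s (a, b)) ∧
        (∀ r, ∑ i, (if (LD.next E u A Q Q1 Q2 l l' s (a, b)).t i = 0 then 0 else
            φT (LD.next E u A Q Q1 Q2 l l' s (a, b)).e
              (LD.next E u A Q Q1 Q2 l l' s (a, b)).f r i) ≤
          (1 / δ) * ∑ i, (1 / 4) ^ (LD.next E u A Q Q1 Q2 l l' s (a, b)).f i *
            φT (LD.next E u A Q Q1 Q2 l l' s (a, b)).e
              (LD.next E u A Q Q1 Q2 l l' s (a, b)).f r i) ∧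
        (∀ r, ∑ i, (if (LD.next E u A Q Q1 Q2 l l' s (a, b)).s i = 0 then 0 else
            φS (LD.next E u A Q Q1 Q2 l l' s (a, b)).e (LD.next E u A Q Q1 Q2 l l' s (a, b)).f
              (LD.next E u A Q Q1 Q2 l l' s (a, b)).t r i) ≤
          (1 / δ) * ∑ i, (1 / 4) ^ (LD.next E u A Q Q1 Q2 l l' s (a, b)).e i *
            φS (LD.next E u A Q Q1 Q2 l l' s (a, b)).e (LD.next E u A Q Q1 Q2 l l' s (a, b)).f
              (LD.next E u A Q Q1 Q2 l l' s (a, b)).t r i))) ≤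
        δ + (20 * δ + (δ + 20 * δ)) := by
    rintro a ⟨⟨hR1, hR2⟩, ⟨hC1, hC2⟩⟩
    set e := rateE E (u ^ 10) (estR A Q1 l' a.1) with he
    set f := rateE E (u ^ 10) (estR Aᵀ Q2 l' a.2) with hf
    have hfE : ∀ c, f c ≤ E := fun c => by rw [hf]; exact expo_le _ _
    have heE : ∀ c, e c ≤ E := fun c => by rw [he]; exact expo_le _ _
    have hbc := bad_frac (E := E) A Q s l l' d δ u f hl hQ hd hδ hδ1 hM hu100 hu hdE hfE
      hS hC1 hK
    refine LV_chain (by positivity) hbc (Q := fun g3 b =>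
      GoodLevel M E u A l l' l'' s (LD.next E u A Q Q1 Q2 l l' s (a, (g3, b))) ∧
        (∀ r, ∑ i, (if (LD.next E u A Q Q1 Q2 l l' s (a, (g3, b))).t i = 0 then 0 else
            φT e f r i) ≤
          (1 / δ) * ∑ i, (1 / 4) ^ f i * φT e f r i) ∧
        (∀ r, ∑ i, (if (LD.next E u A Q Q1 Q2 l l' s (a, (g3, b))).s i = 0 then 0 else
            φS e f (LD.next E u A Q Q1 Q2 l l' s (a, (g3, b))).t r i) ≤
          (1 / δ) * ∑ i, (1 / 4) ^ e i *
            φS e f (LD.next E u A Q Q1 Q2 l l' s (a, (g3, b))).t r i)) ?_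
      (fun a b h1 h2 => h2)
    rintro g3 ⟨hk1, hk2⟩
    set badc := badOf (u⁻¹ ^ 3 / 4 * l) f (estN A Q l s g3) with hbadc
    -- the column sample
    have hT := sampleStep n n B Aᵀ (diagonal s) l' l l' δ u f badc (φT e f) hl' le_rfl hl2 hδ
      hδ1 hu2 hC1 (fun c => (Nat.mul_le_mul_left 2 (hfE c)).trans hB)
      (by
        intro x
        have := hk2 x
        simpa using this)
      (by
        intro c h1 h2
        have := hk1 c h1 h2
        rw [← noiseM_transpose A hl, diagonal_transpose]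
        exact this)
      (by
        intro x
        rw [← noiseM_transpose A hl, transpose_transpose, diagonal_transpose]
        exact Valid.noise hS hl x)
      (hφT e f)
    refine LV_chain (by positivity) hT (Q := fun wT b =>
      GoodLevel M E u A l l' l'' s (LD.next E u A Q Q1 Q2 l l' s (a, (g3, (wT, b)))) ∧
        (∀ r, ∑ i, (if wt (f i) (badc i) (wT i) = 0 then 0 else φT e f r i) ≤
          (1 / δ) * ∑ i, (1 / 4) ^ f i * φT e f r i) ∧
        (∀ r, ∑ i, (if (LD.next E u A Q Q1 Q2 l l' s (a, (g3, (wT, b)))).s i = 0 then 0 else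
            φS e f (fun c => wt (f c) (badc c) (wT c)) r i) ≤
          (1 / δ) * ∑ i, (1 / 4) ^ e i *
            φS e f (fun c => wt (f c) (badc c) (wT c)) r i)) ?_
      (fun a b h1 h2 => h2)
    rintro wT ⟨hT1, hT2, hT3, hT4⟩
    set t : Fin n → ℝ := fun c => wt (f c) (badc c) (wT c) with ht
    -- the bad rows
    have hbr := bad_frac (E := E) Aᵀ Q2 t l' l' d δ u e hl' hQ2 hd hδ hδ1 hM hu100 hu
      hdE heE hT1 (by rw [transpose_transpose]; exact hR1) hT3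
    refine LV_chain (by positivity) hbr (Q := fun g4 wS =>
      GoodLevel M E u A l l' l'' s (LD.next E u A Q Q1 Q2 l l' s (a, (g3, (wT, (g4, wS))))) ∧
        (∀ r, ∑ i, (if t i = 0 then 0 else φT e f r i) ≤
          (1 / δ) * ∑ i, (1 / 4) ^ f i * φT e f r i) ∧
        (∀ r, ∑ i, (if wt (e i) (badOf (u⁻¹ ^ 3 / 4 * l') e (estN Aᵀ Q2 l' t g4) i)
            (wS i) = 0 then 0 else φS e f t r i) ≤
          (1 / δ) * ∑ i, (1 / 4) ^ e i * φS e f t r i)) ?_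
      (fun a b h1 h2 => h2)
    rintro g4 ⟨hr1, hr2⟩
    set badr := badOf (u⁻¹ ^ 3 / 4 * l') e (estN Aᵀ Q2 l' t g4) with hbadr
    -- the row sample
    have hSS := sampleStep n n B A (diagonal t) l' l' l'' δ u e badr (φS e f t) hl'' hl1 le_rfl
      hδ hδ1 hu2 hR1 (fun c => (Nat.mul_le_mul_left 2 (heE c)).trans hB)
      (by
        intro x
        have := hr2 x
        rw [transpose_transpose] at this
        exact this)
      (by
        intro c h1 h2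
        have := hr1 c h1 h2
        rw [← noiseM_transpose A hl'] at this
        rw [diagonal_transpose]
        exact this)
      (by
        intro x
        rw [noiseM_transpose A hl', diagonal_transpose]
        exact Valid.noise hT1 hl' x)
      (hφS e f t)
    refine le_trans (frac_mono ?_) hSS
    intro wS hw hc
    apply hw
    obtain ⟨hc1, hc2, hc3, hc4⟩ := hc
    refine ⟨?_, hT4, hc4⟩
    refine ⟨heE, hfE, hR1, hC1, hR2, hC2, fun i => LV_wt _ _ _, fun i => LV_wt _ _ _, hc1, hT1,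
      ?_, hc2, hc3⟩
    have := noise_symm hl (by norm_num) hT2
    rw [transpose_transpose, diagonal_transpose, diagonal_transpose] at this
    exact this
  have := LV_chain (R := fun g : LBits n M B =>
      (GoodLevel M E u A l l' l'' s (LD.next E u A Q Q1 Q2 l l' s g) ∧
        (∀ r, ∑ i, (if (LD.next E u A Q Q1 Q2 l l' s g).t i = 0 then 0 else
            φT (LD.next E u A Q Q1 Q2 l l' s g).e (LD.next E u A Q Q1 Q2 l l' s g).f r i) ≤
          (1 / δ) * ∑ i, (1 / 4) ^ (LD.next E u A Q Q1 Q2 l l' s g).f i *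
            φT (LD.next E u A Q Q1 Q2 l l' s g).e (LD.next E u A Q Q1 Q2 l l' s g).f r i) ∧
        (∀ r, ∑ i, (if (LD.next E u A Q Q1 Q2 l l' s g).s i = 0 then 0 else
            φS (LD.next E u A Q Q1 Q2 l l' s g).e (LD.next E u A Q Q1 Q2 l l' s g).f
              (LD.next E u A Q Q1 Q2 l l' s g).t r i) ≤
          (1 / δ) * ∑ i, (1 / 4) ^ (LD.next E u A Q Q1 Q2 l l' s g).e i *
            φS (LD.next E u A Q Q1 Q2 l l' s g).e (LD.next E u A Q Q1 Q2 l l' s g).f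
              (LD.next E u A Q Q1 Q2 l l' s g).t r i))) (by positivity) hA1 key
      (fun a b h1 h2 => h2)
  linarith

end

end A55
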