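import Pool.Agent.Lib_helper78.A55.PA

/-! Block J1: second and fourth moment of a Rademacher sum. -/

open Finset

namespace A55

noncomputable section

theorem PJ1_bool (f : Bool → ℝ) : av f = (f true + f false) / 2 := by
  unfold av
  rw [Fintype.sum_bool, Fintype.card_bool]
  norm_num

theorem PJ1_cons {d : ℕ} (F : (Fin (d + 1) → Bool) → ℝ) :
    av F = av (fun g : Fin d → Bool =>
      (F (Fin.cons (α := fun _ => Bool) true g) + F (Fin.cons (α := fun _ => Bool) false g)) / 2) := by
  rw [← av_equiv (Fin.consEquiv (fun _ : Fin (d + 1) => Bool)) F, av_prod, av_comm]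
  apply av_congr
  intro g
  rw [PJ1_bool]
  rfl

theorem PJ1_sum {d : ℕ} (v : Fin (d + 1) → ℝ) (b : Bool) (g : Fin d → Bool) :
    ∑ j, v j * sgn ((Fin.cons (α := fun _ => Bool) b g : Fin (d + 1) → Bool) j) =
      v 0 * sgn b + ∑ j, v (Fin.succ j) * sgn (g j) := by
  rw [Fin.sum_univ_succ]
  simp

/-- J1 -/
theorem sgn_second {d : ℕ} (v : Fin d → ℝ) :
    av (fun g : Fin d → Bool => (∑ j, v j * sgn (g j)) ^ 2) = sq v := by
  induction d with
  | zero => unfold av sq; simp
  | succ d ih =>
    rw [PJ1_cons]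
    have h := ih (fun j => v (Fin.succ j))
    have h2 : sq v = sq (fun j => v (Fin.succ j)) + v 0 ^ 2 := by
      unfold sq; rw [Fin.sum_univ_succ, add_comm]
    rw [h2, ← h, ← av_const (Ω := Fin d → Bool) (v 0 ^ 2), ← av_add]
    apply av_congr
    intro g
    rw [PJ1_sum, PJ1_sum]
    simp only [sgn]
    simp only [if_true, Bool.false_eq_true, if_false]
    ring

/-- J2 -/
theorem sgn_fourth {d : ℕ} (v : Fin d → ℝ) :
    av (fun g : Fin d → Bool => (∑ j, v j * sgn (g j)) ^ 4) ≤ 3 * sq v ^ 2 := by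
  induction d with
  | zero => unfold av sq; simp
  | succ d ih =>
    rw [PJ1_cons]
    have h := ih (fun j => v (Fin.succ j))
    have h4 := sgn_second (fun j => v (Fin.succ j))
    have h2 : sq v = sq (fun j => v (Fin.succ j)) + v 0 ^ 2 := by
      unfold sq; rw [Fin.sum_univ_succ, add_comm]
    have h3 : av (fun g : Fin d → Bool =>
        ((∑ j, v j * sgn ((Fin.cons (α := fun _ => Bool) true g : Fin (d + 1) → Bool) j)) ^ 4 +
        (∑ j, v j * sgn ((Fin.cons (α := fun _ => Bool) false g : Fin (d + 1) → Bool) j)) ^ 4) / 2) =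
        av (fun g : Fin d → Bool => (∑ j, v (Fin.succ j) * sgn (g j)) ^ 4) +
          6 * v 0 ^ 2 * av (fun g : Fin d → Bool => (∑ j, v (Fin.succ j) * sgn (g j)) ^ 2) +
          v 0 ^ 4 := by
      rw [← av_mul_left, ← av_add, ← av_const (Ω := Fin d → Bool) (v 0 ^ 4), ← av_add]
      apply av_congr
      intro g
      rw [PJ1_sum, PJ1_sum]
      simp only [sgn]
      simp only [if_true, Bool.false_eq_true, if_false]
      ring
    rw [h3, h4, h2]
    have h5 : 0 ≤ v 0 ^ 4 := by positivity
    nlinarith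

end

end A55
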