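import Pool.Agent.Lib_helper78.A55.LDefs
import Pool.Agent.Lib_helper78.A55.P_L1
import Pool.Agent.Lib_helper78.A55.P_J5
import Pool.Agent.Lib_helper50.A55.Det

/-!
# MP_a55cb8, level layer, block L2 (helper74)
-/

open Matrix Finset

namespace A55

noncomputable section



theorem PL2_sq_add_le {n : Type*} [Fintype n] (x y : n → ℝ) :
    sq (x + y) ≤ 2 * sq x + 2 * sq y := by
  unfold sq
  rw [Finset.mul_sum, Finset.mul_sum, ← Finset.sum_add_distrib]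
  refine Finset.sum_le_sum fun i _ => ?_
  simp only [Pi.add_apply]
  nlinarith [sq_nonneg (x i - y i)]

theorem PL2_sq_sub_le {n : Type*} [Fintype n] (x y : n → ℝ) :
    sq (x - y) ≤ 2 * sq x + 2 * sq y := by
  unfold sq
  rw [Finset.mul_sum, Finset.mul_sum, ← Finset.sum_add_distrib]
  refine Finset.sum_le_sum fun i _ => ?_
  simp only [Pi.sub_apply]
  nlinarith [sq_nonneg (x i + y i)]

theorem PL2_sq_sub_le3 {n : Type*} [Fintype n] (x y : n → ℝ) :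
    sq (x - y) ≤ 4 / 3 * sq x + 4 * sq y := by
  unfold sq
  rw [Finset.mul_sum, Finset.mul_sum, ← Finset.sum_add_distrib]
  refine Finset.sum_le_sum fun i _ => ?_
  simp only [Pi.sub_apply]
  nlinarith [sq_nonneg (x i + 3 * y i)]

theorem PL2_sq_nonneg {n : Type*} [Fintype n] (x : n → ℝ) : 0 ≤ sq x :=
  Finset.sum_nonneg fun _ _ => sq_nonneg _

theorem PL2_sq_smul {n : Type*} [Fintype n] (r : ℝ) (x : n → ℝ) :
    sq (r • x) = r ^ 2 * sq x := by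
  unfold sq
  rw [Finset.mul_sum]
  refine Finset.sum_congr rfl fun i _ => ?_
  simp only [Pi.smul_apply, smul_eq_mul]
  ring

theorem PL2_sq_single {n : Type*} [Fintype n] [DecidableEq n] (i : n) :
    sq (Pi.single i (1 : ℝ)) = 1 := by
  unfold sq
  rw [Finset.sum_eq_single i]
  · simp
  · intro j _ hj
    simp [Pi.single_eq_of_ne hj]
  · simp

/-- a bound of the operator bounds the rows -/
theorem PL2_row {m n : Type*} [Fintype m] [Fintype n] [DecidableEq m] [DecidableEq n]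
    {M : Matrix m n ℝ} {C : ℝ} (hC : 0 ≤ C) (h : ∀ x, sq (M *ᵥ x) ≤ C * sq x) (i : m) :
    sq (M i) ≤ C := by
  have h1 := sq_transpose_le hC h (Pi.single i 1)
  rw [PL2_sq_single, mul_one] at h1
  have h2 : Mᵀ *ᵥ (Pi.single i 1) = M i := by
    ext j
    simp [Matrix.mulVec, dotProduct_single]
  rwa [h2] at h1

theorem PL2_M {n M : ℕ} {δ : ℝ} (hδ : 0 < δ) (hM : 50 * (Nat.log2 n + 2 + 1 / δ) ≤ (M : ℝ)) :
    (1 : ℝ) ≤ M := by
  refine le_trans ?_ hM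
  have h1 : (0 : ℝ) ≤ Nat.log2 n := Nat.cast_nonneg _
  have h2 : 0 < 1 / δ := by positivity
  nlinarith

/-- the deterministic part -/
theorem PL2_det {n M E : ℕ} (A Q : Matrix (Fin n) (Fin n) ℝ) (l d δ u : ℝ) (hl : 0 < l)
    (hQ : IsSol (gram A l) Q d) (hd : 0 ≤ d) (hu : 1 ≤ u) (hδ : 0 < δ)
    (hdE : 100 * u ^ 10 * d ^ 2 ≤ (1 / 4) ^ E) (hM : 50 * (Nat.log2 n + 2 + 1 / δ) ≤ (M : ℝ))
    (g : (Fin M → Fin n → Bool) × (Fin M → Fin n → Bool))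
    (h1 : ∀ i, sq ((A * Q * Aᵀ) i) / 2 ≤ ∑ r, (∑ j, (A * Q * Aᵀ) i j * sgn (g.1 r j)) ^ 2 ∧
        ∑ r, (∑ j, (A * Q * Aᵀ) i j * sgn (g.1 r j)) ^ 2 ≤ (M : ℝ) ^ 3 * sq ((A * Q * Aᵀ) i))
    (h2 : ∀ i, sq ((A * Q) i) / 2 ≤ ∑ r, (∑ j, (A * Q) i j * sgn (g.2 r j)) ^ 2 ∧
        ∑ r, (∑ j, (A * Q) i j * sgn (g.2 r j)) ^ 2 ≤ (M : ℝ) ^ 3 * sq ((A * Q) i)) :
    RatesOK A l (u ^ 10) (rateE E (u ^ 10) (estR A Q l g)) ∧
        ∀ i, (1 / 4 : ℝ) ^ rateE E (u ^ 10) (estR A Q l g) i ≤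
          8 * u ^ 10 * M ^ 3 * rho A l i + 5 * M ^ 3 * (1 / 4) ^ E := by
  have hM1 : (1 : ℝ) ≤ M := PL2_M hδ hM
  have hM3 : (1 : ℝ) ≤ (M : ℝ) ^ 3 := one_le_pow₀ hM1
  have hL : (1 : ℝ) ≤ u ^ 10 := one_le_pow₀ hu
  have hE : (0 : ℝ) < (1 / 4) ^ E := by positivity
  have hd2 : 0 ≤ d ^ 2 := by positivity
  set W := (gram A l)⁻¹ with hW
  -- rows of the errors
  have e1 : ∀ i, sq ((A * (Q - W) * Aᵀ) i) ≤ d ^ 2 := fun i =>
    PL2_row hd2 (fun x => sol_err1 hl hd hQ x) i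
  have e2 : ∀ i, l * sq ((A * (Q - W)) i) ≤ d ^ 2 := by
    intro i
    have h3 : sq ((A * (Q - W)) i) ≤ d ^ 2 / l := by
      refine PL2_row (by positivity) (fun x => ?_) i
      have := sol_err2 hl hd hQ x
      rw [div_mul_eq_mul_div, le_div_iff₀ hl]
      linarith
    rw [le_div_iff₀ hl] at h3
    linarith
  have r1 : ∀ i, (A * Q * Aᵀ) i = (A * W * Aᵀ) i + (A * (Q - W) * Aᵀ) i := by
    intro i
    have : A * Q * Aᵀ = A * W * Aᵀ + A * (Q - W) * Aᵀ := by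
      rw [Matrix.mul_sub, Matrix.sub_mul]; abel
    rw [this]; rfl
  have r2 : ∀ i, (A * Q) i = (A * W) i + (A * (Q - W)) i := by
    intro i
    have : A * Q = A * W + A * (Q - W) := by
      rw [Matrix.mul_sub]; abel
    rw [this]; rfl
  have r1' : ∀ i, (A * W * Aᵀ) i = (A * Q * Aᵀ) i - (A * (Q - W) * Aᵀ) i := by
    intro i; rw [r1 i]; simp
  have r2' : ∀ i, (A * W) i = (A * Q) i - (A * (Q - W)) i := by
    intro i; rw [r2 i]; simp
  have hrho : ∀ i, rho A l i = sq ((A * W * Aᵀ) i) + l * sq ((A * W) i) := by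
    intro i
    rw [rho_eq A hl i]
    have : noiseM A l i = l • (A * W) i := by
      unfold noiseM; rfl
    rw [this, PL2_sq_smul]
    have h3 : l⁻¹ * (l ^ 2 * sq ((A * W) i)) = l * sq ((A * W) i) := by
      field_simp
    rw [h3]
  have hest : ∀ i, estR A Q l g i =
      ∑ r, (∑ j, (A * Q * Aᵀ) i j * sgn (g.1 r j)) ^ 2 +
        l * ∑ r, (∑ j, (A * Q) i j * sgn (g.2 r j)) ^ 2 := by
    intro i
    unfold estR
    rw [Finset.sum_add_distrib, Finset.mul_sum]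
    congr 1
    · refine Finset.sum_congr rfl fun r _ => ?_
      rw [Matrix.mulVec_mulVec, Matrix.mulVec_mulVec]
      rfl
    · refine Finset.sum_congr rfl fun r _ => ?_
      rw [Matrix.mulVec_mulVec]
      rfl
  have lo : ∀ i, 3 / 8 * rho A l i - 3 * d ^ 2 ≤ estR A Q l g i := by
    intro i
    rw [hest, hrho]
    have a1 := PL2_sq_sub_le3 ((A * Q * Aᵀ) i) ((A * (Q - W) * Aᵀ) i)
    have a2 := PL2_sq_sub_le3 ((A * Q) i) ((A * (Q - W)) i)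
    rw [← r1'] at a1
    rw [← r2'] at a2
    have b1 := (h1 i).1
    have b2 := (h2 i).1
    have c1 := e1 i
    have c2 := e2 i
    have a3 : l * sq ((A * W) i) ≤ l * (4 / 3 * sq ((A * Q) i) + 4 * sq ((A * (Q - W)) i)) :=
      mul_le_mul_of_nonneg_left a2 hl.le
    have b3 : l * (sq ((A * Q) i) / 2) ≤ l * ∑ r, (∑ j, (A * Q) i j * sgn (g.2 r j)) ^ 2 :=
      mul_le_mul_of_nonneg_left b2 hl.le
    linarith
  have up : ∀ i, estR A Q l g i ≤ (M : ℝ) ^ 3 * (2 * rho A l i + 4 * d ^ 2) := by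
    intro i
    rw [hest, hrho]
    have a1 := PL2_sq_add_le ((A * W * Aᵀ) i) ((A * (Q - W) * Aᵀ) i)
    have a2 := PL2_sq_add_le ((A * W) i) ((A * (Q - W)) i)
    rw [← r1] at a1
    rw [← r2] at a2
    have b1 := (h1 i).2
    have b2 := (h2 i).2
    have c1 := e1 i
    have c2 := e2 i
    have a3 : l * sq ((A * Q) i) ≤ l * (2 * sq ((A * W) i) + 2 * sq ((A * (Q - W)) i)) :=
      mul_le_mul_of_nonneg_left a2 hl.le
    have b3 : l * ∑ r, (∑ j, (A * Q) i j * sgn (g.2 r j)) ^ 2 ≤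
        l * ((M : ℝ) ^ 3 * sq ((A * Q) i)) :=
      mul_le_mul_of_nonneg_left b2 hl.le
    have a4 : sq ((A * Q * Aᵀ) i) + l * sq ((A * Q) i) ≤
        2 * (sq ((A * W * Aᵀ) i) + l * sq ((A * W) i)) + 4 * d ^ 2 := by linarith
    have a5 := mul_le_mul_of_nonneg_left a4 (zero_le_one.trans hM3)
    linarith
  have nn : ∀ i, 0 ≤ estR A Q l g i := by
    intro i
    rw [hest]
    have : 0 ≤ ∑ r, (∑ j, (A * Q * Aᵀ) i j * sgn (g.1 r j)) ^ 2 :=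
      Finset.sum_nonneg fun _ _ => sq_nonneg _
    have : 0 ≤ ∑ r, (∑ j, (A * Q) i j * sgn (g.2 r j)) ^ 2 :=
      Finset.sum_nonneg fun _ _ => sq_nonneg _
    positivity
  have hdL : 0 ≤ u ^ 10 * d ^ 2 := by positivity
  constructor
  · intro i
    by_cases h0 : rateE E (u ^ 10) (estR A Q l g) i = 0
    · left; exact h0
    · right
      have h3 : u ^ 10 * estR A Q l g i ≤
          (1 / 4) ^ rateE E (u ^ 10) (estR A Q l g) i := expo_spec _ _ h0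
      have h5 : (1 / 4 : ℝ) ^ E ≤ (1 / 4) ^ rateE E (u ^ 10) (estR A Q l g) i :=
        pow_le_pow_of_le_one (by norm_num) (by norm_num) (expo_le _ _)
      have h4 := mul_le_mul_of_nonneg_left (lo i) (zero_le_one.trans hL)
      nlinarith
  · intro i
    have hr0 := rho_nonneg A hl i
    have hq : 0 ≤ 8 * u ^ 10 * (M : ℝ) ^ 3 * rho A l i := by positivity
    have h6 : (1 / 4 : ℝ) ^ E ≤ (M : ℝ) ^ 3 * (1 / 4) ^ E := by nlinarith
    rcases expo_upper E (u ^ 10 * estR A Q l g i) with h3 | h3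
    · have h3' : (1 / 4 : ℝ) ^ rateE E (u ^ 10) (estR A Q l g) i ≤
        4 * (u ^ 10 * estR A Q l g i) := h3
      refine h3'.trans ?_
      have h4 := mul_le_mul_of_nonneg_left (up i) (zero_le_one.trans hL)
      have h5 : (M : ℝ) ^ 3 * (100 * u ^ 10 * d ^ 2) ≤ (M : ℝ) ^ 3 * (1 / 4) ^ E :=
        mul_le_mul_of_nonneg_left hdE (by positivity)
      nlinarith
    · have h3' : rateE E (u ^ 10) (estR A Q l g) i = E := h3
      rw [h3']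
      nlinarith

/-- L2: the rates. -/
theorem rates_frac {n M E : ℕ} (A Q : Matrix (Fin n) (Fin n) ℝ) (l d δ u : ℝ) (hl : 0 < l)
    (hQ : IsSol (gram A l) Q d) (hd : 0 ≤ d) (hu : 1 ≤ u) (hδ : 0 < δ) (hδ1 : δ ≤ 1)
    (hdE : 100 * u ^ 10 * d ^ 2 ≤ (1 / 4) ^ E) (hM : 50 * (Nat.log2 n + 2 + 1 / δ) ≤ M) :
    frac (fun g : (Fin M → Fin n → Bool) × (Fin M → Fin n → Bool) =>
      ¬ (RatesOK A l (u ^ 10) (rateE E (u ^ 10) (estR A Q l g)) ∧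
        ∀ i, (1 / 4 : ℝ) ^ rateE E (u ^ 10) (estR A Q l g) i ≤
          8 * u ^ 10 * M ^ 3 * rho A l i + 5 * M ^ 3 * (1 / 4) ^ E)) ≤ 2 * δ := by
  have j1 := jL n n M (A * Q * Aᵀ) δ hδ hδ1 hM
  have j2 := jL n n M (A * Q) δ hδ hδ1 hM
  have key := frac_prod_le (Ω := Fin M → Fin n → Bool) (Ω' := Fin M → Fin n → Bool)
    (P := fun g => ∀ i, sq ((A * Q * Aᵀ) i) / 2 ≤
        ∑ r, (∑ j, (A * Q * Aᵀ) i j * sgn (g r j)) ^ 2 ∧
        ∑ r, (∑ j, (A * Q * Aᵀ) i j * sgn (g r j)) ^ 2 ≤ (M : ℝ) ^ 3 * sq ((A * Q * Aᵀ) i))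
    (Q := fun _ g => ∀ i, sq ((A * Q) i) / 2 ≤ ∑ r, (∑ j, (A * Q) i j * sgn (g r j)) ^ 2 ∧
        ∑ r, (∑ j, (A * Q) i j * sgn (g r j)) ^ 2 ≤ (M : ℝ) ^ 3 * sq ((A * Q) i))
    hδ.le (fun _ _ => j2)
  refine le_trans (frac_mono (Q := fun w : (Fin M → Fin n → Bool) × (Fin M → Fin n → Bool) =>
      ¬ ((∀ i, sq ((A * Q * Aᵀ) i) / 2 ≤
        ∑ r, (∑ j, (A * Q * Aᵀ) i j * sgn (w.1 r j)) ^ 2 ∧
        ∑ r, (∑ j, (A * Q * Aᵀ) i j * sgn (w.1 r j)) ^ 2 ≤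
          (M : ℝ) ^ 3 * sq ((A * Q * Aᵀ) i)) ∧
        (∀ i, sq ((A * Q) i) / 2 ≤ ∑ r, (∑ j, (A * Q) i j * sgn (w.2 r j)) ^ 2 ∧
        ∑ r, (∑ j, (A * Q) i j * sgn (w.2 r j)) ^ 2 ≤ (M : ℝ) ^ 3 * sq ((A * Q) i)))) ?_)
    (key.trans ?_)
  · intro g hg hc
    exact hg (PL2_det A Q l d δ u hl hQ hd hu hδ hdE hM g hc.1 hc.2)
  · linarith

end

end A55
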